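/-!
Executable checker for the shape-space certificate: exact signed integers as pairs of naturals,
fixed-point midpoint-radius intervals at scale `2 ^ 26`, and the cell tests.
-/

set_option autoImplicit false

namespace Pool.Agent.MP_da42b8_an

/-- The integer `p - n`. -/
structure ZZ where
  p : Nat
  n : Nat

namespace ZZ
def add (a b : ZZ) : ZZ := ⟨Nat.add a.p b.p, Nat.add a.n b.n⟩
def neg (a : ZZ) : ZZ := ⟨a.n, a.p⟩
def mul (a b : ZZ) : ZZ :=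
  ⟨Nat.add (Nat.mul a.p b.p) (Nat.mul a.n b.n), Nat.add (Nat.mul a.p b.n) (Nat.mul a.n b.p)⟩
def smul (k : Nat) (a : ZZ) : ZZ := ⟨Nat.mul k a.p, Nat.mul k a.n⟩
def norm (a : ZZ) : ZZ := ⟨Nat.sub a.p a.n, Nat.sub a.n a.p⟩
def zero : ZZ := ⟨0, 0⟩
def lt (a b : ZZ) : Bool := Nat.ble (Nat.succ (Nat.add a.p b.n)) (Nat.add b.p a.n)
def le (a b : ZZ) : Bool := Nat.ble (Nat.add a.p b.n) (Nat.add b.p a.n)
end ZZ

/-- The real interval with centre `(p - n) / 2 ^ 26` and radius `r / 2 ^ 26`. -/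
structure IV where
  p : Nat
  n : Nat
  r : Nat

namespace IV
def add (a b : IV) : IV :=
  ⟨Nat.sub (Nat.add a.p b.p) (Nat.add a.n b.n), Nat.sub (Nat.add a.n b.n) (Nat.add a.p b.p),
    Nat.add a.r b.r⟩
def neg (a : IV) : IV := ⟨a.n, a.p, a.r⟩
def sub (a b : IV) : IV :=
  ⟨Nat.sub (Nat.add a.p b.n) (Nat.add a.n b.p), Nat.sub (Nat.add a.n b.p) (Nat.add a.p b.n),
    Nat.add a.r b.r⟩
def mul (a b : IV) : IV :=
  ⟨Nat.shiftRight (Nat.add (Nat.mul a.p b.p) (Nat.mul a.n b.n)) 26,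
    Nat.shiftRight (Nat.add (Nat.mul a.p b.n) (Nat.mul a.n b.p)) 26,
    Nat.add (Nat.shiftRight (Nat.add (Nat.mul (Nat.add a.p a.n) b.r)
      (Nat.mul (Nat.add (Nat.add b.p b.n) b.r) a.r)) 26) 2⟩
def smul (k : Nat) (a : IV) : IV := ⟨Nat.mul k a.p, Nat.mul k a.n, Nat.mul k a.r⟩
def half (a : IV) : IV :=
  ⟨Nat.shiftRight a.p 1, Nat.shiftRight a.n 1, Nat.add (Nat.shiftRight a.r 1) 2⟩
def pos (a : IV) : Bool := Nat.ble (Nat.succ (Nat.add a.n a.r)) a.p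
def nonneg (a : IV) : Bool := Nat.ble (Nat.add a.n a.r) a.p
def invAux (x y : Nat) : IV :=
  ⟨Nat.shiftRight (Nat.add x y) 1, 0, Nat.add (Nat.shiftRight (Nat.sub y x) 1) 1⟩
def inv (a : IV) : IV :=
  invAux (Nat.div 4503599627370496 (Nat.sub (Nat.add a.p a.r) a.n))
    (Nat.add (Nat.div 4503599627370496 (Nat.sub a.p (Nat.add a.n a.r))) 1)
def ub (a : IV) : IV := ⟨Nat.sub (Nat.add a.p a.r) a.n, Nat.sub a.n (Nat.add a.p a.r), 0⟩
def ubmax (a b : IV) : IV :=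
  cond (Nat.ble (Nat.add (Nat.add a.p a.r) b.n) (Nat.add (Nat.add b.p b.r) a.n)) b.ub a.ub
def sqAux (t : Nat) : IV := ⟨Nat.shiftRight (Nat.mul t t) 26, 0, 0⟩
def sqlo (a : IV) : IV := sqAux (Nat.sub (Nat.add (Nat.sub a.p a.n) (Nat.sub a.n a.p)) a.r)
def pt (a : ZZ) : IV := ⟨a.p, a.n, 0⟩
def hull (lo hi : ZZ) : IV :=
  ⟨Nat.shiftRight (Nat.sub (Nat.add lo.p hi.p) (Nat.add lo.n hi.n)) 1,
    Nat.shiftRight (Nat.sub (Nat.add lo.n hi.n) (Nat.add lo.p hi.p)) 1,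
    Nat.add (Nat.shiftRight (Nat.sub (Nat.add hi.p lo.n) (Nat.add hi.n lo.p)) 1) 2⟩
def one : IV := ⟨67108864, 0, 0⟩
def hf : IV := ⟨33554432, 0, 0⟩
/-- Encloses `(2 / π) ^ 2`. -/
def y2 : IV := ⟨27198198, 0, 1⟩
end IV

/-- A row of three coefficients. -/
structure R3 where
  a : ZZ
  b : ZZ
  c : ZZ

/-- Symmetrised products of two rows. -/
structure S6 where
  s00 : ZZ
  s01 : ZZ
  s02 : ZZ
  s11 : ZZ
  s12 : ZZ
  s22 : ZZ

def R3.neg (x : R3) : R3 := ⟨x.a.neg, x.b.neg, x.c.neg⟩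
def R3.dn (x : R3) : R3 := ⟨ZZ.zero, x.c.neg, x.b⟩
def R3.add (x y : R3) : R3 := ⟨x.a.add y.a, x.b.add y.b, x.c.add y.c⟩
def sym (x y : R3) : S6 :=
  ⟨x.a.mul y.a, (x.a.mul y.b).add (x.b.mul y.a), (x.a.mul y.c).add (x.c.mul y.a),
    x.b.mul y.b, (x.b.mul y.c).add (x.c.mul y.b), x.c.mul y.c⟩
def S6.add (x y : S6) : S6 :=
  ⟨x.s00.add y.s00, x.s01.add y.s01, x.s02.add y.s02, x.s11.add y.s11, x.s12.add y.s12,
    x.s22.add y.s22⟩
def t00 (s : S6) : R3 :=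
  ⟨(s.s00.smul 24).add ((s.s11.add s.s22).smul 12), (s.s01.smul 48).add (s.s12.smul 12),
    ((s.s02.add s.s01.neg).smul 48).add ((s.s22.add s.s11.neg).smul 12)⟩
def t02 (s : S6) : R3 :=
  ⟨ZZ.zero, s.s02.smul 24,
    ((s.s00.smul 48).add (s.s01.smul 24)).add (((s.s11.add s.s12).add (s.s22.smul 2)).smul 16)⟩
def t11 (s : S6) : R3 :=
  ⟨(s.s00.smul 12).add ((s.s11.add s.s22).smul 6), (s.s01.smul 24).add (s.s12.smul 3),
    (s.s02.smul 16).add (((s.s00.add s.s11).smul 12).add (s.s01.smul 32)).neg⟩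
def t22 (s : S6) : R3 :=
  ⟨(s.s00.smul 12).add ((s.s11.add s.s22).smul 6), (s.s01.smul 24).add (s.s12.smul 9),
    (((s.s00.add s.s22).smul 12).add (s.s02.smul 32)).add (s.s01.smul 16).neg⟩

def toIVAux (P N e : Nat) : IV :=
  ⟨Nat.div (Nat.sub P N) 422212465065984, Nat.div (Nat.sub N P) 422212465065984,
    Nat.add (Nat.div e 422212465065984) 2⟩
def toIVN (a b c : ZZ) : IV :=
  toIVAux
    (Nat.add (Nat.add (Nat.mul a.p 70368744177664) (Nat.mul b.p 44798133900177))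
      (Nat.mul c.p 28519377806023))
    (Nat.add (Nat.add (Nat.mul a.n 70368744177664) (Nat.mul b.n 44798133900177))
      (Nat.mul c.n 28519377806023))
    (Nat.add (Nat.add b.p b.n) (Nat.add c.p c.n))
/-- Encloses `(a + b y + c y ^ 2) / (24 * 2 ^ 24)`, `y = 2 / π`. -/
def toIV (x : R3) : IV := toIVN x.a.norm x.b.norm x.c.norm

/-- Coefficients of a test function on one triangle. -/
structure Fn where
  r0 : R3
  r1 : R3
  r2 : R3

def Fn.dn (u : Fn) : Fn := ⟨u.r0.dn, u.r1.dn, u.r2.dn⟩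
def Bf (u v : Fn) : R3 :=
  ((t00 (sym u.r0 v.r0)).add (t02 ((sym u.r0 v.r2).add (sym u.r2 v.r0)))).add
    ((t11 (sym u.r1 v.r1)).add (t22 (sym u.r2 v.r2)))
def Pf (u v : Fn) : R3 := (t11 (sym u.r2 v.r2)).add (t22 (sym u.r1 v.r1))
def Sf (u w : Fn) : R3 :=
  ((t02 (sym u.r1 w.r0)).add (t11 (sym u.r2.neg w.r1))).add (t22 (sym u.r1 w.r2))
def e0 : Fn :=
  ⟨⟨⟨4096, 0⟩, ZZ.zero, ZZ.zero⟩, ⟨ZZ.zero, ZZ.zero, ZZ.zero⟩, ⟨ZZ.zero, ZZ.zero, ZZ.zero⟩⟩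

/-- Enclosures of the Gram numbers of a pair of test functions. -/
structure GR where
  P : IV
  Q : IV
  R : IV
  B11 : IV
  B12 : IV
  B22 : IV
  m1 : IV
  m2 : IV

def gramD (u v : Fn) : GR :=
  ⟨toIV ((Pf u u).add (Pf v v)), toIV ((Bf u.dn u.dn).add (Bf v.dn v.dn)),
    (toIV ((Sf u u.dn).add (Sf v v.dn))).smul 2, toIV (Bf u u), toIV (Bf u v), toIV (Bf v v),
    toIV (Bf u e0), toIV (Bf v e0)⟩
def gramX (u0 v0 u v : Fn) : GR :=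
  ⟨(toIV ((Pf u0 u).add (Pf v0 v))).smul 2, (toIV ((Bf u0.dn u.dn).add (Bf v0.dn v.dn))).smul 2,
    (toIV (((Sf u0 u.dn).add (Sf u u0.dn)).add ((Sf v0 v.dn).add (Sf v v0.dn)))).smul 2,
    (toIV (Bf u0 u)).smul 2, toIV ((Bf u0 v).add (Bf u v0)), (toIV (Bf v0 v)).smul 2,
    IV.one, IV.one⟩

def zdec (x : Nat) : ZZ := ⟨Nat.sub x 32768, Nat.sub 32768 x⟩
/-- The `i`-th signed 16-bit field of `d`. -/
def fld (d i : Nat) : ZZ := zdec (Nat.mod (Nat.shiftRight d (Nat.mul 16 i)) 65536)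
def mkRows (a1 a2 c01 c02 c11 c12 c21 c22 : ZZ) : Fn :=
  ⟨⟨c02.neg, c01, c02⟩, ⟨(a1.add c12.neg).norm, c11, c12⟩, ⟨(a2.add c22.neg).norm, c21, c22⟩⟩
/-- Function number `o / 14` on the triangle with offset `s`. -/
def mkFn (d o s : Nat) : Fn :=
  mkRows (fld d o) (fld d (Nat.add o 1)) (fld d (Nat.add s 0)) (fld d (Nat.add s 1))
    (fld d (Nat.add s 2)) (fld d (Nat.add s 3)) (fld d (Nat.add s 4)) (fld d (Nat.add s 5))
def fS : Fn := mkRows ⟨4096, 0⟩ ZZ.zero ZZ.zero ZZ.zero ZZ.zero ⟨4096, 0⟩ ZZ.zero ZZ.zero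
def fC : Fn := mkRows ZZ.zero ZZ.zero ZZ.zero ZZ.zero ZZ.zero ZZ.zero ⟨4096, 0⟩ ZZ.zero
def fC' : Fn := mkRows ZZ.zero ZZ.zero ZZ.zero ZZ.zero ZZ.zero ZZ.zero ⟨0, 4096⟩ ZZ.zero

/-- A box in the coordinates `h1 - 1, t1, h2 - 1, t2`. -/
structure Box where
  l0 : ZZ
  u0 : ZZ
  l1 : ZZ
  u1 : ZZ
  l2 : ZZ
  u2 : ZZ
  l3 : ZZ
  u3 : ZZ

open IV

def alphaD (g : GR) (h ih t : IV) : IV :=
  (h.mul g.P).add (((g.Q.sub (t.mul g.R)).add ((t.mul t).mul g.P)).mul ih)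
def vtxAux (m11 det e : IV) : Bool :=
  m11.pos && (det.pos && ((det.smul 4).sub (e.mul e)).nonneg)
def vtx (m11 m12 m22 tau : IV) : Bool :=
  vtxAux m11 ((m11.mul m22).sub (m12.mul m12)) ((tau.mul tau).sub (m11.add m22))
def vtxD2 (x y : GR) (h1 h2 al H n1 n2 k1 k2 : IV) : Bool :=
  vtx ((((h1.mul x.B11).add (h2.mul y.B11)).sub (n1.mul k1)).smul 2)
    ((((h1.mul x.B12).add (h2.mul y.B12)).sub (n1.mul k2)).smul 2)
    ((((h1.mul x.B22).add (h2.mul y.B22)).sub (n2.mul k2)).smul 2) ((al.add H).half)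
def vtxD1 (x y : GR) (h1 h2 al H iH n1 n2 : IV) : Bool :=
  H.pos && vtxD2 x y h1 h2 al H n1 n2 (n1.mul iH) (n2.mul iH)
def vtxD (x y : GR) (h1 h2 al1 al2 : IV) : Bool :=
  vtxD1 x y h1 h2 (al1.add al2) (h1.add h2) (h1.add h2).inv
    ((h1.mul x.m1).add (h2.mul y.m1)) ((h1.mul x.m2).add (h2.mul y.m2))
def abarD (g : GR) (h : IV) (bl bh : ZZ) : IV :=
  ubmax (alphaD g h h.inv (pt bl)) (alphaD g h h.inv (pt bh))
def checkBox2 (x y : GR) (h1l h1h h2l h2h a1l a1h a2l a2h : IV) : Bool :=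
  (vtxD x y h1l h2l a1l a2l && vtxD x y h1l h2h a1l a2h) &&
    (vtxD x y h1h h2l a1h a2l && vtxD x y h1h h2h a1h a2h)
def checkBox1 (b : Box) (x y : GR) (h1l h1h h2l h2h : IV) : Bool :=
  ((h1l.pos && h1h.pos) && (h2l.pos && h2h.pos)) &&
    checkBox2 x y h1l h1h h2l h2h (abarD x h1l b.l1 b.u1) (abarD x h1h b.l1 b.u1)
      (abarD y h2l b.l3 b.u3) (abarD y h2h b.l3 b.u3)
def checkBox (b : Box) (d : Nat) : Bool :=
  checkBox1 b (gramD (mkFn d 0 2) (mkFn d 14 16)) (gramD (mkFn d 0 8) (mkFn d 14 22))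
    (one.add (pt b.l0)) (one.add (pt b.u0)) (one.add (pt b.l2)) (one.add (pt b.u2))

def alpha3 (W : GR) (r a k pr gam qr : IV) : IV :=
  ((W.P.add gam).add (a.mul (pr.sub qr))).add (k.mul (hf.add (r.mul qr)))
def alpha2' (X W : GR) (r a k pr gam : IV) : IV :=
  alpha3 W r a k pr gam (X.Q.add (r.mul gam))
def alpha2'' (X W : GR) (r a k b pr : IV) : IV :=
  alpha2' X W r a k pr
    ((W.Q.sub (b.mul (X.R.add (r.mul W.R)))).add ((b.mul b).mul (hf.add (r.mul pr))))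
def alpha2 (X W : GR) (r a k b : IV) : IV := alpha2'' X W r a k b (X.P.add (r.mul W.P))
def abarC1 (X W : GR) (r a k : IV) (bl bh : ZZ) : IV :=
  ubmax (alpha2 X W r a k (pt bl)) (alpha2 X W r a k (pt bh))
def abarC (X W : GR) (r a : IV) (bl bh : ZZ) : IV :=
  abarC1 X W r a ((a.mul a).mul (one.add (r.mul a)).inv) bl bh
def fC2 (r a1 a2 x1 w1 x2 w2 nk : IV) : IV :=
  (((w1.add (a1.mul (x1.add (r.mul w1)))).add (w2.add (a2.mul (x2.add (r.mul w2))))).sub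
    nk).smul 2
def vtxC6 (r t1 tt trf g11 g22 dg kap rk : IV) : Bool :=
  (one.add (r.mul g11)).pos && ((one.add (r.mul ((g11.add g22).add (r.mul dg)))).pos &&
    ((((trf.add dg).sub (tt.add kap)).smul 4).sub (rk.mul ((t1.smul 4).add rk))).nonneg)
def vtxC5 (r t1 tt trf g11 g22 dg kap : IV) : Bool :=
  vtxC6 r t1 tt trf g11 g22 dg kap (r.mul kap)
def vtxC4 (r t1 t2 tt trf g11 g12 g22 : IV) : Bool :=
  vtxC5 r t1 tt trf g11 g22 ((g11.mul g22).sub (g12.mul g12))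
    (((tt.add (t2.smul 4)).add ((r.mul t2).mul ((t1.smul 2).add (r.mul t2)))).sub trf)
def vtxC3 (r t1 t2 e11 e12 e22 f11 f12 f22 : IV) : Bool :=
  vtxC4 r t1 t2 (t1.mul t1) (f11.add f22) (e11.add (r.mul f11)) (e12.add (r.mul f12))
    (e22.add (r.mul f22))
def vtxC2 (X1 W1 X2 W2 : GR) (r a1 a2 t2 n1 n2 k1 k2 e11 e12 e22 : IV) : Bool :=
  vtxC3 r (e11.add e22).half t2 e11 e12 e22
    (fC2 r a1 a2 X1.B11 W1.B11 X2.B11 W2.B11 (n1.mul k1))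
    (fC2 r a1 a2 X1.B12 W1.B12 X2.B12 W2.B12 (n1.mul k2))
    (fC2 r a1 a2 X1.B22 W1.B22 X2.B22 W2.B22 (n2.mul k2))
def vtxC1 (X1 W1 X2 W2 : GR) (r a1 a2 t2 H iH n1 n2 sa : IV) : Bool :=
  H.pos && vtxC2 X1 W1 X2 W2 r a1 a2 t2 n1 n2 (n1.mul iH) (n2.mul iH)
    (sa.add ((X1.B11.add X2.B11).smul 2)) ((X1.B12.add X2.B12).smul 2)
    (sa.add ((X1.B22.add X2.B22).smul 2))
def vtxC0 (X1 W1 X2 W2 : GR) (r a1 a2 t2 h1 h2 : IV) : Bool :=
  vtxC1 X1 W1 X2 W2 r a1 a2 t2 (h1.add h2) (h1.add h2).inv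
    ((h1.mul W1.m1).add (h2.mul W2.m1))
    (((a1.sub a2).mul y2).add ((h1.mul W1.m2).add (h2.mul W2.m2))) (a1.add a2).half
def vtxC (X1 W1 X2 W2 : GR) (r a1 a2 al1 al2 : IV) : Bool :=
  vtxC0 X1 W1 X2 W2 r a1 a2 (al1.add al2).half (one.add (r.mul a1)) (one.add (r.mul a2))
def checkCone3 (X1 W1 X2 W2 : GR) (r a1l a1h a2l a2h A1l A1h A2l A2h : IV) : Bool :=
  (vtxC X1 W1 X2 W2 r a1l a2l A1l A2l && vtxC X1 W1 X2 W2 r a1l a2h A1l A2h) &&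
    (vtxC X1 W1 X2 W2 r a1h a2l A1h A2l && vtxC X1 W1 X2 W2 r a1h a2h A1h A2h)
def checkCone2 (b : Box) (X1 W1 X2 W2 : GR) (r : IV) : Bool :=
  (((one.add (r.mul (pt b.l0))).pos && (one.add (r.mul (pt b.u0))).pos) &&
    ((one.add (r.mul (pt b.l2))).pos && (one.add (r.mul (pt b.u2))).pos)) &&
  checkCone3 X1 W1 X2 W2 r (pt b.l0) (pt b.u0) (pt b.l2) (pt b.u2)
    (abarC X1 W1 r (pt b.l0) b.l1 b.u1) (abarC X1 W1 r (pt b.u0) b.l1 b.u1)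
    (abarC X2 W2 r (pt b.l2) b.l3 b.u3) (abarC X2 W2 r (pt b.u2) b.l3 b.u3)
def rI (k : Nat) : IV := ⟨Nat.mul (Nat.succ (Nat.mul 2 k)) 8388608, 0, 8388608⟩
def checkCone1 (b : Box) (X1 W1 X2 W2 : GR) : Bool :=
  (checkCone2 b X1 W1 X2 W2 (rI 0) && checkCone2 b X1 W1 X2 W2 (rI 1)) &&
    (checkCone2 b X1 W1 X2 W2 (rI 2) && checkCone2 b X1 W1 X2 W2 (rI 3))
def checkCone0 (b : Box) (u1 v1 u2 v2 : Fn) : Bool :=
  checkCone1 b (gramX fS fC u1 v1) (gramD u1 v1) (gramX fS fC' u2 v2) (gramD u2 v2)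
def checkCone (b : Box) (d : Nat) : Bool :=
  checkCone0 b (mkFn d 0 2) (mkFn d 14 16) (mkFn d 0 8) (mkFn d 14 22)

def checkL2 (h1 h2 t1 t2 H : IV) : Bool :=
  (((H.mul H).mul (((one.smul 12).sub ((y2.mul y2).smul 108)).add
      (((H.sub (y2.smul 6)).sqlo.smul 3).add (h1.sub h2).sqlo))).add
    ((((h1.mul t1).add (h2.mul t2)).sqlo.smul 4).add
      (((h1.mul h2).mul (t1.sub t2).sqlo).smul 12))).nonneg
def checkL1 (h1 h2 t1 t2 : IV) : Bool := checkL2 h1 h2 t1 t2 (h1.add h2)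
def checkL (b : Box) : Bool :=
  checkL1 (one.add (hull b.l0 b.u0)) (one.add (hull b.l2 b.u2)) (hull b.l1 b.u1) (hull b.l3 b.u3)

def vtxT (x : GR) (h al ek : IV) : Bool :=
  vtx ((h.mul (x.B11.sub (x.m1.mul x.m1))).smul 2) ((h.mul (x.B12.sub (x.m1.mul x.m2))).smul 2)
    ((h.mul (x.B22.sub (x.m2.mul x.m2))).smul 2) (((al.add h).add ek).half)
def checkThin1 (b : Box) (x : GR) (hl hh ek : IV) : Bool :=
  (hl.pos && hh.pos) &&
    (vtxT x hl (abarD x hl b.l1 b.u1) ek && vtxT x hh (abarD x hh b.l1 b.u1) ek)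
def thinK (a b c d : ZZ) : IV :=
  toIV ⟨(((a.mul a).add (b.mul b)).add ((c.mul c).add (d.mul d))).smul 24, ZZ.zero, ZZ.zero⟩
def checkThin (b : Box) (d : Nat) : Bool :=
  checkThin1 b (gramD (mkFn d 0 2) (mkFn d 14 16)) (one.add (pt b.l0)) (one.add (pt b.u0))
    ((⟨8388608, 0, 0⟩ : IV).mul (one.add (thinK (fld d 0) (fld d 1) (fld d 14) (fld d 15))))

def rho : ZZ := ⟨8388608, 0⟩
def checkInner (b : Box) : Bool :=
  ((rho.neg.le b.l0 && b.u0.le rho) && (rho.neg.le b.l1 && b.u1.le rho)) &&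
    ((rho.neg.le b.l2 && b.u2.le rho) && (rho.neg.le b.l3 && b.u3.le rho))

/-- Subdivision trees. A split value `v` stands for `(v - 2 ^ 30) / 2 ^ 26`. -/
inductive Tr where
  | s0 (v : Nat) (l r : Tr)
  | s1 (v : Nat) (l r : Tr)
  | s2 (v : Nat) (l r : Tr)
  | s3 (v : Nat) (l r : Tr)
  | d (x : Nat)
  | lin
  | sy
  | inn

def sv (v : Nat) : ZZ := ⟨Nat.sub v 1073741824, Nat.sub 1073741824 v⟩

/-- Runs the leaf tests over a subdivision tree. -/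
noncomputable def run (leaf : Box → Nat → Bool) (lf inn : Box → Bool) (t : Tr) : Box → Bool :=
  Tr.rec (motive := fun _ => Box → Bool)
    (fun v _ _ f g b => f { b with u0 := sv v } && g { b with l0 := sv v })
    (fun v _ _ f g b => f { b with u1 := sv v } && g { b with l1 := sv v })
    (fun v _ _ f g b => f { b with u2 := sv v } && g { b with l2 := sv v })
    (fun v _ _ f g b => f { b with u3 := sv v } && g { b with l3 := sv v })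
    (fun x b => leaf b x) (fun b => lf b) (fun b => b.u0.lt b.l2) (fun b => inn b) t

def never (_ : Box) : Bool := false

end Pool.Agent.MP_da42b8_an
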