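import Mathlib.Topology.Sheaves.Presheaf
import Mathlib.Tactic.Monotonicity.Lemmas
import Mathlib.Algebra.Order.Ring.Star
import Mathlib.Algebra.Order.Star.Real
import Mathlib.MeasureTheory.Integral.IntervalIntegral.FundThmCalculus
import Mathlib.MeasureTheory.Integral.Prod
import Mathlib.Analysis.Real.Pi.Bounds
import Mathlib.RingTheory.PiTensorProduct
import Mathlib.Tactic.Algebra.Basic
import Pool.Agent.MP_da42b8_an.Chk

-- ======== part 0: formerly Pool.Agent.MP_da42b8_an.Iv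
section MrgPart0

/-!
Soundness of the exact and interval arithmetic.
-/

set_option autoImplicit false

namespace Pool.Agent.MP_da42b8_an

theorem nsub_sub (a b : ℕ) : ((Nat.sub a b : ℕ) : ℝ) - ((Nat.sub b a : ℕ) : ℝ) = a - b := by
  change ((a - b : ℕ) : ℝ) - ((b - a : ℕ) : ℝ) = a - b
  rcases le_total a b with h | h
  · rw [Nat.sub_eq_zero_of_le h, Nat.cast_sub h]; simp
  · rw [Nat.sub_eq_zero_of_le h, Nat.cast_sub h]; simp

theorem nsub_add (a b : ℕ) : ((Nat.sub a b : ℕ) : ℝ) + ((Nat.sub b a : ℕ) : ℝ) = |(a : ℝ) - b| := by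
  change ((a - b : ℕ) : ℝ) + ((b - a : ℕ) : ℝ) = |(a : ℝ) - b|
  rcases le_total a b with h | h
  · have : (a : ℝ) ≤ b := by exact_mod_cast h
    rw [Nat.sub_eq_zero_of_le h, Nat.cast_sub h, abs_of_nonpos (by linarith)]; simp
  · have : (b : ℝ) ≤ a := by exact_mod_cast h
    rw [Nat.sub_eq_zero_of_le h, Nat.cast_sub h, abs_of_nonneg (by linarith)]; simp

theorem nsub_ge (a b : ℕ) : (a : ℝ) - b ≤ ((Nat.sub a b : ℕ) : ℝ) := by
  have h := nsub_sub a b
  have : (0 : ℝ) ≤ ((Nat.sub b a : ℕ) : ℝ) := Nat.cast_nonneg _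
  linarith

theorem nsub_eq {a b : ℕ} (h : (b : ℝ) ≤ a) : ((Nat.sub a b : ℕ) : ℝ) = a - b := by
  have h' : b ≤ a := by exact_mod_cast h
  exact Nat.cast_sub h'

theorem ndiv_bounds (a d : ℕ) (hd : 0 < d) :
    ((Nat.div a d : ℕ) : ℝ) * d ≤ a ∧ (a : ℝ) < (((Nat.div a d : ℕ) : ℝ) + 1) * d := by
  change ((a / d : ℕ) : ℝ) * d ≤ a ∧ (a : ℝ) < (((a / d : ℕ) : ℝ) + 1) * d
  constructor
  · exact_mod_cast Nat.div_mul_le_self a d
  · have := Nat.lt_div_mul_add (a := a) hd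
    have h2 : (a : ℝ) < ((a / d * d + d : ℕ) : ℝ) := by exact_mod_cast this
    push_cast at h2
    linarith

theorem nshift26 (a : ℕ) :
    ((Nat.shiftRight a 26 : ℕ) : ℝ) * 67108864 ≤ a ∧
      (a : ℝ) < (((Nat.shiftRight a 26 : ℕ) : ℝ) + 1) * 67108864 := by
  have : Nat.shiftRight a 26 = Nat.div a 67108864 := by
    change a >>> 26 = a / 67108864
    rw [Nat.shiftRight_eq_div_pow]
  rw [this]
  simpa using ndiv_bounds a 67108864 (by norm_num)

theorem nshift1 (a : ℕ) :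
    ((Nat.shiftRight a 1 : ℕ) : ℝ) * 2 ≤ a ∧
      (a : ℝ) < (((Nat.shiftRight a 1 : ℕ) : ℝ) + 1) * 2 := by
  have : Nat.shiftRight a 1 = Nat.div a 2 := by
    change a >>> 1 = a / 2
    rw [Nat.shiftRight_eq_div_pow]
  rw [this]
  simpa using ndiv_bounds a 2 (by norm_num)

theorem cast_nadd (a b : ℕ) : ((Nat.add a b : ℕ) : ℝ) = a + b := Nat.cast_add a b
theorem cast_nmul (a b : ℕ) : ((Nat.mul a b : ℕ) : ℝ) = a * b := Nat.cast_mul a b
theorem ble_cast {a b : ℕ} (h : Nat.ble a b = true) : (a : ℝ) ≤ b := by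
  exact_mod_cast Nat.le_of_ble_eq_true h

namespace ZZ

/-- The real value. -/
def val (a : ZZ) : ℝ := (a.p : ℝ) - a.n

@[simp] theorem val_add (a b : ZZ) : (a.add b).val = a.val + b.val := by
  simp only [val, add, cast_nadd]; ring
@[simp] theorem val_neg (a : ZZ) : a.neg.val = -a.val := by
  simp only [val, neg]; ring
@[simp] theorem val_mul (a b : ZZ) : (a.mul b).val = a.val * b.val := by
  simp only [val, mul, cast_nadd, cast_nmul]; ring
@[simp] theorem val_smul (k : ℕ) (a : ZZ) : (a.smul k).val = k * a.val := by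
  simp only [val, smul, cast_nmul]; ring
@[simp] theorem val_norm (a : ZZ) : a.norm.val = a.val := by
  simp only [val, norm, nsub_sub]
@[simp] theorem val_zero : zero.val = 0 := by simp [val, zero]
theorem val_mk (p n : ℕ) : (ZZ.mk p n).val = (p : ℝ) - n := rfl
theorem of_lt {a b : ZZ} (h : a.lt b = true) : a.val < b.val := by
  have := ble_cast h
  simp only [Nat.cast_succ, cast_nadd] at this
  simp only [val]; linarith
theorem of_le {a b : ZZ} (h : a.le b = true) : a.val ≤ b.val := by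
  have := ble_cast h
  simp only [cast_nadd] at this
  simp only [val]; linarith

end ZZ

namespace IV

/-- Membership of a real number in an interval. -/
def Mem (a : IV) (x : ℝ) : Prop := |x * 67108864 - ((a.p : ℝ) - a.n)| ≤ a.r

/-- The centre. -/
noncomputable def ctr (a : IV) : ℝ := ((a.p : ℝ) - a.n) / 67108864

theorem Mem.add {a b : IV} {x y : ℝ} (ha : a.Mem x) (hb : b.Mem y) : (a.add b).Mem (x + y) := by
  simp only [Mem, IV.add, nsub_sub, cast_nadd] at *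
  rw [abs_le] at *
  constructor <;> linarith [ha.1, ha.2, hb.1, hb.2]

theorem Mem.sub {a b : IV} {x y : ℝ} (ha : a.Mem x) (hb : b.Mem y) : (a.sub b).Mem (x - y) := by
  simp only [Mem, IV.sub, nsub_sub, cast_nadd] at *
  rw [abs_le] at *
  constructor <;> linarith [ha.1, ha.2, hb.1, hb.2]

theorem Mem.smul (k : ℕ) {a : IV} {x : ℝ} (ha : a.Mem x) : (a.smul k).Mem (k * x) := by
  simp only [Mem, IV.smul, cast_nmul] at *
  have : (k : ℝ) * x * 67108864 - (k * a.p - k * a.n) = k * (x * 67108864 - (a.p - a.n)) := by ring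
  rw [this, abs_mul, abs_of_nonneg (Nat.cast_nonneg k)]
  exact mul_le_mul_of_nonneg_left ha (Nat.cast_nonneg k)

theorem Mem.half {a : IV} {x : ℝ} (ha : a.Mem x) : a.half.Mem (x / 2) := by
  simp only [Mem, IV.half, cast_nadd] at *
  have h1 := nshift1 a.p
  have h2 := nshift1 a.n
  have h3 := nshift1 a.r
  rw [abs_le] at *
  push_cast
  constructor <;> linarith [ha.1, ha.2, h1.1, h1.2, h2.1, h2.2, h3.1, h3.2]

theorem Mem.mul {a b : IV} {x y : ℝ} (ha : a.Mem x) (hb : b.Mem y) : (a.mul b).Mem (x * y) := by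
  simp only [Mem, IV.mul, cast_nadd] at *
  have h1 := nshift26 (Nat.add (Nat.mul a.p b.p) (Nat.mul a.n b.n))
  have h2 := nshift26 (Nat.add (Nat.mul a.p b.n) (Nat.mul a.n b.p))
  have h3 := nshift26 (Nat.add (Nat.mul (Nat.add a.p a.n) b.r)
      (Nat.mul (Nat.add (Nat.add b.p b.n) b.r) a.r))
  simp only [cast_nadd, cast_nmul] at h1 h2 h3
  generalize ((Nat.shiftRight (Nat.add (Nat.mul a.p b.p) (Nat.mul a.n b.n)) 26 : ℕ) : ℝ) = P at *
  generalize ((Nat.shiftRight (Nat.add (Nat.mul a.p b.n) (Nat.mul a.n b.p)) 26 : ℕ) : ℝ) = N at *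
  generalize ((Nat.shiftRight (Nat.add (Nat.mul (Nat.add a.p a.n) b.r)
      (Nat.mul (Nat.add (Nat.add b.p b.n) b.r) a.r)) 26 : ℕ) : ℝ) = R at *
  have hap : (0 : ℝ) ≤ a.p := Nat.cast_nonneg _
  have han : (0 : ℝ) ≤ a.n := Nat.cast_nonneg _
  have hbp : (0 : ℝ) ≤ b.p := Nat.cast_nonneg _
  have hbn : (0 : ℝ) ≤ b.n := Nat.cast_nonneg _
  have hma : |(a.p : ℝ) - a.n| ≤ a.p + a.n := by rw [abs_le]; constructor <;> linarith
  have hmb : |(b.p : ℝ) - b.n| ≤ b.p + b.n := by rw [abs_le]; constructor <;> linarith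
  set ea := x * 67108864 - ((a.p : ℝ) - a.n) with hea
  set eb := y * 67108864 - ((b.p : ℝ) - b.n) with heb
  have key : x * y * 67108864 * 67108864 - ((a.p : ℝ) - a.n) * ((b.p : ℝ) - b.n)
      = ((a.p : ℝ) - a.n) * eb + (((b.p : ℝ) - b.n) + eb) * ea := by
    rw [hea, heb]; ring
  have hb1 : |((a.p : ℝ) - a.n) * eb| ≤ (a.p + a.n) * b.r := by
    rw [abs_mul]; exact mul_le_mul hma hb (abs_nonneg _) (by linarith)
  have hb2 : |(((b.p : ℝ) - b.n) + eb) * ea| ≤ (b.p + b.n + b.r) * a.r := by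
    rw [abs_mul]
    refine mul_le_mul ((abs_add_le _ _).trans (add_le_add hmb hb)) ha (abs_nonneg _) ?_
    have : (0 : ℝ) ≤ b.r := Nat.cast_nonneg _
    linarith
  have hb3 := (abs_add_le _ _).trans (add_le_add hb1 hb2)
  rw [← key, abs_le] at hb3
  rw [abs_le]
  push_cast
  constructor <;> nlinarith [hb3.1, hb3.2, h1.1, h1.2, h2.1, h2.2, h3.1, h3.2]

theorem Mem.pos {a : IV} {x : ℝ} (ha : a.Mem x) (h : a.pos = true) : 0 < x := by
  have := ble_cast h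
  simp only [Nat.cast_succ, cast_nadd] at this
  simp only [Mem, abs_le] at ha
  nlinarith [ha.1]

theorem Mem.nonneg {a : IV} {x : ℝ} (ha : a.Mem x) (h : a.nonneg = true) : 0 ≤ x := by
  have := ble_cast h
  simp only [cast_nadd] at this
  simp only [Mem, abs_le] at ha
  nlinarith [ha.1]

theorem Mem.inv {a : IV} {x : ℝ} (ha : a.Mem x) (h : a.pos = true) : a.inv.Mem x⁻¹ := by
  have hx := ha.pos h
  have h0 := ble_cast h
  simp only [Nat.cast_succ, cast_nadd] at h0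
  simp only [Mem, abs_le] at ha
  have hr : (0 : ℝ) ≤ a.r := Nat.cast_nonneg _
  have hlo : ((Nat.sub a.p (Nat.add a.n a.r) : ℕ) : ℝ) = a.p - (a.n + a.r) := by
    rw [nsub_eq (by rw [cast_nadd]; linarith), cast_nadd]
  have hhi : ((Nat.sub (Nat.add a.p a.r) a.n : ℕ) : ℝ) = a.p + a.r - a.n := by
    rw [nsub_eq (by rw [cast_nadd]; linarith), cast_nadd]
  have hlo0 : 0 < Nat.sub a.p (Nat.add a.n a.r) := by
    have : (0 : ℝ) < ((Nat.sub a.p (Nat.add a.n a.r) : ℕ) : ℝ) := by rw [hlo]; linarith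
    exact_mod_cast this
  have hhi0 : 0 < Nat.sub (Nat.add a.p a.r) a.n := by
    have : (0 : ℝ) < ((Nat.sub (Nat.add a.p a.r) a.n : ℕ) : ℝ) := by rw [hhi]; linarith
    exact_mod_cast this
  have h1 := (ndiv_bounds 4503599627370496 _ hhi0).1
  have h2 := (ndiv_bounds 4503599627370496 _ hlo0).2
  rw [hhi] at h1
  rw [hlo] at h2
  simp only [Mem, IV.inv, invAux, cast_nadd]
  generalize Nat.div 4503599627370496 (Nat.sub (Nat.add a.p a.r) a.n) = X at *
  generalize Nat.div 4503599627370496 (Nat.sub a.p (Nat.add a.n a.r)) = Y at *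
  have hX0 : (0 : ℝ) ≤ X := Nat.cast_nonneg _
  have hY0 : (0 : ℝ) ≤ Y := Nat.cast_nonneg _
  push_cast at h1 h2
  have hX : (X : ℝ) ≤ x⁻¹ * 67108864 := by
    rw [inv_mul_eq_div, le_div_iff₀ hx]
    nlinarith [ha.2]
  have hY : x⁻¹ * 67108864 ≤ (Y : ℝ) + 1 := by
    rw [inv_mul_eq_div, div_le_iff₀ hx]
    nlinarith [ha.1]
  have h3 := nshift1 (Nat.add X (Nat.add Y 1))
  have h4 := nshift1 (Nat.sub (Nat.add Y 1) X)
  have h5 : ((Nat.sub (Nat.add Y 1) X : ℕ) : ℝ) = Y + 1 - X := by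
    rw [nsub_eq (by rw [cast_nadd]; push_cast; linarith), cast_nadd]; push_cast; ring
  have h6 : Nat.add X (Nat.add Y 1) % 2 = Nat.sub (Nat.add Y 1) X % 2 := by
    have : X ≤ Y + 1 := by
      have : (X : ℝ) ≤ Y + 1 := hX.trans hY
      exact_mod_cast this
    change (X + (Y + 1)) % 2 = (Y + 1 - X) % 2
    omega
  have h7 : 2 * Nat.shiftRight (Nat.add X (Nat.add Y 1)) 1 + Nat.add X (Nat.add Y 1) % 2
      = Nat.add X (Nat.add Y 1) := by
    change 2 * ((X + (Y + 1)) >>> 1) + (X + (Y + 1)) % 2 = X + (Y + 1)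
    rw [Nat.shiftRight_eq_div_pow]; omega
  have h8 : 2 * Nat.shiftRight (Nat.sub (Nat.add Y 1) X) 1 + Nat.sub (Nat.add Y 1) X % 2
      = Nat.sub (Nat.add Y 1) X := by
    change 2 * ((Y + 1 - X) >>> 1) + (Y + 1 - X) % 2 = Y + 1 - X
    rw [Nat.shiftRight_eq_div_pow]; omega
  rw [h6] at h7
  have h9 : Nat.sub (Nat.add Y 1) X % 2 ≤ 1 := by omega
  generalize Nat.sub (Nat.add Y 1) X % 2 = e at *
  have h7' := congrArg (fun n : ℕ => (n : ℝ)) h7
  have h8' := congrArg (fun n : ℕ => (n : ℝ)) h8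
  have h9' : (e : ℝ) ≤ 1 := by exact_mod_cast h9
  have h10 : (0 : ℝ) ≤ e := Nat.cast_nonneg _
  simp only [Nat.cast_add, Nat.cast_mul, Nat.cast_ofNat, cast_nadd, Nat.cast_one, h5] at h7' h8'
  rw [abs_le]
  push_cast
  constructor <;> linarith

theorem mem_ctr {a : IV} : a.Mem a.ctr := by
  simp only [Mem, ctr]
  rw [div_mul_cancel₀ _ (by norm_num)]
  simp

theorem Mem.le_ub {a : IV} {x : ℝ} (ha : a.Mem x) : x ≤ a.ub.ctr := by
  simp only [Mem, abs_le] at ha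
  simp only [ctr, ub, nsub_sub, cast_nadd]
  rw [le_div_iff₀ (by norm_num)]
  linarith [ha.2]

theorem ub_le_ubmax (a b : IV) : a.ub.ctr ≤ (ubmax a b).ctr ∧ b.ub.ctr ≤ (ubmax a b).ctr := by
  unfold ubmax
  cases h : Nat.ble (Nat.add (Nat.add a.p a.r) b.n) (Nat.add (Nat.add b.p b.r) a.n)
  · have h1 : ¬ (Nat.add (Nat.add a.p a.r) b.n ≤ Nat.add (Nat.add b.p b.r) a.n) := by
      intro h2
      rw [Nat.ble_eq_true_of_le h2] at h
      exact absurd h (by simp)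
    have h2 : ((Nat.add (Nat.add b.p b.r) a.n : ℕ) : ℝ) ≤ (Nat.add (Nat.add a.p a.r) b.n : ℕ) := by
      exact_mod_cast (not_le.mp h1).le
    simp only [cast_nadd] at h2
    refine ⟨le_rfl, ?_⟩
    simp only [cond_false, ctr, ub, nsub_sub, cast_nadd]
    apply div_le_div_of_nonneg_right _ (by norm_num)
    linarith
  · have h2 := ble_cast h
    simp only [cast_nadd] at h2
    refine ⟨?_, le_rfl⟩
    simp only [cond_true, ctr, ub, nsub_sub, cast_nadd]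
    apply div_le_div_of_nonneg_right _ (by norm_num)
    linarith

theorem Mem.le_ubmax_left {a : IV} {x : ℝ} (ha : a.Mem x) (b : IV) : x ≤ (ubmax a b).ctr :=
  ha.le_ub.trans (ub_le_ubmax a b).1
theorem Mem.le_ubmax_right {b : IV} {x : ℝ} (hb : b.Mem x) (a : IV) : x ≤ (ubmax a b).ctr :=
  hb.le_ub.trans (ub_le_ubmax a b).2

theorem Mem.sqlo_le {a : IV} {x : ℝ} (ha : a.Mem x) : a.sqlo.ctr ≤ x ^ 2 := by
  simp only [ctr, sqlo, sqAux]
  set t := Nat.sub (Nat.add (Nat.sub a.p a.n) (Nat.sub a.n a.p)) a.r with ht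
  have h1 := (nshift26 (Nat.mul t t)).1
  rw [cast_nmul] at h1
  have h2 : (t : ℝ) ≤ |x * 67108864| := by
    rcases le_total (Nat.add (Nat.sub a.p a.n) (Nat.sub a.n a.p)) a.r with h | h
    · have : t = 0 := Nat.sub_eq_zero_of_le h
      rw [this]; simp
    · have h' : (a.r : ℝ) ≤ (Nat.add (Nat.sub a.p a.n) (Nat.sub a.n a.p) : ℕ) := by exact_mod_cast h
      rw [ht, nsub_eq h', cast_nadd, nsub_add]
      have := abs_sub_abs_le_abs_sub ((a.p : ℝ) - a.n) (x * 67108864)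
      rw [abs_sub_comm ((a.p : ℝ) - a.n)] at this
      have ha' : |x * 67108864 - ((a.p : ℝ) - a.n)| ≤ a.r := ha
      linarith
  have h3 : (t : ℝ) * t ≤ (x * 67108864) ^ 2 := by
    rw [← sq_abs, sq]
    exact mul_self_le_mul_self (Nat.cast_nonneg _) h2
  rw [div_le_iff₀ (by norm_num)]
  simp only [Nat.cast_zero, sub_zero]
  nlinarith

theorem mem_pt (a : ZZ) : (pt a).Mem (a.val / 67108864) := by
  simp only [Mem, pt, ZZ.val]
  rw [div_mul_cancel₀ _ (by norm_num)]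
  simp

theorem mem_hull {lo hi : ZZ} {x : ℝ} (h1 : lo.val / 67108864 ≤ x) (h2 : x ≤ hi.val / 67108864) :
    (hull lo hi).Mem x := by
  rw [div_le_iff₀ (by norm_num)] at h1
  rw [le_div_iff₀ (by norm_num)] at h2
  simp only [ZZ.val] at h1 h2
  simp only [Mem, hull, cast_nadd]
  have e1 := nshift1 (Nat.sub (Nat.add lo.p hi.p) (Nat.add lo.n hi.n))
  have e2 := nshift1 (Nat.sub (Nat.add lo.n hi.n) (Nat.add lo.p hi.p))
  have e3 := nshift1 (Nat.sub (Nat.add hi.p lo.n) (Nat.add hi.n lo.p))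
  have e4 := nsub_sub (Nat.add lo.p hi.p) (Nat.add lo.n hi.n)
  have e5 := nsub_ge (Nat.add hi.p lo.n) (Nat.add hi.n lo.p)
  simp only [cast_nadd] at e4 e5
  rw [abs_le]
  push_cast
  constructor <;> linarith [e1.1, e1.2, e2.1, e2.2, e3.1, e3.2]

theorem mem_one : one.Mem 1 := by simp [Mem, one]
theorem mem_hf : hf.Mem (1 / 2) := by norm_num [Mem, hf]

end IV

/-- The constant `2 / π`. -/
noncomputable def yy : ℝ := 2 / Real.pi

theorem yy_pos : 0 < yy := div_pos two_pos Real.pi_pos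

theorem yy_bounds : (0.6366197723675813430 : ℝ) ≤ yy ∧ yy ≤ 0.6366197723675813431 := by
  have h1 := Real.pi_gt_d20
  have h2 := Real.pi_lt_d20
  unfold yy
  constructor
  · rw [le_div_iff₀ Real.pi_pos]; nlinarith
  · rw [div_le_iff₀ Real.pi_pos]; nlinarith

theorem yy_sq_bounds : (0.405284734569351 : ℝ) ≤ yy ^ 2 ∧ yy ^ 2 ≤ 0.4052847345693511 := by
  obtain ⟨h1, h2⟩ := yy_bounds
  constructor <;> nlinarith

theorem IV.mem_y2 : IV.y2.Mem (yy ^ 2) := by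
  obtain ⟨h1, h2⟩ := yy_sq_bounds
  simp only [IV.Mem, IV.y2, abs_le]
  push_cast
  constructor <;> linarith

theorem mem_toIVN (a b c : ZZ) :
    (toIVN a b c).Mem ((a.val + b.val * yy + c.val * yy ^ 2) / (24 * 16777216)) := by
  obtain ⟨h1, h2⟩ := yy_bounds
  obtain ⟨h3, h4⟩ := yy_sq_bounds
  simp only [toIVN, toIVAux, IV.Mem, cast_nadd]
  set P := Nat.add (Nat.add (Nat.mul a.p 70368744177664) (Nat.mul b.p 44798133900177))
      (Nat.mul c.p 28519377806023) with hP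
  set N := Nat.add (Nat.add (Nat.mul a.n 70368744177664) (Nat.mul b.n 44798133900177))
      (Nat.mul c.n 28519377806023) with hN
  set e := Nat.add (Nat.add b.p b.n) (Nat.add c.p c.n) with he
  have d1 := ndiv_bounds (Nat.sub P N) 422212465065984 (by norm_num)
  have d2 := ndiv_bounds (Nat.sub N P) 422212465065984 (by norm_num)
  have d3 := ndiv_bounds e 422212465065984 (by norm_num)
  have d4 := nsub_sub P N
  have hP' : (P : ℝ) = a.p * 70368744177664 + b.p * 44798133900177 + c.p * 28519377806023 := by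
    simp only [hP, cast_nadd, cast_nmul]; push_cast; ring
  have hN' : (N : ℝ) = a.n * 70368744177664 + b.n * 44798133900177 + c.n * 28519377806023 := by
    simp only [hN, cast_nadd, cast_nmul]; push_cast; ring
  have he' : (e : ℝ) = b.p + b.n + (c.p + c.n) := by
    simp only [he, cast_nadd]
  have hbp : (0 : ℝ) ≤ b.p := Nat.cast_nonneg _
  have hbn : (0 : ℝ) ≤ b.n := Nat.cast_nonneg _
  have hcp : (0 : ℝ) ≤ c.p := Nat.cast_nonneg _
  have hcn : (0 : ℝ) ≤ c.n := Nat.cast_nonneg _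
  have y1 : 0 ≤ yy * 70368744177664 - 44798133900177 := by linarith
  have y2 : yy * 70368744177664 - 44798133900177 ≤ 1 := by linarith
  have y3 : 0 ≤ yy ^ 2 * 70368744177664 - 28519377806023 := by linarith
  have y4 : yy ^ 2 * 70368744177664 - 28519377806023 ≤ 1 := by linarith
  simp only [ZZ.val]
  have m1 := mul_nonneg hbp y1
  have m2 := mul_nonneg hbn y1
  have m3 := mul_nonneg hcp y3
  have m4 := mul_nonneg hcn y3
  have m5 := mul_le_mul_of_nonneg_left y2 hbp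
  have m6 := mul_le_mul_of_nonneg_left y2 hbn
  have m7 := mul_le_mul_of_nonneg_left y4 hcp
  have m8 := mul_le_mul_of_nonneg_left y4 hcn
  rw [abs_le]
  push_cast at d1 d2 d3 ⊢
  constructor <;> nlinarith [d1.1, d1.2, d2.1, d2.2, d3.1, d3.2]

theorem mem_toIV (x : R3) :
    (toIV x).Mem ((x.a.val + x.b.val * yy + x.c.val * yy ^ 2) / (24 * 16777216)) := by
  have := mem_toIVN x.a.norm x.b.norm x.c.norm
  simp only [ZZ.val_norm] at this
  exact this

end Pool.Agent.MP_da42b8_an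

end MrgPart0

-- ======== part 1: formerly Pool.Agent.MP_da42b8_an.Tri
section MrgPart1

/-!
The reference triangle, integrals over it, and the Gram form of the trigonometric dictionary.
-/

set_option autoImplicit false

namespace Pool.Agent.MP_da42b8_an

open MeasureTheory Set

/-- The open reference triangle with vertices `(-1, 0)`, `(1, 0)`, `(0, 1)`. -/
def Tri : Set (ℝ × ℝ) := {p | 0 < p.2 ∧ p.1 + p.2 < 1 ∧ p.2 - p.1 < 1}

theorem isOpen_Tri : IsOpen Tri := by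
  unfold Tri
  simp only [ofPred_and]
  refine IsOpen.inter (isOpen_lt ?_ ?_) (IsOpen.inter (isOpen_lt ?_ ?_) (isOpen_lt ?_ ?_)) <;>
    fun_prop

theorem measurableSet_Tri : MeasurableSet Tri := isOpen_Tri.measurableSet

theorem Tri_subset : Tri ⊆ Icc ((-1 : ℝ), (0 : ℝ)) (1, 1) := by
  rintro ⟨x, y⟩ ⟨h1, h2, h3⟩
  simp only [mem_Icc, Prod.mk_le_mk] at *
  refine ⟨⟨?_, ?_⟩, ?_, ?_⟩ <;> linarith

theorem integrableOn_Tri {F : ℝ × ℝ → ℝ} (hF : Continuous F) : IntegrableOn F Tri :=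
  (hF.continuousOn.integrableOn_compact isCompact_Icc).mono_set Tri_subset

/-- Integral over the reference triangle. -/
noncomputable def IT (F : ℝ × ℝ → ℝ) : ℝ := ∫ p in Tri, F p

theorem IT_add {F G : ℝ × ℝ → ℝ} (hF : Continuous F) (hG : Continuous G) :
    IT (fun p => F p + G p) = IT F + IT G :=
  integral_add (integrableOn_Tri hF) (integrableOn_Tri hG)

theorem IT_cmul (c : ℝ) (F : ℝ × ℝ → ℝ) : IT (fun p => c * F p) = c * IT F :=
  integral_const_mul c F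

theorem IT_nonneg {F : ℝ × ℝ → ℝ} (hF : ∀ p, 0 ≤ F p) : 0 ≤ IT F :=
  integral_nonneg hF

theorem IT_mono {F G : ℝ × ℝ → ℝ} (hF : Continuous F) (hG : Continuous G)
    (h : ∀ p, F p ≤ G p) : IT F ≤ IT G :=
  integral_mono (integrableOn_Tri hF) (integrableOn_Tri hG) h

theorem IT_iter {F : ℝ × ℝ → ℝ} (hF : Continuous F) :
    IT F = ∫ v in (0 : ℝ)..1, ∫ s in (-(1 - v))..(1 - v), F (s, v) := by
  unfold IT
  rw [← integral_indicator measurableSet_Tri, Measure.volume_eq_prod, integral_prod_symm]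
  · rw [intervalIntegral.integral_of_le zero_le_one, integral_Ioc_eq_integral_Ioo,
      ← integral_indicator measurableSet_Ioo]
    congr 1
    funext v
    by_cases hv : v ∈ Ioo (0 : ℝ) 1
    · rw [indicator_of_mem hv, intervalIntegral.integral_of_le (by linarith [hv.2]),
        integral_Ioc_eq_integral_Ioo, ← integral_indicator measurableSet_Ioo]
      congr 1
      funext s
      by_cases hs : s ∈ Ioo (-(1 - v)) (1 - v)
      · rw [indicator_of_mem hs, indicator_of_mem]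
        exact ⟨hv.1, by linarith [hs.2], by linarith [hs.1]⟩
      · rw [indicator_of_notMem hs, indicator_of_notMem]
        rintro ⟨-, h2, h3⟩
        exact hs ⟨by simp only at h3; linarith, by simp only at h2; linarith⟩
    · rw [indicator_of_notMem hv]
      have : ∀ s, Tri.indicator F (s, v) = 0 := by
        intro s
        rw [indicator_of_notMem]
        rintro ⟨h1, h2, h3⟩
        exact hv ⟨h1, by simp only at h2 h3; linarith⟩
      simp [this]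
  · rw [← Measure.volume_eq_prod, integrable_indicator_iff measurableSet_Tri]
    exact integrableOn_Tri hF

theorem IT_reflect {F : ℝ × ℝ → ℝ} (hF : Continuous F) :
    IT (fun p => F (-p.1, p.2)) = IT F := by
  rw [IT_iter hF, IT_iter (by fun_prop)]
  congr 1
  funext v
  have := intervalIntegral.integral_comp_neg (a := -(1 - v)) (b := 1 - v) (fun s => F (s, v))
  simpa using this

theorem integral_of_deriv {F f : ℝ → ℝ} (a b : ℝ) (h : ∀ x, HasDerivAt F (f x) x)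
    (hf : Continuous f) : ∫ x in a..b, f x = F b - F a :=
  intervalIntegral.integral_eq_sub_of_hasDerivAt (fun x _ => h x) (hf.intervalIntegrable _ _)

theorem IT_affine_sq (c a b : ℝ) :
    IT (fun p => (c + a * p.1 + b * p.2) ^ 2) = (c + b / 3) ^ 2 + a ^ 2 / 6 + b ^ 2 / 18 := by
  rw [IT_iter (by fun_prop)]
  have h1 : ∀ v : ℝ, ∫ s in (-(1 - v))..(1 - v), (c + a * s + b * v) ^ 2
      = 2 * (1 - v) * (c + b * v) ^ 2 + 2 / 3 * a ^ 2 * (1 - v) ^ 3 := by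
    intro v
    rw [integral_of_deriv (F := fun s => (c + b * v) ^ 2 * s + (c + b * v) * a * s ^ 2
      + a ^ 2 * s ^ 3 / 3) _ _ _ (by fun_prop)]
    · ring
    · intro x
      have := ((((hasDerivAt_id' x).const_mul ((c + b * v) ^ 2)).add
        ((hasDerivAt_pow 2 x).const_mul ((c + b * v) * a))).add
        (((hasDerivAt_pow 3 x).const_mul (a ^ 2)).div_const 3))
      refine HasDerivAt.congr_deriv this ?_
      simp; ring
  simp only [h1]
  rw [integral_of_deriv (F := fun v => 2 * c ^ 2 * v + (2 * b * c - c ^ 2) * v ^ 2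
      + (2 * b ^ 2 - 4 * b * c) / 3 * v ^ 3 - b ^ 2 / 2 * v ^ 4 - a ^ 2 / 6 * (1 - v) ^ 4)
      _ _ _ (by fun_prop)]
  · ring
  · intro x
    have := ((((((hasDerivAt_id' x).const_mul (2 * c ^ 2)).add
      ((hasDerivAt_pow 2 x).const_mul (2 * b * c - c ^ 2))).add
      ((hasDerivAt_pow 3 x).const_mul ((2 * b ^ 2 - 4 * b * c) / 3))).sub
      ((hasDerivAt_pow 4 x).const_mul (b ^ 2 / 2))).sub
      ((((hasDerivAt_id' x).const_sub 1).pow 4).const_mul (a ^ 2 / 6)))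
    refine HasDerivAt.congr_deriv this ?_
    simp; ring

theorem IT_const (c : ℝ) : IT (fun _ => c) = c := by
  have h := IT_affine_sq 1 0 0
  have h2 := IT_cmul c (fun _ => 1)
  simp at h h2
  rw [h2]
  simpa using congrArg (fun x => c * x) h

/-- `π / 2`. -/
noncomputable def kk : ℝ := Real.pi / 2

theorem kk_pos : 0 < kk := div_pos Real.pi_pos two_pos
theorem kk_mul_yy : kk * yy = 1 := by
  unfold kk yy
  field_simp
theorem hd_sin (x : ℝ) : HasDerivAt (fun x => Real.sin (kk * x)) (kk * Real.cos (kk * x)) x := by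
  have := ((hasDerivAt_id' x).const_mul kk).sin
  refine HasDerivAt.congr_deriv this ?_
  simp; ring
theorem hd_cos (x : ℝ) : HasDerivAt (fun x => Real.cos (kk * x)) (-(kk * Real.sin (kk * x))) x := by
  have := ((hasDerivAt_id' x).const_mul kk).cos
  refine HasDerivAt.congr_deriv this ?_
  simp; ring

theorem inner_int (a0 a1 a2 b0 b1 b2 w : ℝ) :
    ∫ s in (-w)..w, (a0 + a1 * Real.sin (kk * s) + a2 * Real.cos (kk * s)) *
      (b0 + b1 * Real.sin (kk * s) + b2 * Real.cos (kk * s))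
      = 2 * w * (a0 * b0) + 2 * yy * Real.sin (kk * w) * (a0 * b2 + a2 * b0)
        + (w - yy * Real.sin (kk * w) * Real.cos (kk * w)) * (a1 * b1)
        + (w + yy * Real.sin (kk * w) * Real.cos (kk * w)) * (a2 * b2) := by
  rw [integral_of_deriv (F := fun s => a0 * b0 * s - yy * (a0 * b1 + a1 * b0) * Real.cos (kk * s)
      + yy * (a0 * b2 + a2 * b0) * Real.sin (kk * s)
      + a1 * b1 / 2 * (s - yy * (Real.sin (kk * s) * Real.cos (kk * s)))
      + yy * (a1 * b2 + a2 * b1) / 2 * (Real.sin (kk * s) * Real.sin (kk * s))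
      + a2 * b2 / 2 * (s + yy * (Real.sin (kk * s) * Real.cos (kk * s)))) _ _ _ (by fun_prop)]
  · simp only [mul_neg, Real.sin_neg, Real.cos_neg]
    ring
  · intro x
    have := (((((((hasDerivAt_id' x).const_mul (a0 * b0)).sub
      ((hd_cos x).const_mul (yy * (a0 * b1 + a1 * b0)))).add
      ((hd_sin x).const_mul (yy * (a0 * b2 + a2 * b0)))).add
      (((hasDerivAt_id' x).sub (((hd_sin x).mul (hd_cos x)).const_mul yy)).const_mul
        (a1 * b1 / 2))).add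
      (((hd_sin x).mul (hd_sin x)).const_mul (yy * (a1 * b2 + a2 * b1) / 2))).add
      (((hasDerivAt_id' x).add (((hd_sin x).mul (hd_cos x)).const_mul yy)).const_mul
        (a2 * b2 / 2)))
    refine HasDerivAt.congr_deriv this ?_
    have h1 := kk_mul_yy
    have h2 := Real.sin_sq_add_cos_sq (kk * x)
    generalize Real.sin (kk * x) = s at *
    generalize Real.cos (kk * x) = c at *
    linear_combination (((a0 * b1 + a1 * b0) * s + (a0 * b2 + a2 * b0) * c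
      + a1 * b1 / 2 * (s ^ 2 - c ^ 2) + (a1 * b2 + a2 * b1) * s * c
      + a2 * b2 / 2 * (c ^ 2 - s ^ 2))) * h1 - (a1 * b1 / 2 + a2 * b2 / 2) * h2

/-- The value of `g0 + g1 s + g2 c + g3 s ^ 2 + g4 s c + g5 c ^ 2`. -/
noncomputable def gq (g0 g1 g2 g3 g4 g5 v : ℝ) : ℝ :=
  g0 + g1 * Real.sin (kk * v) + g2 * Real.cos (kk * v) + g3 * Real.sin (kk * v) ^ 2
    + g4 * (Real.sin (kk * v) * Real.cos (kk * v)) + g5 * Real.cos (kk * v) ^ 2

theorem sin_kk : Real.sin (kk * 1) = 1 := by simp [kk]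
theorem cos_kk : Real.cos (kk * 1) = 0 := by simp [kk]

theorem outer_L (g0 g1 g2 g3 g4 g5 : ℝ) :
    ∫ v in (0 : ℝ)..1, (1 - v) * gq g0 g1 g2 g3 g4 g5 v
      = g0 / 2 + g1 * (yy - yy ^ 2) + g2 * yy ^ 2 + g3 * (1 / 4 - yy ^ 2 / 4) + g4 * (yy / 4)
        + g5 * (1 / 4 + yy ^ 2 / 4) := by
  unfold gq
  rw [integral_of_deriv (F := fun v => (g0 + g3 / 2 + g5 / 2) * (v - v ^ 2 / 2)
      + (1 - v) * (yy * (-g1 * Real.cos (kk * v) + g2 * Real.sin (kk * v)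
        + (g5 - g3) / 2 * (Real.sin (kk * v) * Real.cos (kk * v))
        + g4 / 4 * (Real.sin (kk * v) * Real.sin (kk * v) - Real.cos (kk * v) * Real.cos (kk * v))))
      + yy ^ 2 * (-g1 * Real.sin (kk * v) - g2 * Real.cos (kk * v)
        + (g5 - g3) / 4 * (Real.sin (kk * v) * Real.sin (kk * v))
        - g4 / 4 * (Real.sin (kk * v) * Real.cos (kk * v)))) _ _ _ (by fun_prop)]
  · simp only [sin_kk, cos_kk, mul_zero, Real.sin_zero, Real.cos_zero]
    ring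
  · intro x
    have := (((((hasDerivAt_id' x).sub ((hasDerivAt_pow 2 x).div_const 2)).const_mul
      (g0 + g3 / 2 + g5 / 2)).add (((hasDerivAt_id' x).const_sub 1).mul
        ((((((hd_cos x).const_mul (-g1)).add ((hd_sin x).const_mul g2)).add
          (((hd_sin x).mul (hd_cos x)).const_mul ((g5 - g3) / 2))).add
          ((((hd_sin x).mul (hd_sin x)).sub ((hd_cos x).mul (hd_cos x))).const_mul
            (g4 / 4))).const_mul yy))).add
      ((((((hd_sin x).const_mul (-g1)).sub ((hd_cos x).const_mul g2)).add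
          (((hd_sin x).mul (hd_sin x)).const_mul ((g5 - g3) / 4))).sub
          (((hd_sin x).mul (hd_cos x)).const_mul (g4 / 4))).const_mul (yy ^ 2)))
    refine HasDerivAt.congr_deriv this ?_
    have h1 := kk_mul_yy
    have h2 := Real.sin_sq_add_cos_sq (kk * x)
    simp only [Pi.add_apply, Pi.mul_apply, Pi.sub_apply]
    generalize Real.sin (kk * x) = s at *
    generalize Real.cos (kk * x) = c at *
    linear_combination (((1 - x) * (g1 * s + g2 * c + (g5 - g3) / 2 * (c ^ 2 - s ^ 2)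
      + g4 * s * c) + yy * (-g1 * c + g2 * s + (g5 - g3) / 2 * s * c
      - g4 / 4 * (c ^ 2 - s ^ 2)))) * h1 - (1 - x) * (g3 / 2 + g5 / 2) * h2

theorem outer_C (g0 g1 g2 g3 g4 g5 : ℝ) :
    ∫ v in (0 : ℝ)..1, Real.cos (kk * v) * gq g0 g1 g2 g3 g4 g5 v
      = g0 * yy + g1 * (yy / 2) + g2 / 2 + g3 * (yy / 3) + g4 * (yy / 3) + g5 * (2 * yy / 3) := by
  unfold gq
  rw [integral_of_deriv (F := fun v => g2 / 2 * v + yy * ((g0 + g5) * Real.sin (kk * v)
        + g1 / 2 * Real.sin (kk * v) ^ 2 + g2 / 2 * (Real.sin (kk * v) * Real.cos (kk * v))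
        + (g3 - g5) / 3 * Real.sin (kk * v) ^ 3 - g4 / 3 * Real.cos (kk * v) ^ 3))
        _ _ _ (by fun_prop)]
  · simp only [sin_kk, cos_kk, mul_zero, Real.sin_zero, Real.cos_zero]
    ring
  · intro x
    have := (((hasDerivAt_id' x).const_mul (g2 / 2)).add
      (((((((hd_sin x).const_mul (g0 + g5)).add (((hd_sin x).pow 2).const_mul (g1 / 2))).add
        (((hd_sin x).mul (hd_cos x)).const_mul (g2 / 2))).add
        (((hd_sin x).pow 3).const_mul ((g3 - g5) / 3))).sub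
        (((hd_cos x).pow 3).const_mul (g4 / 3))).const_mul yy))
    refine HasDerivAt.congr_deriv this ?_
    have h1 := kk_mul_yy
    have h2 := Real.sin_sq_add_cos_sq (kk * x)
    simp only [Nat.cast_ofNat, Nat.add_one_sub_one, pow_one]
    generalize Real.sin (kk * x) = s at *
    generalize Real.cos (kk * x) = c at *
    linear_combination (((g0 + g5) * c + g1 * s * c + g2 / 2 * (c ^ 2 - s ^ 2)
      + (g3 - g5) * s ^ 2 * c + g4 * c ^ 2 * s)) * h1 - (g2 / 2 + g5 * c) * h2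

theorem outer_SC (g0 g1 g2 g3 g4 g5 : ℝ) :
    ∫ v in (0 : ℝ)..1, Real.sin (kk * v) * Real.cos (kk * v) * gq g0 g1 g2 g3 g4 g5 v
      = g0 * (yy / 2) + g1 * (yy / 3) + g2 * (yy / 3) + g3 * (yy / 4) + g4 / 8 + g5 * (yy / 4) := by
  unfold gq
  rw [integral_of_deriv (F := fun v => g4 / 8 * v + yy * (g0 / 2 * Real.sin (kk * v) ^ 2
        + g1 / 3 * Real.sin (kk * v) ^ 3 - g2 / 3 * Real.cos (kk * v) ^ 3
        + g3 / 4 * Real.sin (kk * v) ^ 4 - g5 / 4 * Real.cos (kk * v) ^ 4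
        + g4 / 8 * (Real.sin (kk * v) ^ 3 * Real.cos (kk * v)
          - Real.sin (kk * v) * Real.cos (kk * v) ^ 3)))
        _ _ _ (by fun_prop)]
  · simp only [sin_kk, cos_kk, mul_zero, Real.sin_zero, Real.cos_zero]
    ring
  · intro x
    have := (((hasDerivAt_id' x).const_mul (g4 / 8)).add
      (((((((((hd_sin x).pow 2).const_mul (g0 / 2)).add
        (((hd_sin x).pow 3).const_mul (g1 / 3))).sub
        (((hd_cos x).pow 3).const_mul (g2 / 3))).add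
        (((hd_sin x).pow 4).const_mul (g3 / 4))).sub
        (((hd_cos x).pow 4).const_mul (g5 / 4))).add
        (((((hd_sin x).pow 3).mul (hd_cos x)).sub ((hd_sin x).mul ((hd_cos x).pow 3))).const_mul
          (g4 / 8))).const_mul yy))
    refine HasDerivAt.congr_deriv this ?_
    have h1 := kk_mul_yy
    have h2 := Real.sin_sq_add_cos_sq (kk * x)
    simp only [Nat.cast_ofNat, Nat.add_one_sub_one, pow_one, Pi.pow_apply]
    generalize Real.sin (kk * x) = s at *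
    generalize Real.cos (kk * x) = c at *
    linear_combination ((g0 * s * c + g1 * s ^ 2 * c + g2 * c ^ 2 * s + g3 * s ^ 3 * c
      + g5 * c ^ 3 * s + g4 / 8 * (6 * s ^ 2 * c ^ 2 - s ^ 4 - c ^ 4))) * h1
      - (g4 / 8 * (s ^ 2 + c ^ 2 + 1)) * h2

/-- Three real coefficients. -/
structure V3 where
  a : ℝ
  b : ℝ
  c : ℝ

/-- Nine real coefficients of a function of the trigonometric dictionary. -/
structure RF where
  r0 : V3
  r1 : V3
  r2 : V3

noncomputable def V3.ev (x : V3) (v : ℝ) : ℝ := x.a + x.b * Real.sin (kk * v) + x.c * Real.cos (kk * v)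
def V3.dn (x : V3) : V3 := ⟨0, -x.c, x.b⟩
def V3.neg (x : V3) : V3 := ⟨-x.a, -x.b, -x.c⟩
noncomputable def RF.ev (u : RF) (p : ℝ × ℝ) : ℝ :=
  u.r0.ev p.2 + u.r1.ev p.2 * Real.sin (kk * p.1) + u.r2.ev p.2 * Real.cos (kk * p.1)
def RF.dn (u : RF) : RF := ⟨u.r0.dn, u.r1.dn, u.r2.dn⟩
def RF.ds (u : RF) : RF := ⟨⟨0, 0, 0⟩, u.r2.neg, u.r1⟩

noncomputable def vL (x y : V3) : ℝ :=
  x.a * y.a / 2 + (x.a * y.b + x.b * y.a) * (yy - yy ^ 2) + (x.a * y.c + x.c * y.a) * yy ^ 2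
    + x.b * y.b * (1 / 4 - yy ^ 2 / 4) + (x.b * y.c + x.c * y.b) * (yy / 4)
    + x.c * y.c * (1 / 4 + yy ^ 2 / 4)
noncomputable def vC (x y : V3) : ℝ :=
  x.a * y.a * yy + (x.a * y.b + x.b * y.a) * (yy / 2) + (x.a * y.c + x.c * y.a) / 2
    + x.b * y.b * (yy / 3) + (x.b * y.c + x.c * y.b) * (yy / 3) + x.c * y.c * (2 * yy / 3)
noncomputable def vS (x y : V3) : ℝ :=
  x.a * y.a * (yy / 2) + (x.a * y.b + x.b * y.a) * (yy / 3) + (x.a * y.c + x.c * y.a) * (yy / 3)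
    + x.b * y.b * (yy / 4) + (x.b * y.c + x.c * y.b) / 8 + x.c * y.c * (yy / 4)
/-- The Gram form of the dictionary on the reference triangle. -/
noncomputable def BR (u v : RF) : ℝ :=
  2 * vL u.r0 v.r0 + 2 * yy * (vC u.r0 v.r2 + vC u.r2 v.r0) + (vL u.r1 v.r1 - yy * vS u.r1 v.r1)
    + (vL u.r2 v.r2 + yy * vS u.r2 v.r2)

theorem ev_mul_ev (x y : V3) (v : ℝ) : x.ev v * y.ev v =
    gq (x.a * y.a) (x.a * y.b + x.b * y.a) (x.a * y.c + x.c * y.a) (x.b * y.b)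
      (x.b * y.c + x.c * y.b) (x.c * y.c) v := by
  unfold V3.ev gq; ring

@[fun_prop] theorem V3.continuous_ev (x : V3) : Continuous x.ev := by
  unfold V3.ev; fun_prop

@[fun_prop] theorem RF.continuous_ev (u : RF) : Continuous u.ev := by
  unfold RF.ev; fun_prop

theorem int_vL (x y : V3) : ∫ v in (0 : ℝ)..1, (1 - v) * (x.ev v * y.ev v) = vL x y := by
  simp only [ev_mul_ev, outer_L, vL]
theorem int_vC (x y : V3) :
    ∫ v in (0 : ℝ)..1, Real.cos (kk * v) * (x.ev v * y.ev v) = vC x y := by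
  simp only [ev_mul_ev, outer_C, vC]
theorem int_vS (x y : V3) :
    ∫ v in (0 : ℝ)..1, Real.sin (kk * v) * Real.cos (kk * v) * (x.ev v * y.ev v) = vS x y := by
  simp only [ev_mul_ev, outer_SC, vS]

theorem IT_ev_mul (u v : RF) : IT (fun p => u.ev p * v.ev p) = BR u v := by
  rw [IT_iter (by fun_prop)]
  have hs : ∀ t, Real.sin (kk * (1 - t)) = Real.cos (kk * t) := by
    intro t
    rw [mul_sub, mul_one, kk, Real.sin_pi_div_two_sub]
  have hc : ∀ t, Real.cos (kk * (1 - t)) = Real.sin (kk * t) := by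
    intro t
    rw [mul_sub, mul_one, kk, Real.cos_pi_div_two_sub]
  simp only [RF.ev, inner_int, hs, hc]
  unfold BR
  rw [← int_vL, ← int_vL, ← int_vL, ← int_vC, ← int_vC, ← int_vS, ← int_vS,
    ← intervalIntegral.integral_add, ← intervalIntegral.integral_const_mul,
    ← intervalIntegral.integral_const_mul, ← intervalIntegral.integral_const_mul,
    ← intervalIntegral.integral_const_mul, ← intervalIntegral.integral_add,
    ← intervalIntegral.integral_sub, ← intervalIntegral.integral_add,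
    ← intervalIntegral.integral_add, ← intervalIntegral.integral_add]
  · congr 1
    funext t
    ring
  all_goals
    apply Continuous.intervalIntegrable
    fun_prop

end Pool.Agent.MP_da42b8_an

end MrgPart1

-- ======== part 2: formerly Pool.Agent.MP_da42b8_an.Alg
section MrgPart2

/-!
Test pairs on two glued triangles and the two-by-two algebra behind the eigenvalue bound.
-/

set_option autoImplicit false

namespace Pool.Agent.MP_da42b8_an

/-- A continuously differentiable function on the plane with its two first derivatives. -/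
structure C1 where
  f : ℝ × ℝ → ℝ
  fs : ℝ × ℝ → ℝ
  fn : ℝ × ℝ → ℝ
  hd : ∀ p, HasFDerivAt f
    (fs p • ContinuousLinearMap.fst ℝ ℝ ℝ + fn p • ContinuousLinearMap.snd ℝ ℝ ℝ) p
  cs : Continuous fs
  cn : Continuous fn

@[fun_prop] theorem C1.cf (u : C1) : Continuous u.f :=
  continuous_iff_continuousAt.mpr fun p => (u.hd p).continuousAt
@[fun_prop] theorem C1.cs' (u : C1) : Continuous u.fs := u.cs
@[fun_prop] theorem C1.cn' (u : C1) : Continuous u.fn := u.cn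

/-- Mass of `c + z1 u + z2 v` on a triangle of height `h`. -/
noncomputable def Dq (h : ℝ) (u v : C1) (c z1 z2 : ℝ) : ℝ :=
  h * IT (fun p => (c + z1 * u.f p + z2 * v.f p) ^ 2)

/-- Energy of `z1 u + z2 v` on the triangle with apex `(t, h)`. -/
noncomputable def Nq (h t : ℝ) (u v : C1) (z1 z2 : ℝ) : ℝ :=
  IT (fun p => h * (z1 * u.fs p + z2 * v.fs p) ^ 2
    + h⁻¹ * ((z1 * u.fn p + z2 * v.fn p) - t * (z1 * u.fs p + z2 * v.fs p)) ^ 2)

/-- The variational upper bounds satisfied by the first two nonzero eigenvalues. -/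
def PairOK (h1 t1 h2 t2 μ1 μ2 : ℝ) : Prop :=
  ∀ u1 v1 u2 v2 : C1, (∀ s, u1.f (s, 0) = u2.f (s, 0)) → (∀ s, v1.f (s, 0) = v2.f (s, 0)) →
    ∀ M : ℝ → ℝ → ℝ, (∀ z1 z2, z1 ≠ 0 ∨ z2 ≠ 0 → 0 < M z1 z2) →
      (∀ c z1 z2, M z1 z2 ≤ Dq h1 u1 v1 c z1 z2 + Dq h2 u2 v2 c z1 z2) →
      (∀ z1 z2, z1 ≠ 0 ∨ z2 ≠ 0 → μ1 * M z1 z2 ≤ Nq h1 t1 u1 v1 z1 z2 + Nq h2 t2 u2 v2 z1 z2) ∧
      ∀ lam, (∀ z1 z2, Nq h1 t1 u1 v1 z1 z2 + Nq h2 t2 u2 v2 z1 z2 ≤ lam * M z1 z2) → μ2 ≤ lam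

/-- The inequality to be proved for the shape with parameters `h1, t1, h2, t2`. -/
def Good (h1 t1 h2 t2 : ℝ) : Prop :=
  ∀ μ1 μ2, 0 < μ1 → 0 < μ2 → PairOK h1 t1 h2 t2 μ1 μ2 →
    (h1 + h2) * yy ^ 2 / 2 ≤ 1 / μ1 + 1 / μ2

theorem Nq_quad (h t : ℝ) (u v : C1) : ∃ a12, ∀ z1 z2,
    Nq h t u v z1 z2 = Nq h t u v 1 0 * z1 ^ 2 + 2 * a12 * z1 * z2 + Nq h t u v 0 1 * z2 ^ 2 := by
  refine ⟨IT (fun p => h * (u.fs p * v.fs p)
    + h⁻¹ * ((u.fn p - t * u.fs p) * (v.fn p - t * v.fs p))), fun z1 z2 => ?_⟩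
  unfold Nq
  rw [mul_comm _ (z1 ^ 2), mul_comm _ (z2 ^ 2), show ∀ a : ℝ, 2 * a * z1 * z2 = 2 * z1 * z2 * a
    from fun a => by ring, ← IT_cmul, ← IT_cmul, ← IT_cmul, ← IT_add, ← IT_add]
  · congr 1
    funext p
    ring
  all_goals fun_prop

theorem exists_rot (a11 a12 a22 : ℝ) :
    ∃ p q : ℝ, p ^ 2 + q ^ 2 = 1 ∧ (a22 - a11) * p * q + a12 * (p ^ 2 - q ^ 2) = 0 := by
  by_cases h : a12 = 0
  · exact ⟨1, 0, by simp, by simp [h]⟩
  set d := a22 - a11
  set s := Real.sqrt (d ^ 2 + 4 * a12 ^ 2)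
  have hs : s ^ 2 = d ^ 2 + 4 * a12 ^ 2 := Real.sq_sqrt (by positivity)
  set τ := (d + s) / (2 * a12)
  have hτ : d * τ + a12 * (1 - τ ^ 2) = 0 := by
    simp only [τ]
    field_simp
    linear_combination (-1 : ℝ) * hs
  set n := Real.sqrt (1 + τ ^ 2)
  have hn : n ^ 2 = 1 + τ ^ 2 := Real.sq_sqrt (by positivity)
  have hn0 : n ≠ 0 := by
    intro h0
    rw [h0] at hn
    nlinarith [sq_nonneg τ]
  refine ⟨1 / n, τ / n, ?_, ?_⟩
  · field_simp
    linarith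
  · field_simp
    linarith

theorem core_ineq {μ1 μ2 l1 l2 : ℝ} (h1 : 0 < μ1) (h2 : 0 < μ2) (a : μ1 ≤ l1) (b : μ1 ≤ l2)
    (c : μ2 ≤ max l1 l2) : 1 / l1 + 1 / l2 ≤ 1 / μ1 + 1 / μ2 := by
  rcases le_total l1 l2 with h | h
  · rw [max_eq_right h] at c
    exact add_le_add (one_div_le_one_div_of_le h1 a) (one_div_le_one_div_of_le h2 c)
  · rw [max_eq_left h] at c
    rw [add_comm]
    exact add_le_add (one_div_le_one_div_of_le h1 b) (one_div_le_one_div_of_le h2 c)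

theorem rot_id {a11 a12 a22 p q : ℝ} (hn : p ^ 2 + q ^ 2 = 1)
    (he : (a22 - a11) * p * q + a12 * (p ^ 2 - q ^ 2) = 0) (w1 w2 : ℝ) :
    a11 * w1 ^ 2 + 2 * a12 * w1 * w2 + a22 * w2 ^ 2
      = (a11 * p ^ 2 + 2 * a12 * p * q + a22 * q ^ 2) * (p * w1 + q * w2) ^ 2
        + (a11 * q ^ 2 - 2 * a12 * p * q + a22 * p ^ 2) * (-q * w1 + p * w2) ^ 2 := by
  linear_combination (2 * (p * w1 + q * w2) * (-q * w1 + p * w2)) * he
    - (p ^ 2 + q ^ 2 + 1) * (a11 * w1 ^ 2 + 2 * a12 * w1 * w2 + a22 * w2 ^ 2) * hn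

theorem alg_Y {a11 a12 a22 y11 y12 y22 μ1 μ2 α H : ℝ} (hμ1 : 0 < μ1) (hμ2 : 0 < μ2)
    (hd : y11 * y22 - y12 ^ 2 ≠ 0)
    (h1 : ∀ z1 z2, z1 ≠ 0 ∨ z2 ≠ 0 →
      μ1 * (((y11 * z1 + y12 * z2) ^ 2 + (y12 * z1 + y22 * z2) ^ 2) / 2)
        ≤ a11 * z1 ^ 2 + 2 * a12 * z1 * z2 + a22 * z2 ^ 2)
    (h2 : ∀ lam, (∀ z1 z2, a11 * z1 ^ 2 + 2 * a12 * z1 * z2 + a22 * z2 ^ 2
        ≤ lam * (((y11 * z1 + y12 * z2) ^ 2 + (y12 * z1 + y22 * z2) ^ 2) / 2)) → μ2 ≤ lam)
    (h3 : a11 + a22 ≤ kk ^ 2 * α) (h4 : (α + H) / 2 ≤ y11 + y22) :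
    H * yy ^ 2 / 2 ≤ 1 / μ1 + 1 / μ2 := by
  set d := y11 * y22 - y12 ^ 2 with hdd
  set b11 := (a11 * y22 ^ 2 - 2 * a12 * y22 * y12 + a22 * y12 ^ 2) / d ^ 2 with hb11
  set b22 := (a11 * y12 ^ 2 - 2 * a12 * y12 * y11 + a22 * y11 ^ 2) / d ^ 2 with hb22
  set b12 := (-a11 * y22 * y12 + a12 * (y11 * y22 + y12 ^ 2) - a22 * y12 * y11) / d ^ 2 with hb12
  have hA : ∀ z1 z2, a11 * z1 ^ 2 + 2 * a12 * z1 * z2 + a22 * z2 ^ 2
      = b11 * (y11 * z1 + y12 * z2) ^ 2 + 2 * b12 * (y11 * z1 + y12 * z2) * (y12 * z1 + y22 * z2)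
        + b22 * (y12 * z1 + y22 * z2) ^ 2 := by
    intro z1 z2
    rw [hb11, hb22, hb12]
    field_simp
    rw [hdd]
    ring
  obtain ⟨p, q, hn, he⟩ := exists_rot b11 b12 b22
  set l1 := b11 * p ^ 2 + 2 * b12 * p * q + b22 * q ^ 2 with hl1
  set l2 := b11 * q ^ 2 - 2 * b12 * p * q + b22 * p ^ 2 with hl2
  have hA2 : ∀ z1 z2, a11 * z1 ^ 2 + 2 * a12 * z1 * z2 + a22 * z2 ^ 2
      = l1 * (p * (y11 * z1 + y12 * z2) + q * (y12 * z1 + y22 * z2)) ^ 2
        + l2 * (-q * (y11 * z1 + y12 * z2) + p * (y12 * z1 + y22 * z2)) ^ 2 := by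
    intro z1 z2
    rw [hA, rot_id hn he]
  have hw : ∀ w1 w2 : ℝ, w1 ^ 2 + w2 ^ 2 = 1 →
      μ1 ≤ 2 * (l1 * (p * w1 + q * w2) ^ 2 + l2 * (-q * w1 + p * w2) ^ 2) := by
    intro w1 w2 hw
    have e1 : y11 * ((y22 * w1 - y12 * w2) / d) + y12 * ((-y12 * w1 + y11 * w2) / d) = w1 := by
      field_simp; rw [hdd]; ring
    have e2 : y12 * ((y22 * w1 - y12 * w2) / d) + y22 * ((-y12 * w1 + y11 * w2) / d) = w2 := by
      field_simp; rw [hdd]; ring
    have hz : (y22 * w1 - y12 * w2) / d ≠ 0 ∨ (-y12 * w1 + y11 * w2) / d ≠ 0 := by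
      by_contra hc
      push Not at hc
      rw [hc.1, hc.2] at e1 e2
      rw [← e1, ← e2] at hw
      norm_num at hw
    have := h1 _ _ hz
    rw [hA2, e1, e2, hw] at this
    linarith
  have m1 : μ1 ≤ 2 * l1 := by
    have := hw p q hn
    have e1 : p * p + q * q = 1 := by linarith
    have e2 : -q * p + p * q = 0 := by ring
    rw [e1, e2] at this
    linarith
  have m2 : μ1 ≤ 2 * l2 := by
    have := hw (-q) p (by linarith)
    have e1 : p * -q + q * p = 0 := by ring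
    have e2 : -q * -q + p * p = 1 := by linarith
    rw [e1, e2] at this
    linarith
  have m3 : μ2 ≤ max (2 * l1) (2 * l2) := by
    apply h2
    intro z1 z2
    rw [hA2]
    generalize y11 * z1 + y12 * z2 = w1
    generalize y12 * z1 + y22 * z2 = w2
    have e : w1 ^ 2 + w2 ^ 2 = (p * w1 + q * w2) ^ 2 + (-q * w1 + p * w2) ^ 2 := by
      linear_combination (-(w1 ^ 2 + w2 ^ 2)) * hn
    rw [e]
    have := mul_le_mul_of_nonneg_right (le_max_left (2 * l1) (2 * l2)) (sq_nonneg (p * w1 + q * w2))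
    have := mul_le_mul_of_nonneg_right (le_max_right (2 * l1) (2 * l2))
      (sq_nonneg (-q * w1 + p * w2))
    linarith
  have hl1p : 0 < l1 := by linarith
  have hl2p : 0 < l2 := by linarith
  refine le_trans ?_ (core_ineq hμ1 hμ2 m1 m2 m3)
  have tang : ∀ l g : ℝ, 0 < l → yy ^ 2 * g - (yy ^ 2) ^ 2 * (l * g ^ 2) / 2 ≤ 1 / (2 * l) := by
    intro l g hl
    rw [le_div_iff₀ (by linarith)]
    nlinarith [sq_nonneg (1 - yy ^ 2 * g * l)]
  have t1 := tang l1 (p * (y11 * p + y12 * q) + q * (y12 * p + y22 * q)) hl1p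
  have t2 := tang l2 (-q * (y11 * -q + y12 * p) + p * (y12 * -q + y22 * p)) hl2p
  have s1 : p * (y11 * p + y12 * q) + q * (y12 * p + y22 * q)
      + (-q * (y11 * -q + y12 * p) + p * (y12 * -q + y22 * p)) = y11 + y22 := by
    linear_combination (y11 + y22) * hn
  have c1 : (p * (y11 * p + y12 * q) + q * (y12 * p + y22 * q)) ^ 2
      ≤ (y11 * p + y12 * q) ^ 2 + (y12 * p + y22 * q) ^ 2 := by
    generalize y11 * p + y12 * q = w1
    generalize y12 * p + y22 * q = w2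
    nlinarith [sq_nonneg (-q * w1 + p * w2)]
  have c2 : (-q * (y11 * -q + y12 * p) + p * (y12 * -q + y22 * p)) ^ 2
      ≤ (y11 * -q + y12 * p) ^ 2 + (y12 * -q + y22 * p) ^ 2 := by
    generalize y11 * -q + y12 * p = w1
    generalize y12 * -q + y22 * p = w2
    nlinarith [sq_nonneg (p * w1 + q * w2)]
  have s2 : a11 + a22 = l1 * ((y11 * p + y12 * q) ^ 2 + (y12 * p + y22 * q) ^ 2)
      + l2 * ((y11 * -q + y12 * p) ^ 2 + (y12 * -q + y22 * p) ^ 2) := by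
    have e1 := hA2 1 0
    have e2 := hA2 0 1
    linear_combination e1 + e2
  have c3 := mul_le_mul_of_nonneg_left c1 hl1p.le
  have c4 := mul_le_mul_of_nonneg_left c2 hl2p.le
  have hky : yy ^ 2 * kk ^ 2 = 1 := by
    have := kk_mul_yy
    calc yy ^ 2 * kk ^ 2 = (kk * yy) ^ 2 := by ring
      _ = 1 := by rw [this]; norm_num
  have hy : 0 < yy ^ 2 := pow_pos yy_pos 2
  generalize p * (y11 * p + y12 * q) + q * (y12 * p + y22 * q) = g1 at *
  generalize -q * (y11 * -q + y12 * p) + p * (y12 * -q + y22 * p) = g2 at *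
  have c5 : l1 * g1 ^ 2 + l2 * g2 ^ 2 ≤ kk ^ 2 * α := by linarith
  have c6 := mul_le_mul_of_nonneg_left c5 (sq_nonneg (yy ^ 2))
  have c7 : (yy ^ 2) ^ 2 * (kk ^ 2 * α) = yy ^ 2 * α := by
    linear_combination (yy ^ 2 * α) * hky
  have c8 := mul_le_mul_of_nonneg_left h4 hy.le
  rw [← s1] at c8
  nlinarith

theorem alg_L {m11 m12 m22 μ1 μ2 H : ℝ} (hμ1 : 0 < μ1) (hμ2 : 0 < μ2) (hH : 0 < H)
    (h0 : ∀ z1 z2, z1 ≠ 0 ∨ z2 ≠ 0 → 0 < m11 * z1 ^ 2 + 2 * m12 * z1 * z2 + m22 * z2 ^ 2)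
    (h1 : ∀ z1 z2, z1 ≠ 0 ∨ z2 ≠ 0 →
      μ1 * (m11 * z1 ^ 2 + 2 * m12 * z1 * z2 + m22 * z2 ^ 2) ≤ H * (z1 ^ 2 + z2 ^ 2))
    (h2 : ∀ lam, (∀ z1 z2, H * (z1 ^ 2 + z2 ^ 2)
      ≤ lam * (m11 * z1 ^ 2 + 2 * m12 * z1 * z2 + m22 * z2 ^ 2)) → μ2 ≤ lam) :
    (m11 + m22) / H ≤ 1 / μ1 + 1 / μ2 := by
  obtain ⟨p, q, hn, he⟩ := exists_rot m11 m12 m22
  have hpq : p ≠ 0 ∨ q ≠ 0 := by
    by_contra hc
    push Not at hc
    rw [hc.1, hc.2] at hn
    norm_num at hn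
  have hqp : -q ≠ 0 ∨ p ≠ 0 := by
    rcases hpq with h | h
    · exact Or.inr h
    · exact Or.inl (neg_ne_zero.mpr h)
  have hid := rot_id hn he
  set l1 := m11 * p ^ 2 + 2 * m12 * p * q + m22 * q ^ 2 with hl1
  set l2 := m11 * q ^ 2 - 2 * m12 * p * q + m22 * p ^ 2 with hl2
  have p1 : 0 < l1 := h0 p q hpq
  have p2 : 0 < l2 := by
    have := h0 (-q) p hqp
    rw [hl2]; linarith
  have m1 : μ1 ≤ H / l1 := by
    have := h1 p q hpq
    rw [hn] at this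
    rw [le_div_iff₀ p1]; linarith
  have m2 : μ1 ≤ H / l2 := by
    have := h1 (-q) p hqp
    rw [show (-q) ^ 2 + p ^ 2 = 1 by linarith] at this
    rw [le_div_iff₀ p2, hl2]; linarith
  have m3 : μ2 ≤ max (H / l1) (H / l2) := by
    apply h2
    intro w1 w2
    rw [hid]
    have e : w1 ^ 2 + w2 ^ 2 = (p * w1 + q * w2) ^ 2 + (-q * w1 + p * w2) ^ 2 := by
      linear_combination (-(w1 ^ 2 + w2 ^ 2)) * hn
    rw [e]
    have a1 : H ≤ max (H / l1) (H / l2) * l1 := by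
      rw [← div_le_iff₀ p1]; exact le_max_left _ _
    have a2 : H ≤ max (H / l1) (H / l2) * l2 := by
      rw [← div_le_iff₀ p2]; exact le_max_right _ _
    have := mul_le_mul_of_nonneg_right a1 (sq_nonneg (p * w1 + q * w2))
    have := mul_le_mul_of_nonneg_right a2 (sq_nonneg (-q * w1 + p * w2))
    linarith
  refine le_trans (le_of_eq ?_) (core_ineq hμ1 hμ2 m1 m2 m3)
  have : m11 + m22 = l1 + l2 := by
    rw [hl1, hl2]; linear_combination (-(m11 + m22)) * hn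
  rw [this]
  field_simp

/-- A positive definite square-root minorant of the mass form with large trace. -/
def YOK (N : ℝ → ℝ → ℝ → ℝ) (τ : ℝ) : Prop :=
  ∃ y11 y12 y22 : ℝ, (∀ z1 z2, z1 ≠ 0 ∨ z2 ≠ 0 → 0 < y11 * z1 ^ 2 + 2 * y12 * z1 * z2 + y22 * z2 ^ 2) ∧
    (∀ c z1 z2, (y11 * z1 + y12 * z2) ^ 2 + (y12 * z1 + y22 * z2) ^ 2 ≤ 2 * N c z1 z2) ∧
    τ ≤ y11 + y22

theorem YOK.mono {N N' : ℝ → ℝ → ℝ → ℝ} {τ τ' : ℝ} (h : YOK N τ)
    (hN : ∀ c z1 z2, N c z1 z2 ≤ N' c z1 z2) (hτ : τ' ≤ τ) : YOK N' τ' := by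
  obtain ⟨a, b, c, h1, h2, h3⟩ := h
  exact ⟨a, b, c, h1, fun c z1 z2 => (h2 c z1 z2).trans (by linarith [hN c z1 z2]), hτ.trans h3⟩

theorem YOK.interp {N N' : ℝ → ℝ → ℝ → ℝ} {τ τ' w : ℝ} (h : YOK N τ) (h' : YOK N' τ')
    (w0 : 0 ≤ w) (w1 : w ≤ 1) :
    YOK (fun c z1 z2 => w * N c z1 z2 + (1 - w) * N' c z1 z2) (w * τ + (1 - w) * τ') := by
  obtain ⟨a, b, c, h1, h2, h3⟩ := h
  obtain ⟨a', b', c', h1', h2', h3'⟩ := h'
  have w2 : 0 ≤ 1 - w := by linarith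
  refine ⟨w * a + (1 - w) * a', w * b + (1 - w) * b', w * c + (1 - w) * c', ?_, ?_, ?_⟩
  · intro z1 z2 hz
    have e1 := h1 z1 z2 hz
    have e2 := h1' z1 z2 hz
    rcases eq_or_lt_of_le w0 with hw | hw
    · subst hw
      simpa using e2
    · nlinarith [mul_pos hw e1, mul_nonneg w2 e2.le]
  · intro k z1 z2
    have e1 := mul_le_mul_of_nonneg_left (h2 k z1 z2) w0
    have e2 := mul_le_mul_of_nonneg_left (h2' k z1 z2) w2
    have e3 := mul_nonneg (mul_nonneg w0 w2) (sq_nonneg ((a * z1 + b * z2) - (a' * z1 + b' * z2)))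
    have e4 := mul_nonneg (mul_nonneg w0 w2) (sq_nonneg ((b * z1 + c * z2) - (b' * z1 + c' * z2)))
    nlinarith
  · nlinarith [mul_le_mul_of_nonneg_left h3 w0, mul_le_mul_of_nonneg_left h3' w2]

theorem YOK_of_vtx {N : ℝ → ℝ → ℝ → ℝ} {m11 m12 m22 τ : ℝ} (h1 : 0 < m11)
    (h2 : 0 < m11 * m22 - m12 * m12)
    (h3 : 0 ≤ 4 * (m11 * m22 - m12 * m12) - (τ * τ - (m11 + m22)) * (τ * τ - (m11 + m22)))
    (h4 : ∀ c z1 z2, m11 * z1 ^ 2 + 2 * m12 * z1 * z2 + m22 * z2 ^ 2 ≤ 2 * N c z1 z2) :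
    YOK N τ := by
  have h5 : 0 < m22 := by nlinarith [mul_self_nonneg m12]
  set δ := Real.sqrt (m11 * m22 - m12 * m12)
  have hδ : δ ^ 2 = m11 * m22 - m12 * m12 := Real.sq_sqrt h2.le
  have hδ0 : 0 < δ := Real.sqrt_pos.mpr h2
  set s := Real.sqrt (m11 + m22 + 2 * δ)
  have hs : s ^ 2 = m11 + m22 + 2 * δ := Real.sq_sqrt (by linarith)
  have hs0 : 0 < s := Real.sqrt_pos.mpr (by linarith)
  refine ⟨(m11 + δ) / s, m12 / s, (m22 + δ) / s, ?_, ?_, ?_⟩
  · intro z1 z2 hz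
    have : (m11 + δ) / s * z1 ^ 2 + 2 * (m12 / s) * z1 * z2 + (m22 + δ) / s * z2 ^ 2
        = ((m11 * z1 ^ 2 + 2 * m12 * z1 * z2 + m22 * z2 ^ 2) + δ * (z1 ^ 2 + z2 ^ 2)) / s := by
      field_simp; ring
    rw [this]
    apply div_pos _ hs0
    have e1 : 0 ≤ m11 * z1 ^ 2 + 2 * m12 * z1 * z2 + m22 * z2 ^ 2 := by
      have : 0 ≤ m11 * (m11 * z1 ^ 2 + 2 * m12 * z1 * z2 + m22 * z2 ^ 2) := by
        nlinarith [sq_nonneg (m11 * z1 + m12 * z2), mul_nonneg h2.le (sq_nonneg z2)]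
      exact nonneg_of_mul_nonneg_right this h1 |> fun h => h
    have e2 : 0 < z1 ^ 2 + z2 ^ 2 := by
      rcases hz with h | h
      · have := pow_pos (abs_pos.mpr h) 2
        rw [sq_abs] at this
        nlinarith [sq_nonneg z2]
      · have := pow_pos (abs_pos.mpr h) 2
        rw [sq_abs] at this
        nlinarith [sq_nonneg z1]
    nlinarith [mul_pos hδ0 e2]
  · intro c z1 z2
    refine le_trans (le_of_eq ?_) (h4 c z1 z2)
    field_simp
    rw [hs]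
    linear_combination (z1 ^ 2 + z2 ^ 2) * hδ
  · have e1 : (m11 + δ) / s + (m22 + δ) / s = s := by
      field_simp; linarith
    rw [e1]
    have e2 : τ * τ - (m11 + m22) ≤ 2 * δ := by
      apply abs_le_of_sq_le_sq' _ (by linarith) |>.2
      nlinarith
    apply abs_le_of_sq_le_sq' _ hs0.le |>.2
    nlinarith

theorem good_of_YOK {h1 t1 h2 t2 α : ℝ} {u1 v1 u2 v2 : C1}
    (hu : ∀ s, u1.f (s, 0) = u2.f (s, 0)) (hv : ∀ s, v1.f (s, 0) = v2.f (s, 0))
    (hY : YOK (fun c z1 z2 => Dq h1 u1 v1 c z1 z2 + Dq h2 u2 v2 c z1 z2) ((α + (h1 + h2)) / 2))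
    (hα : Nq h1 t1 u1 v1 1 0 + Nq h1 t1 u1 v1 0 1 + (Nq h2 t2 u2 v2 1 0 + Nq h2 t2 u2 v2 0 1)
      ≤ kk ^ 2 * α) : Good h1 t1 h2 t2 := by
  intro μ1 μ2 hμ1 hμ2 hP
  obtain ⟨y11, y12, y22, e1, e2, e3⟩ := hY
  have hd : 0 < y11 * y22 - y12 ^ 2 := by
    have a := e1 1 0 (Or.inl one_ne_zero)
    have b := e1 y12 (-y11) (Or.inr (by intro h; nlinarith))
    nlinarith
  obtain ⟨a, ha⟩ := Nq_quad h1 t1 u1 v1
  obtain ⟨b, hb⟩ := Nq_quad h2 t2 u2 v2
  have hP' := hP u1 v1 u2 v2 hu hv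
    (fun z1 z2 => ((y11 * z1 + y12 * z2) ^ 2 + (y12 * z1 + y22 * z2) ^ 2) / 2) ?_ ?_
  · refine alg_Y (a11 := Nq h1 t1 u1 v1 1 0 + Nq h2 t2 u2 v2 1 0) (a12 := a + b)
      (a22 := Nq h1 t1 u1 v1 0 1 + Nq h2 t2 u2 v2 0 1) hμ1 hμ2 hd.ne' ?_ ?_ (by linarith) e3
    · intro z1 z2 hz
      have := hP'.1 z1 z2 hz
      rw [ha z1 z2, hb z1 z2] at this
      linarith
    · intro lam hl
      apply hP'.2
      intro z1 z2
      rw [ha z1 z2, hb z1 z2]
      linarith [hl z1 z2]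
  · intro z1 z2 hz
    have := e1 z1 z2 hz
    by_contra hc
    have c1 : y11 * z1 + y12 * z2 = 0 := by
      nlinarith [sq_nonneg (y11 * z1 + y12 * z2), sq_nonneg (y12 * z1 + y22 * z2)]
    have c2 : y12 * z1 + y22 * z2 = 0 := by
      nlinarith [sq_nonneg (y11 * z1 + y12 * z2), sq_nonneg (y12 * z1 + y22 * z2)]
    have : y11 * z1 ^ 2 + 2 * y12 * z1 * z2 + y22 * z2 ^ 2 = 0 := by
      linear_combination z1 * c1 + z2 * c2
    linarith
  · intro c z1 z2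
    linarith [e2 c z1 z2]

end Pool.Agent.MP_da42b8_an

end MrgPart2

-- ======== part 3: formerly Pool.Agent.MP_da42b8_an.Cell
section MrgPart3

/-!
Cells of shapes treated with one fixed test pair; linear test functions; symmetries.
-/

set_option autoImplicit false

namespace Pool.Agent.MP_da42b8_an

/-- Gram numbers of a pair of functions on the reference triangle. -/
structure GN where
  P : ℝ
  Q : ℝ
  R : ℝ
  B11 : ℝ
  B12 : ℝ
  B22 : ℝ
  m1 : ℝ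
  m2 : ℝ

def GN.quad (g : GN) (c z1 z2 : ℝ) : ℝ :=
  c ^ 2 + 2 * c * (z1 * g.m1 + z2 * g.m2) + (g.B11 * z1 ^ 2 + 2 * g.B12 * z1 * z2 + g.B22 * z2 ^ 2)

noncomputable def GN.al (g : GN) (h t : ℝ) : ℝ := h * g.P + (g.Q - t * g.R + t * t * g.P) * h⁻¹

/-- The numbers `g` are the Gram numbers of the pair `u, v`. -/
structure Rep (g : GN) (u v : C1) : Prop where
  mass : ∀ h c z1 z2, Dq h u v c z1 z2 = h * g.quad c z1 z2
  en : ∀ h t, Nq h t u v 1 0 + Nq h t u v 0 1 = kk ^ 2 * g.al h t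
  P0 : 0 ≤ g.P
  C0 : ∀ t, 0 ≤ g.Q - t * g.R + t * t * g.P

theorem exists_weight {l u x : ℝ} (h1 : l ≤ x) (h2 : x ≤ u) :
    ∃ w, 0 ≤ w ∧ w ≤ 1 ∧ x = w * l + (1 - w) * u := by
  rcases eq_or_lt_of_le (h1.trans h2) with h | h
  · exact ⟨0, le_rfl, zero_le_one, by linarith⟩
  · have hp : 0 < u - l := by linarith
    refine ⟨(u - x) / (u - l), div_nonneg (by linarith) hp.le, ?_, ?_⟩
    · rw [div_le_one hp]; linarith
    · field_simp; ring

theorem al_le_t {g : GN} (hP : 0 ≤ g.P) {h t tl tu A : ℝ} (hh : 0 < h) (h1 : tl ≤ t) (h2 : t ≤ tu)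
    (a1 : g.al h tl ≤ A) (a2 : g.al h tu ≤ A) : g.al h t ≤ A := by
  obtain ⟨w, w0, w1, rfl⟩ := exists_weight h1 h2
  have w2 : 0 ≤ 1 - w := by linarith
  have e := mul_nonneg (mul_nonneg (mul_nonneg (mul_nonneg w0 w2) (sq_nonneg (tl - tu))) hP)
    (inv_pos.mpr hh).le
  have e1 := mul_le_mul_of_nonneg_left a1 w0
  have e2 := mul_le_mul_of_nonneg_left a2 w2
  have : g.al h (w * tl + (1 - w) * tu) = w * g.al h tl + (1 - w) * g.al h tu
      - w * (1 - w) * (tl - tu) ^ 2 * g.P * h⁻¹ := by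
    unfold GN.al; ring
  linarith

theorem al_convex {g : GN} {t hl hu w : ℝ} (hC : 0 ≤ g.Q - t * g.R + t * t * g.P) (h1 : 0 < hl)
    (h2 : 0 < hu) (w0 : 0 ≤ w) (w1 : w ≤ 1) :
    g.al (w * hl + (1 - w) * hu) t ≤ w * g.al hl t + (1 - w) * g.al hu t := by
  have w2 : 0 ≤ 1 - w := by linarith
  have hp : 0 < w * hl + (1 - w) * hu := by
    rcases eq_or_lt_of_le w0 with h | h
    · subst h; simpa using h2
    · nlinarith [mul_pos h h1, mul_nonneg w2 h2.le]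
  have key : (w * hl + (1 - w) * hu)⁻¹ ≤ w * hl⁻¹ + (1 - w) * hu⁻¹ := by
    rw [inv_le_iff_one_le_mul₀ hp]
    have : (w * hl⁻¹ + (1 - w) * hu⁻¹) * (w * hl + (1 - w) * hu)
        = 1 + w * (1 - w) * (hl - hu) ^ 2 * (hl⁻¹ * hu⁻¹) := by
      field_simp; ring
    rw [this]
    have := mul_nonneg (mul_nonneg (mul_nonneg w0 w2) (sq_nonneg (hl - hu)))
      (mul_pos (inv_pos.mpr h1) (inv_pos.mpr h2)).le
    linarith
  have := mul_le_mul_of_nonneg_left key hC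
  unfold GN.al
  linarith

theorem al_le_box {g : GN} {u v : C1} (r : Rep g u v) {hl hu tl tu t Al Au w : ℝ} (h1 : 0 < hl)
    (h2 : 0 < hu) (t1 : tl ≤ t) (t2 : t ≤ tu) (a1 : g.al hl tl ≤ Al) (a2 : g.al hl tu ≤ Al)
    (a3 : g.al hu tl ≤ Au) (a4 : g.al hu tu ≤ Au) (w0 : 0 ≤ w) (w1 : w ≤ 1) :
    g.al (w * hl + (1 - w) * hu) t ≤ w * Al + (1 - w) * Au := by
  have e1 := mul_le_mul_of_nonneg_left (al_le_t r.P0 h1 t1 t2 a1 a2) w0
  have e2 := mul_le_mul_of_nonneg_left (al_le_t r.P0 h2 t1 t2 a3 a4) (by linarith : 0 ≤ 1 - w)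
  linarith [al_convex (r.C0 t) h1 h2 w0 w1]

/-- The mass form at heights `h1, h2`. -/
def NB (g1 g2 : GN) (h1 h2 : ℝ) (c z1 z2 : ℝ) : ℝ := h1 * g1.quad c z1 z2 + h2 * g2.quad c z1 z2

theorem good_cell {g1 g2 : GN} {u1 v1 u2 v2 : C1} (r1 : Rep g1 u1 v1) (r2 : Rep g2 u2 v2)
    (hu : ∀ s, u1.f (s, 0) = u2.f (s, 0)) (hv : ∀ s, v1.f (s, 0) = v2.f (s, 0))
    {h1l h1u t1l t1u h2l h2u t2l t2u A1l A1u A2l A2u h1 t1 h2 t2 : ℝ}
    (p1 : 0 < h1l) (p1' : 0 < h1u) (p2 : 0 < h2l) (p2' : 0 < h2u)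
    (b1 : h1l ≤ h1) (b2 : h1 ≤ h1u) (b3 : t1l ≤ t1) (b4 : t1 ≤ t1u)
    (b5 : h2l ≤ h2) (b6 : h2 ≤ h2u) (b7 : t2l ≤ t2) (b8 : t2 ≤ t2u)
    (a1 : g1.al h1l t1l ≤ A1l) (a2 : g1.al h1l t1u ≤ A1l)
    (a3 : g1.al h1u t1l ≤ A1u) (a4 : g1.al h1u t1u ≤ A1u)
    (a5 : g2.al h2l t2l ≤ A2l) (a6 : g2.al h2l t2u ≤ A2l)
    (a7 : g2.al h2u t2l ≤ A2u) (a8 : g2.al h2u t2u ≤ A2u)
    (y1 : YOK (NB g1 g2 h1l h2l) ((A1l + A2l + (h1l + h2l)) / 2))
    (y2 : YOK (NB g1 g2 h1l h2u) ((A1l + A2u + (h1l + h2u)) / 2))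
    (y3 : YOK (NB g1 g2 h1u h2l) ((A1u + A2l + (h1u + h2l)) / 2))
    (y4 : YOK (NB g1 g2 h1u h2u) ((A1u + A2u + (h1u + h2u)) / 2)) :
    Good h1 t1 h2 t2 := by
  obtain ⟨w, w0, w1, rfl⟩ := exists_weight b1 b2
  obtain ⟨x, x0, x1, rfl⟩ := exists_weight b5 b6
  have e1 := al_le_box r1 p1 p1' b3 b4 a1 a2 a3 a4 w0 w1
  have e2 := al_le_box r2 p2 p2' b7 b8 a5 a6 a7 a8 x0 x1
  have y := (y1.interp y3 w0 w1).interp (y2.interp y4 w0 w1) x0 x1
  refine good_of_YOK (α := w * A1l + (1 - w) * A1u + (x * A2l + (1 - x) * A2u)) hu hv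
    (y.mono ?_ ?_) ?_
  · intro c z1 z2
    rw [r1.mass, r2.mass]
    unfold NB
    apply le_of_eq
    ring
  · apply le_of_eq
    ring
  · rw [r1.en, r2.en, ← mul_add]
    exact mul_le_mul_of_nonneg_left (add_le_add e1 e2) (sq_nonneg _)

theorem good_thin {g1 : GN} {u1 v1 u2 v2 : C1} (r1 : Rep g1 u1 v1)
    (hu : ∀ s, u1.f (s, 0) = u2.f (s, 0)) (hv : ∀ s, v1.f (s, 0) = v2.f (s, 0))
    {h1l h1u t1l t1u A1l A1u h1 t1 h2 t2 K e : ℝ}
    (p1 : 0 < h1l) (p1' : 0 < h1u) (p2 : 0 < h2) (p3 : h2 ≤ e) (hK : 0 ≤ K)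
    (b1 : h1l ≤ h1) (b2 : h1 ≤ h1u) (b3 : t1l ≤ t1) (b4 : t1 ≤ t1u)
    (a1 : g1.al h1l t1l ≤ A1l) (a2 : g1.al h1l t1u ≤ A1l)
    (a3 : g1.al h1u t1l ≤ A1u) (a4 : g1.al h1u t1u ≤ A1u)
    (a5 : Nq h2 t2 u2 v2 1 0 + Nq h2 t2 u2 v2 0 1 ≤ kk ^ 2 * (h2 * K))
    (y1 : YOK (fun c z1 z2 => h1l * g1.quad c z1 z2) ((A1l + h1l + e * (1 + K)) / 2))
    (y3 : YOK (fun c z1 z2 => h1u * g1.quad c z1 z2) ((A1u + h1u + e * (1 + K)) / 2)) :
    Good h1 t1 h2 t2 := by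
  obtain ⟨w, w0, w1, rfl⟩ := exists_weight b1 b2
  have e1 := al_le_box r1 p1 p1' b3 b4 a1 a2 a3 a4 w0 w1
  have y := y1.interp y3 w0 w1
  refine good_of_YOK (α := w * A1l + (1 - w) * A1u + h2 * K) hu hv (y.mono ?_ ?_) ?_
  · intro c z1 z2
    rw [r1.mass]
    have : 0 ≤ Dq h2 u2 v2 c z1 z2 := mul_nonneg p2.le (IT_nonneg fun p => sq_nonneg _)
    linarith
  · have := mul_le_mul_of_nonneg_right p3 (by linarith : 0 ≤ 1 + K)
    linarith
  · rw [r1.en, mul_add]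
    exact add_le_add (mul_le_mul_of_nonneg_left e1 (sq_nonneg _)) a5

/-- The linear function `a s + b v`. -/
noncomputable def linC1 (a b : ℝ) : C1 where
  f p := a * p.1 + b * p.2
  fs _ := a
  fn _ := b
  hd p := by
    have := ((hasFDerivAt_fst (𝕜 := ℝ) (p := p)).const_mul a).add
      ((hasFDerivAt_snd (𝕜 := ℝ) (p := p)).const_mul b)
    exact this
  cs := continuous_const
  cn := continuous_const

theorem good_lin {h1 t1 h2 t2 : ℝ} (p1 : 0 < h1) (p2 : 0 < h2)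
    (hL : 0 ≤ (h1 + h2) * (h1 + h2) * (12 * 1 - 108 * (yy ^ 2 * yy ^ 2)
      + (3 * (h1 + h2 - 6 * yy ^ 2) ^ 2 + (h1 - h2) ^ 2))
      + (4 * (h1 * t1 + h2 * t2) ^ 2 + 12 * (h1 * h2 * (t1 - t2) ^ 2))) :
    Good h1 t1 h2 t2 := by
  intro μ1 μ2 hμ1 hμ2 hP
  have hH : 0 < h1 + h2 := add_pos p1 p2
  have hD : ∀ h t k c z1 z2, Dq h (linC1 1 t) (linC1 0 k) c z1 z2
      = h * ((c + (t * z1 + k * z2) / 3) ^ 2 + z1 ^ 2 / 6 + (t * z1 + k * z2) ^ 2 / 18) := by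
    intro h t k c z1 z2
    rw [← IT_affine_sq]
    unfold Dq
    congr 2
    funext p
    simp only [linC1]
    ring
  have hN : ∀ h t k z1 z2, 0 < h → k ^ 2 = h ^ 2 →
      Nq h t (linC1 1 t) (linC1 0 k) z1 z2 = h * (z1 ^ 2 + z2 ^ 2) := by
    intro h t k z1 z2 hh hk
    rw [← IT_const (h * (z1 ^ 2 + z2 ^ 2))]
    unfold Nq
    congr 1
    funext p
    simp only [linC1]
    field_simp
    linear_combination z2 ^ 2 * hk
  set m11 := (h1 + h2) / 6 + (h1 * t1 ^ 2 + h2 * t2 ^ 2) / 18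
    + h1 * h2 * (t1 - t2) ^ 2 / (9 * (h1 + h2)) with hm11
  set m12 := (h1 ^ 2 * t1 - h2 ^ 2 * t2) / 18 + h1 * h2 * (t1 - t2) / 9 with hm12
  set m22 := (h1 ^ 3 + h2 ^ 3) / 18 + h1 * h2 * (h1 + h2) / 9 with hm22
  have hM : ∀ z1 z2, m11 * z1 ^ 2 + 2 * m12 * z1 * z2 + m22 * z2 ^ 2
      = (h1 + h2) * z1 ^ 2 / 6 + (h1 * (t1 * z1 + h1 * z2) ^ 2 + h2 * (t2 * z1 + -h2 * z2) ^ 2) / 18
        + h1 * h2 * ((t1 * z1 + h1 * z2) - (t2 * z1 + -h2 * z2)) ^ 2 / (9 * (h1 + h2)) := by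
    intro z1 z2
    rw [hm11, hm12, hm22]
    field_simp
    ring
  have hM0 : ∀ z1 z2, z1 ≠ 0 ∨ z2 ≠ 0 → 0 < m11 * z1 ^ 2 + 2 * m12 * z1 * z2 + m22 * z2 ^ 2 := by
    intro z1 z2 hz
    rw [hM]
    by_cases h : z1 = 0
    · have h' : z2 ≠ 0 := hz.resolve_left (by simpa using h)
      subst h
      simp only [mul_zero, zero_add]
      have : 0 < h1 * (h1 * z2) ^ 2 := by positivity
      positivity
    · positivity
  have hP' := hP (linC1 1 t1) (linC1 0 h1) (linC1 1 t2) (linC1 0 (-h2))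
    (fun s => by simp [linC1]) (fun s => by simp [linC1])
    (fun z1 z2 => m11 * z1 ^ 2 + 2 * m12 * z1 * z2 + m22 * z2 ^ 2) hM0 ?_
  · have := alg_L (H := h1 + h2) hμ1 hμ2 hH hM0 ?_ ?_
    · refine le_trans ?_ this
      rw [le_div_iff₀ hH]
      have e : m11 + m22 - (h1 + h2) * yy ^ 2 / 2 * (h1 + h2)
          = ((h1 + h2) * (h1 + h2) * (12 * 1 - 108 * (yy ^ 2 * yy ^ 2)
            + (3 * (h1 + h2 - 6 * yy ^ 2) ^ 2 + (h1 - h2) ^ 2))
            + (4 * (h1 * t1 + h2 * t2) ^ 2 + 12 * (h1 * h2 * (t1 - t2) ^ 2))) / (72 * (h1 + h2)) := by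
        rw [hm11, hm22]
        field_simp
        ring
      have := div_nonneg hL (by linarith : (0 : ℝ) ≤ 72 * (h1 + h2))
      linarith
    · intro z1 z2 hz
      have := hP'.1 z1 z2 hz
      rw [hN _ _ _ _ _ p1 rfl, hN _ _ _ _ _ p2 (by ring)] at this
      linarith
    · intro lam hl
      apply hP'.2
      intro z1 z2
      rw [hN _ _ _ _ _ p1 rfl, hN _ _ _ _ _ p2 (by ring)]
      linarith [hl z1 z2]
  · intro c z1 z2
    rw [hD, hD, hM]
    generalize t1 * z1 + h1 * z2 = β1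
    generalize t2 * z1 + -h2 * z2 = β2
    have : h1 * ((c + β1 / 3) ^ 2 + z1 ^ 2 / 6 + β1 ^ 2 / 18)
        + h2 * ((c + β2 / 3) ^ 2 + z1 ^ 2 / 6 + β2 ^ 2 / 18)
        - ((h1 + h2) * z1 ^ 2 / 6 + (h1 * β1 ^ 2 + h2 * β2 ^ 2) / 18
          + h1 * h2 * (β1 - β2) ^ 2 / (9 * (h1 + h2)))
        = (h1 * (c + β1 / 3) + h2 * (c + β2 / 3)) ^ 2 / (h1 + h2) := by
      field_simp
      ring
    have h0 : 0 ≤ (h1 * (c + β1 / 3) + h2 * (c + β2 / 3)) ^ 2 / (h1 + h2) := by positivity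
    linarith

theorem Good.swap {h1 t1 h2 t2 : ℝ} (h : Good h2 t2 h1 t1) : Good h1 t1 h2 t2 := by
  intro μ1 μ2 hμ1 hμ2 hP
  rw [add_comm h1 h2]
  apply h μ1 μ2 hμ1 hμ2
  intro u1 v1 u2 v2 hu hv M hM hD
  have := hP u2 v2 u1 v1 (fun s => (hu s).symm) (fun s => (hv s).symm) M hM
    (fun c z1 z2 => by rw [add_comm]; exact hD c z1 z2)
  refine ⟨fun z1 z2 hz => by rw [add_comm]; exact this.1 z1 z2 hz, fun lam hl => this.2 lam ?_⟩
  intro z1 z2
  rw [add_comm]; exact hl z1 z2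

/-- Reflection in the axis of the reference triangle. -/
noncomputable def C1.refl (u : C1) : C1 where
  f p := u.f (-p.1, p.2)
  fs p := -u.fs (-p.1, p.2)
  fn p := u.fn (-p.1, p.2)
  hd p := by
    have h1 : HasFDerivAt (fun p : ℝ × ℝ => (-p.1, p.2))
        ((-ContinuousLinearMap.fst ℝ ℝ ℝ).prod (ContinuousLinearMap.snd ℝ ℝ ℝ)) p :=
      (hasFDerivAt_fst.neg).prodMk hasFDerivAt_snd
    have h2 := (u.hd (-p.1, p.2)).comp p h1
    refine HasFDerivAt.congr_fderiv h2 ?_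
    ext <;> simp
  cs := by fun_prop
  cn := by fun_prop

theorem Dq_refl (h : ℝ) (u v : C1) (c z1 z2 : ℝ) :
    Dq h u.refl v.refl c z1 z2 = Dq h u v c z1 z2 := by
  unfold Dq
  rw [← IT_reflect (F := fun p => (c + z1 * u.f p + z2 * v.f p) ^ 2) (by fun_prop)]
  rfl

theorem Nq_refl (h t : ℝ) (u v : C1) (z1 z2 : ℝ) :
    Nq h t u.refl v.refl z1 z2 = Nq h (-t) u v z1 z2 := by
  unfold Nq
  rw [← IT_reflect (F := fun p => h * (z1 * u.fs p + z2 * v.fs p) ^ 2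
    + h⁻¹ * ((z1 * u.fn p + z2 * v.fn p) - -t * (z1 * u.fs p + z2 * v.fs p)) ^ 2) (by fun_prop)]
  congr 1
  funext p
  simp only [C1.refl]
  ring

theorem Good.refl {h1 t1 h2 t2 : ℝ} (h : Good h1 (-t1) h2 (-t2)) : Good h1 t1 h2 t2 := by
  intro μ1 μ2 hμ1 hμ2 hP
  apply h μ1 μ2 hμ1 hμ2
  intro u1 v1 u2 v2 hu hv M hM hD
  have := hP u1.refl v1.refl u2.refl v2.refl (fun s => hu (-s)) (fun s => hv (-s)) M hM
    (fun c z1 z2 => by rw [Dq_refl, Dq_refl]; exact hD c z1 z2)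
  simpa only [Nq_refl] using this

theorem V3.hd (x : V3) (v : ℝ) : HasDerivAt x.ev (kk * x.dn.ev v) v := by
  have := (((hd_sin v).const_mul x.b).const_add x.a).add ((hd_cos v).const_mul x.c)
  refine HasDerivAt.congr_deriv this ?_
  simp only [V3.ev, V3.dn]
  ring

/-- A function of the dictionary with its derivatives. -/
noncomputable def RF.c1 (u : RF) : C1 where
  f := u.ev
  fs p := kk * u.ds.ev p
  fn p := kk * u.dn.ev p
  hd p := by
    have a0 := (u.r0.hd p.2).comp_hasFDerivAt p (hasFDerivAt_snd (𝕜 := ℝ) (p := p))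
    have a1 := (u.r1.hd p.2).comp_hasFDerivAt p (hasFDerivAt_snd (𝕜 := ℝ) (p := p))
    have a2 := (u.r2.hd p.2).comp_hasFDerivAt p (hasFDerivAt_snd (𝕜 := ℝ) (p := p))
    have b1 := (hd_sin p.1).comp_hasFDerivAt p (hasFDerivAt_fst (𝕜 := ℝ) (p := p))
    have b2 := (hd_cos p.1).comp_hasFDerivAt p (hasFDerivAt_fst (𝕜 := ℝ) (p := p))
    have := (a0.add (a1.mul b1)).add (a2.mul b2)
    refine HasFDerivAt.congr_fderiv this ?_
    ext <;> simp [RF.ev, RF.ds, RF.dn, V3.ev, V3.neg] <;> ring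
  cs := by fun_prop
  cn := by fun_prop

def rE0 : RF := ⟨⟨1, 0, 0⟩, ⟨0, 0, 0⟩, ⟨0, 0, 0⟩⟩

/-- Gram numbers of a pair of dictionary functions. -/
noncomputable def gramR (u v : RF) : GN :=
  ⟨BR u.ds u.ds + BR v.ds v.ds, BR u.dn u.dn + BR v.dn v.dn, 2 * (BR u.ds u.dn + BR v.ds v.dn),
    BR u u, BR u v, BR v v, BR u rE0, BR v rE0⟩

theorem IT_comb6 (a1 a2 a3 a4 a5 a6 : ℝ) {F1 F2 F3 F4 F5 F6 : ℝ × ℝ → ℝ} (c1 : Continuous F1)
    (c2 : Continuous F2) (c3 : Continuous F3) (c4 : Continuous F4) (c5 : Continuous F5)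
    (c6 : Continuous F6) :
    IT (fun p => a1 * F1 p + a2 * F2 p + a3 * F3 p + a4 * F4 p + a5 * F5 p + a6 * F6 p)
      = a1 * IT F1 + a2 * IT F2 + a3 * IT F3 + a4 * IT F4 + a5 * IT F5 + a6 * IT F6 := by
  rw [IT_add, IT_add, IT_add, IT_add, IT_add, IT_cmul, IT_cmul, IT_cmul, IT_cmul, IT_cmul, IT_cmul]
  all_goals fun_prop

theorem IT_en (u v : RF) (a b t : ℝ) :
    IT (fun p => a * (u.ds.ev p ^ 2 + v.ds.ev p ^ 2)
      + b * ((u.dn.ev p - t * u.ds.ev p) ^ 2 + (v.dn.ev p - t * v.ds.ev p) ^ 2))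
    = a * (gramR u v).P + b * ((gramR u v).Q - t * (gramR u v).R + t * t * (gramR u v).P) := by
  have := IT_comb6 (a + b * t ^ 2) (a + b * t ^ 2) b b (-2 * b * t) (-2 * b * t)
    (F1 := fun p => u.ds.ev p * u.ds.ev p) (F2 := fun p => v.ds.ev p * v.ds.ev p)
    (F3 := fun p => u.dn.ev p * u.dn.ev p) (F4 := fun p => v.dn.ev p * v.dn.ev p)
    (F5 := fun p => u.ds.ev p * u.dn.ev p) (F6 := fun p => v.ds.ev p * v.dn.ev p)
    (by fun_prop) (by fun_prop) (by fun_prop) (by fun_prop) (by fun_prop) (by fun_prop)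
  simp only [IT_ev_mul] at this
  simp only [gramR]
  refine Eq.trans ?_ (this.trans (by ring))
  congr 1
  funext p
  ring

theorem rep_gramR (u v : RF) : Rep (gramR u v) u.c1 v.c1 where
  mass h c z1 z2 := by
    have he : ∀ p, rE0.ev p = 1 := by intro p; simp [rE0, RF.ev, V3.ev]
    have := IT_comb6 (c ^ 2) (2 * c * z1) (2 * c * z2) (z1 ^ 2) (2 * z1 * z2) (z2 ^ 2)
      (F1 := fun _ => 1) (F2 := fun p => u.ev p * rE0.ev p) (F3 := fun p => v.ev p * rE0.ev p)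
      (F4 := fun p => u.ev p * u.ev p) (F5 := fun p => u.ev p * v.ev p)
      (F6 := fun p => v.ev p * v.ev p)
      (by fun_prop) (by fun_prop) (by fun_prop) (by fun_prop) (by fun_prop) (by fun_prop)
    simp only [IT_ev_mul, IT_const] at this
    unfold Dq
    congr 1
    simp only [gramR, GN.quad]
    refine Eq.trans ?_ (this.trans (by ring))
    congr 1
    funext p
    simp only [RF.c1, he]
    ring
  en h t := by
    have := IT_en u v (kk ^ 2 * h) (kk ^ 2 * h⁻¹) t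
    unfold Nq GN.al
    rw [← IT_add (by fun_prop) (by fun_prop)]
    refine Eq.trans ?_ (this.trans (by ring))
    congr 1
    funext p
    simp only [RF.c1]
    ring
  P0 := by
    have := IT_en u v 1 0 0
    simp only [one_mul, zero_mul, add_zero] at this
    rw [← this]
    exact IT_nonneg fun p => by positivity
  C0 t := by
    have := IT_en u v 0 1 t
    simp only [one_mul, zero_mul, zero_add] at this
    rw [← this]
    exact IT_nonneg fun p => by positivity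

/-- The function `a1 sin (k x) + a2 cos (k x)` of the coordinate `x = s + t v`. -/
noncomputable def thinC1 (a1 a2 t : ℝ) : C1 where
  f p := a1 * Real.sin (kk * (p.1 + t * p.2)) + a2 * Real.cos (kk * (p.1 + t * p.2))
  fs p := kk * (a1 * Real.cos (kk * (p.1 + t * p.2)) - a2 * Real.sin (kk * (p.1 + t * p.2)))
  fn p := t * (kk * (a1 * Real.cos (kk * (p.1 + t * p.2)) - a2 * Real.sin (kk * (p.1 + t * p.2))))
  hd p := by
    have h0 := (hasFDerivAt_fst (𝕜 := ℝ) (p := p)).add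
      ((hasFDerivAt_snd (𝕜 := ℝ) (p := p)).const_mul t)
    have h1 := (((hd_sin (p.1 + t * p.2)).const_mul a1).add
      ((hd_cos (p.1 + t * p.2)).const_mul a2)).comp_hasFDerivAt p h0
    refine HasFDerivAt.congr_fderiv h1 ?_
    ext <;> simp <;> ring
  cs := by fun_prop
  cn := by fun_prop

theorem thin_energy (a1 a2 b1 b2 : ℝ) {h : ℝ} (t : ℝ) (hh : 0 < h) :
    Nq h t (thinC1 a1 a2 t) (thinC1 b1 b2 t) 1 0 + Nq h t (thinC1 a1 a2 t) (thinC1 b1 b2 t) 0 1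
      ≤ kk ^ 2 * (h * (a1 * a1 + a2 * a2 + (b1 * b1 + b2 * b2))) := by
  rw [← IT_const (kk ^ 2 * (h * (a1 * a1 + a2 * a2 + (b1 * b1 + b2 * b2))))]
  unfold Nq
  rw [← IT_add (by fun_prop) (by fun_prop)]
  apply IT_mono (by fun_prop) (by fun_prop)
  intro p
  simp only [thinC1]
  have h2 := Real.sin_sq_add_cos_sq (kk * (p.1 + t * p.2))
  generalize Real.sin (kk * (p.1 + t * p.2)) = s at *
  generalize Real.cos (kk * (p.1 + t * p.2)) = c at *
  have e1 : (a1 * c - a2 * s) ^ 2 ≤ a1 * a1 + a2 * a2 := by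
    nlinarith [sq_nonneg (a1 * s + a2 * c)]
  have e2 : (b1 * c - b2 * s) ^ 2 ≤ b1 * b1 + b2 * b2 := by
    nlinarith [sq_nonneg (b1 * s + b2 * c)]
  have := mul_le_mul_of_nonneg_left (add_le_add e1 e2) (mul_nonneg (sq_nonneg kk) hh.le)
  refine le_trans (le_of_eq ?_) (this.trans (le_of_eq ?_)) <;> ring

end Pool.Agent.MP_da42b8_an

end MrgPart3

-- marker of a merged file
example : 731051 + 519571 = 731051 + 519571 := rfl
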