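import Mathlib.Analysis.Calculus.Deriv.Prod
import Mathlib.Analysis.InnerProductSpace.Dual
import Mathlib.LinearAlgebra.AffineSpace.FiniteDimensional
import Mathlib.Analysis.SpecialFunctions.SmoothTransition
import Mathlib.Combinatorics.SimpleGraph.Basic
import Mathlib.Analysis.SpecialFunctions.PolarCoord
import Mathlib.Order.CompletePartialOrder
import Pool.Agent.MP_da42b8_an.Cell

-- ======== part 0: formerly Pool.Agent.MP_da42b8_an.MinMax
section MrgPart0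

/-!
The min-max values: upper bounds from test families, lower bounds from a Poincare inequality.
-/

set_option autoImplicit false

namespace Pool.Agent.MP_da42b8_an

open MeasureTheory Set

/-- The Euclidean plane. -/
abbrev E2 := EuclideanSpace ℝ (Fin 2)

/-- The min-max values. -/
noncomputable def mu (k : ℕ) (Ω : Set E2) : ℝ :=
  sInf {r : ℝ | ∃ f : Fin (k + 1) → EuclideanSpace ℝ (Fin 2) → ℝ,
    (∀ i, ContDiff ℝ 1 (f i)) ∧
    (∀ t : Fin (k + 1) → ℝ, t ≠ 0 → 0 < ∫ x in Ω, (∑ i, t i * f i x) ^ 2) ∧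
    r = sSup {q : ℝ | ∃ t : Fin (k + 1) → ℝ, t ≠ 0 ∧
      q = (∫ x in Ω, ‖fderiv ℝ (fun y => ∑ i, t i * f i y) x‖ ^ 2) /
          (∫ x in Ω, (∑ i, t i * f i x) ^ 2)}}

theorem mu_le {k : ℕ} {Ω : Set E2} (f : Fin (k + 1) → E2 → ℝ) (hf : ∀ i, ContDiff ℝ 1 (f i))
    (hpos : ∀ t : Fin (k + 1) → ℝ, t ≠ 0 → 0 < ∫ x in Ω, (∑ i, t i * f i x) ^ 2) {lam : ℝ}
    (hl : ∀ t : Fin (k + 1) → ℝ, t ≠ 0 →
      ∫ x in Ω, ‖fderiv ℝ (fun y => ∑ i, t i * f i y) x‖ ^ 2
        ≤ lam * ∫ x in Ω, (∑ i, t i * f i x) ^ 2) : mu k Ω ≤ lam := by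
  unfold mu
  refine le_trans (csInf_le ⟨0, ?_⟩ ⟨f, hf, hpos, rfl⟩) ?_
  · rintro r ⟨g, -, -, rfl⟩
    apply Real.sSup_nonneg
    rintro q ⟨t, -, rfl⟩
    exact div_nonneg (integral_nonneg fun x => sq_nonneg _) (integral_nonneg fun x => sq_nonneg _)
  · refine csSup_le ⟨_, fun _ => 1, ?_, rfl⟩ ?_
    · intro h
      exact one_ne_zero (congrFun h 0)
    · rintro q ⟨t, ht, rfl⟩
      rw [div_le_iff₀ (hpos t ht)]
      exact hl t ht

theorem integrableOn_of_bounded {Ω : Set E2} (hb : Bornology.IsBounded Ω) {F : E2 → ℝ}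
    (hF : Continuous F) : IntegrableOn F Ω :=
  (hF.continuousOn.integrableOn_compact hb.isCompact_closure).mono_set subset_closure

theorem continuous_param {Ω : Set E2} (hb : Bornology.IsBounded Ω) (hm : MeasurableSet Ω)
    {X : Type*} [TopologicalSpace X] [FirstCountableTopology X] [LocallyCompactSpace X]
    {F : X → E2 → ℝ} (hF : Continuous F.uncurry) : Continuous fun t => ∫ x in Ω, F t x := by
  have := continuous_parametric_integral_of_continuous (μ := volume.restrict Ω) hF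
    hb.isCompact_closure
  rwa [Measure.restrict_restrict' hm, inter_eq_right.mpr subset_closure] at this

theorem fderiv_comb {k : ℕ} {f : Fin (k + 1) → E2 → ℝ} (hf : ∀ i, ContDiff ℝ 1 (f i))
    (t : Fin (k + 1) → ℝ) (x : E2) :
    fderiv ℝ (fun y => ∑ i, t i * f i y) x = ∑ i, t i • fderiv ℝ (f i) x := by
  have : HasFDerivAt (fun y => ∑ i, t i * f i y) (∑ i, t i • fderiv ℝ (f i) x) x :=
    HasFDerivAt.fun_sum fun i _ =>
      ((hf i).differentiable one_ne_zero x).hasFDerivAt.const_mul (t i)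
  exact this.fderiv

theorem le_mu {k : ℕ} (hk : 1 ≤ k) {Ω : Set E2} (hb : Bornology.IsBounded Ω)
    (hm : MeasurableSet Ω) {c : ℝ}
    (hP : ∀ g : E2 → ℝ, ContDiff ℝ 1 g → ∫ x in Ω, g x = 0 →
      c * ∫ x in Ω, g x ^ 2 ≤ ∫ x in Ω, ‖fderiv ℝ g x‖ ^ 2)
    (f0 : Fin (k + 1) → E2 → ℝ) (hf0 : ∀ i, ContDiff ℝ 1 (f0 i))
    (hpos0 : ∀ t : Fin (k + 1) → ℝ, t ≠ 0 → 0 < ∫ x in Ω, (∑ i, t i * f0 i x) ^ 2) :
    c ≤ mu k Ω := by
  unfold mu
  refine le_csInf ⟨_, f0, hf0, hpos0, rfl⟩ ?_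
  rintro r ⟨f, hf, hpos, rfl⟩
  have hc : ∀ i, Continuous (f i) := fun i => (hf i).continuous
  have hc' : ∀ i, Continuous (fderiv ℝ (f i)) := fun i => (hf i).continuous_fderiv one_ne_zero
  obtain ⟨t, ht0, ht⟩ : ∃ t : Fin (k + 1) → ℝ, t ≠ 0 ∧ ∑ i, t i * ∫ x in Ω, f i x = 0 := by
    let L : (Fin (k + 1) → ℝ) →ₗ[ℝ] ℝ :=
      Fintype.linearCombination ℝ (fun i => ∫ x in Ω, f i x)
    have : LinearMap.ker L ≠ ⊥ := L.ker_ne_bot_of_finrank_lt (by simp; omega)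
    obtain ⟨t, ht, ht0⟩ := Submodule.exists_mem_ne_zero_of_ne_bot this
    exact ⟨t, ht0, by simpa [L, Fintype.linearCombination_apply] using ht⟩
  refine le_csSup_of_le ?_ ⟨t, ht0, rfl⟩ ?_
  · let D : (Fin (k + 1) → ℝ) → ℝ := fun t => ∫ x in Ω, (∑ i, t i * f i x) ^ 2
    let N : (Fin (k + 1) → ℝ) → ℝ := fun t => ∫ x in Ω, ‖∑ i, t i • fderiv ℝ (f i) x‖ ^ 2
    have cD : Continuous D := continuous_param hb hm (by fun_prop)
    have cN : Continuous N := continuous_param hb hm (by fun_prop)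
    have hne : ∀ s ∈ Metric.sphere (0 : Fin (k + 1) → ℝ) 1, s ≠ 0 := by
      intro s hs h
      rw [h] at hs
      simp at hs
    have cq : ContinuousOn (fun s => N s / D s) (Metric.sphere 0 1) :=
      cN.continuousOn.div cD.continuousOn fun s hs => (hpos s (hne s hs)).ne'
    obtain ⟨K, hK⟩ := (isCompact_sphere (0 : Fin (k + 1) → ℝ) 1).bddAbove_image cq
    refine ⟨K, ?_⟩
    rintro q ⟨t, ht, rfl⟩
    have hn : 0 < ‖t‖ := norm_pos_iff.mpr ht
    have hs : ‖t‖⁻¹ • t ∈ Metric.sphere (0 : Fin (k + 1) → ℝ) 1 := by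
      simp [norm_smul, hn.ne']
    refine le_trans (le_of_eq ?_) (hK ⟨_, hs, rfl⟩)
    have e1 : D (‖t‖⁻¹ • t) = ‖t‖⁻¹ ^ 2 * D t := by
      simp only [D, ← integral_const_mul, Pi.smul_apply, smul_eq_mul, mul_assoc, ← Finset.mul_sum,
        mul_pow]
    have e2 : N (‖t‖⁻¹ • t) = ‖t‖⁻¹ ^ 2 * N t := by
      simp only [N, ← integral_const_mul, Pi.smul_apply, smul_eq_mul, mul_smul, ← Finset.smul_sum,
        norm_smul, mul_pow, Real.norm_eq_abs, sq_abs]
    simp only [fderiv_comb hf, e1, e2]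
    rw [mul_div_mul_left _ _ (by positivity)]
  · rw [le_div_iff₀ (hpos t ht0)]
    apply hP
    · exact ContDiff.sum fun i _ => contDiff_const.mul (hf i)
    · rw [integral_finsetSum _ fun i _ => (integrableOn_of_bounded hb (hc i)).const_mul _]
      simpa only [integral_const_mul] using ht

theorem norm_sq_dual (L : E2 →L[ℝ] ℝ) :
    ‖L‖ ^ 2 = L (EuclideanSpace.single 0 1) ^ 2 + L (EuclideanSpace.single 1 1) ^ 2 := by
  rw [(EuclideanSpace.basisFun (Fin 2) ℝ).norm_dual L]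
  simp

end Pool.Agent.MP_da42b8_an

end MrgPart0

-- ======== part 1: formerly Pool.Agent.MP_da42b8_an.Geo
section MrgPart1

/-!
Plane geometry of a simple quadrilateral: an interior diagonal and the region it bounds.
-/

set_option autoImplicit false

namespace Pool.Agent.MP_da42b8_an

open MeasureTheory Set Filter Topology

/-- The determinant of two plane vectors. -/
def det2 (e w : E2) : ℝ := e 0 * w 1 - w 0 * e 1

theorem det_ne_of_not_collinear {p q r : E2} (h : ¬ Collinear ℝ {p, q, r}) :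
    det2 (q - p) (r - p) ≠ 0 := by
  intro hd
  apply h
  rw [collinear_iff_of_mem (p₀ := p) (by simp)]
  simp only [det2, PiLp.sub_apply] at hd
  by_cases hq : q = p
  · refine ⟨r - p, ?_⟩
    rintro x (rfl | rfl | rfl)
    · exact ⟨0, by simp⟩
    · exact ⟨0, by simp [hq]⟩
    · exact ⟨1, by simp⟩
  · have hn : (q 0 - p 0) ^ 2 + (q 1 - p 1) ^ 2 ≠ 0 := by
      intro h0
      apply hq
      ext i
      fin_cases i
      · change q 0 = p 0
        nlinarith [sq_nonneg (q 0 - p 0), sq_nonneg (q 1 - p 1)]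
      · change q 1 = p 1
        nlinarith [sq_nonneg (q 0 - p 0), sq_nonneg (q 1 - p 1)]
    refine ⟨q - p, ?_⟩
    rintro x (rfl | rfl | rfl)
    · exact ⟨0, by simp⟩
    · exact ⟨1, by simp⟩
    · refine ⟨((x 0 - p 0) * (q 0 - p 0) + (x 1 - p 1) * (q 1 - p 1))
        / ((q 0 - p 0) ^ 2 + (q 1 - p 1) ^ 2), ?_⟩
      ext i
      fin_cases i
      · simp only [Fin.zero_eta, vadd_eq_add, PiLp.add_apply, PiLp.smul_apply, PiLp.sub_apply,
          smul_eq_mul]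
        field_simp
        linear_combination (-(q 1 - p 1)) * hd
      · simp only [Fin.mk_one, vadd_eq_add, PiLp.add_apply, PiLp.smul_apply, PiLp.sub_apply,
          smul_eq_mul]
        field_simp
        linear_combination (q 0 - p 0) * hd

theorem not_disjoint_seg {p q r s : E2} {x y z w : ℝ} (hx : 0 < x) (hy : 0 < y) (hz : 0 < z)
    (hw : 0 < w) (hs : x + y = z + w) (h0 : x * p 0 + y * q 0 = z * r 0 + w * s 0)
    (h1 : x * p 1 + y * q 1 = z * r 1 + w * s 1) :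
    ¬ Disjoint (segment ℝ p q) (segment ℝ r s) := by
  rw [Set.not_disjoint_iff]
  have hp : 0 < x + y := by linarith
  refine ⟨(x / (x + y)) • p + (y / (x + y)) • q,
    ⟨_, _, by positivity, by positivity, by field_simp, rfl⟩,
    ⟨z / (x + y), w / (x + y), by positivity, by positivity, by rw [hs]; field_simp, ?_⟩⟩
  ext i
  fin_cases i
  · simp only [Fin.zero_eta, PiLp.add_apply, PiLp.smul_apply, smul_eq_mul]
    field_simp
    linarith
  · simp only [Fin.mk_one, PiLp.add_apply, PiLp.smul_apply, smul_eq_mul]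
    field_simp
    linarith

theorem exists_diagonal {a b c d : E2} (h1 : ¬ Collinear ℝ {a, b, c})
    (h2 : ¬ Collinear ℝ {b, c, d}) (h3 : ¬ Collinear ℝ {c, d, a}) (h4 : ¬ Collinear ℝ {d, a, b})
    (s1 : Disjoint (segment ℝ a b) (segment ℝ c d))
    (s2 : Disjoint (segment ℝ b c) (segment ℝ d a)) :
    det2 (c - a) (b - a) * det2 (c - a) (d - a) < 0 ∨
      det2 (d - b) (c - b) * det2 (d - b) (a - b) < 0 := by
  have n1 := det_ne_of_not_collinear h1
  have n2 := det_ne_of_not_collinear h2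
  have n3 := det_ne_of_not_collinear h3
  have n4 := det_ne_of_not_collinear h4
  simp only [det2, PiLp.sub_apply] at *
  set A := (c 0 - a 0) * (b 1 - a 1) - (b 0 - a 0) * (c 1 - a 1) with hA
  set B := (c 0 - a 0) * (d 1 - a 1) - (d 0 - a 0) * (c 1 - a 1) with hB
  set C := (d 0 - b 0) * (c 1 - b 1) - (c 0 - b 0) * (d 1 - b 1) with hC
  set D := (d 0 - b 0) * (a 1 - b 1) - (a 0 - b 0) * (d 1 - b 1) with hD
  have mA : A ≠ 0 := fun h => n1 (by linear_combination -h)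
  have mB : B ≠ 0 := fun h => n3 (by linear_combination h)
  have mC : C ≠ 0 := fun h => n2 (by linear_combination -h)
  have mD : D ≠ 0 := fun h => n4 (by linear_combination h)
  have e : C + B = D + A := by rw [hA, hB, hC, hD]; ring
  have e0 : C * a 0 + B * b 0 = D * c 0 + A * d 0 := by rw [hA, hB, hC, hD]; ring
  have e1 : C * a 1 + B * b 1 = D * c 1 + A * d 1 := by rw [hA, hB, hC, hD]; ring
  clear_value A B C D
  by_contra hc
  push Not at hc
  have hAB : 0 < A * B := lt_of_le_of_ne hc.1 (mul_ne_zero mA mB).symm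
  have hCD : 0 < C * D := lt_of_le_of_ne hc.2 (mul_ne_zero mC mD).symm
  rcases pos_and_pos_or_neg_and_neg_of_mul_pos hAB with ⟨pA, pB⟩ | ⟨pA, pB⟩ <;>
    rcases pos_and_pos_or_neg_and_neg_of_mul_pos hCD with ⟨pC, pD⟩ | ⟨pC, pD⟩
  · exact not_disjoint_seg pC pB pD pA e e0 e1 s1
  · exact not_disjoint_seg pB (neg_pos.mpr pD) pA (neg_pos.mpr pC) (by linarith) (by linarith)
      (by linarith) s2
  · exact not_disjoint_seg (neg_pos.mpr pB) pD (neg_pos.mpr pA) pC (by linarith) (by linarith)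
      (by linarith) s2
  · exact not_disjoint_seg (neg_pos.mpr pC) (neg_pos.mpr pB) (neg_pos.mpr pD) (neg_pos.mpr pA)
      (by linarith) (by linarith) (by linarith) s1

theorem star_eq {E : Type*} [NormedAddCommGroup E] [NormedSpace ℝ E] {ρ : E → ℝ}
    (hρ : ∀ (t : ℝ) p, 0 ≤ t → ρ (t • p) = t * ρ p) {Ω : Set E} (ho : IsOpen Ω)
    (hb : Bornology.IsBounded Ω) (hne : Ω.Nonempty) (hf : ∀ p ∈ frontier Ω, ρ p = 1) :
    Ω = {p | ρ p < 1} := by
  have key : ∀ s : Set E, IsPreconnected s → (s ∩ Ω).Nonempty → (∀ p ∈ s, ρ p ≠ 1) → s ⊆ Ω := by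
    intro s hs hn h1
    refine hs.subset_of_closure_inter_subset ho hn ?_
    rintro p ⟨hp, hps⟩
    by_contra hc
    exact h1 p hps (hf p (by rw [ho.frontier_eq]; exact ⟨hp, hc⟩))
  have h0 : ρ 0 = 0 := by simpa using hρ 0 0 le_rfl
  have big : ∀ p ∈ Ω, ¬ 1 < ρ p := by
    intro p hp h1
    have hp0 : p ≠ 0 := by
      rintro rfl
      linarith
    have hs : (fun t : ℝ => t • p) '' Ici 1 ⊆ Ω := by
      refine key _ (isPreconnected_Ici.image _ (by fun_prop)) 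
        ⟨p, ⟨1, mem_Ici.mpr le_rfl, one_smul _ _⟩, hp⟩ ?_
      rintro q ⟨t, ht, rfl⟩
      have ht1 : (1 : ℝ) ≤ t := ht
      rw [hρ t p (by linarith)]
      nlinarith
    obtain ⟨R, hR⟩ := hb.exists_norm_le
    have hn : 0 < ‖p‖ := norm_pos_iff.mpr hp0
    have h2 := hR p hp
    have h3 := hR _ (hs ⟨R / ‖p‖ + 1, by
      have : 0 ≤ R / ‖p‖ := div_nonneg (by linarith) hn.le
      simpa using this, rfl⟩)
    simp only [norm_smul, Real.norm_eq_abs] at h3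
    rw [abs_of_nonneg (by have : 0 ≤ R / ‖p‖ := div_nonneg (by linarith) hn.le; linarith),
      add_mul, div_mul_cancel₀ _ hn.ne'] at h3
    linarith
  have sub : Ω ⊆ {p | ρ p < 1} := by
    intro p hp
    rcases lt_trichotomy (ρ p) 1 with h | h | h
    · exact h
    · exfalso
      have c1 : ContinuousAt (fun t : ℝ => t • p) 1 := by fun_prop
      have c2 : ∀ᶠ t : ℝ in 𝓝 1, t • p ∈ Ω := c1.eventually (ho.mem_nhds (by simpa using hp))
      obtain ⟨t, ht, ht1⟩ := ((c2.filter_mono nhdsWithin_le_nhds).and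
        (self_mem_nhdsWithin (s := Ioi (1 : ℝ)))).exists
      have ht2 : (1 : ℝ) < t := ht1
      apply big _ ht
      rw [hρ t p (by linarith), h]
      linarith
    · exact absurd h (big p hp)
  refine Subset.antisymm sub (key _ ?_ ?_ fun p hp => ne_of_lt hp)
  · refine (StarConvex.isPathConnected (a := 0) ?_ (by simp [h0])).isConnected.isPreconnected
    intro p hp s t hs ht hst
    simp only [mem_ofPred_eq, smul_zero, zero_add] at hp ⊢
    rw [hρ t p ht]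
    rcases eq_or_lt_of_le ht with rfl | ht'
    · simp
    · nlinarith
  · obtain ⟨p, hp⟩ := hne
    exact ⟨p, sub hp, hp⟩

/-- The gauge of the reference quadrilateral. -/
noncomputable def gau (α β : ℝ) (p : ℝ × ℝ) : ℝ :=
  if 0 ≤ p.2 then |p.1| + p.2 else |p.1 - α * (p.2 / β)| + p.2 / β

theorem gau_smul (α β t : ℝ) (p : ℝ × ℝ) (ht : 0 ≤ t) : gau α β (t • p) = t * gau α β p := by
  rcases eq_or_lt_of_le ht with rfl | ht
  · simp [gau]
  unfold gau
  simp only [Prod.smul_snd, Prod.smul_fst, smul_eq_mul, mul_nonneg_iff_of_pos_left ht]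
  split_ifs
  · rw [abs_mul, abs_of_pos ht]; ring
  · rw [show t * p.1 - α * (t * p.2 / β) = t * (p.1 - α * (p.2 / β)) by ring, abs_mul, abs_of_pos ht]
    ring

theorem gau_up (α β s : ℝ) {n : ℝ} (hn : 0 ≤ n) : gau α β (s, n) = |s| + n := if_pos hn

theorem gau_down (α : ℝ) {β : ℝ} (hβ : β < 0) (s : ℝ) {n : ℝ} (hn : 0 ≤ n) :
    gau α β (s + α * n, β * n) = |s| + n := by
  rcases eq_or_lt_of_le hn with rfl | hn
  · simp [gau]
  unfold gau
  rw [if_neg (not_le.mpr (mul_neg_of_neg_of_pos hβ hn))]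
  simp only [mul_div_cancel_left₀ n hβ.ne]
  ring_nf

end Pool.Agent.MP_da42b8_an

end MrgPart1

-- ======== part 2: formerly Pool.Agent.MP_da42b8_an.Smooth
section MrgPart2

/-!
Smoothing a pair of test functions glued along the common side of the two triangles.
-/

set_option autoImplicit false

namespace Pool.Agent.MP_da42b8_an

open MeasureTheory Set Filter Topology

/-- Composition with the shear `(s, n) ↦ (s + α n, β n)`. -/
noncomputable def C1.comp (u : C1) (α β : ℝ) : C1 where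
  f p := u.f (p.1 + α * p.2, β * p.2)
  fs p := u.fs (p.1 + α * p.2, β * p.2)
  fn p := α * u.fs (p.1 + α * p.2, β * p.2) + β * u.fn (p.1 + α * p.2, β * p.2)
  hd p := by
    have h1 : HasFDerivAt (fun p : ℝ × ℝ => (p.1 + α * p.2, β * p.2))
        ((ContinuousLinearMap.fst ℝ ℝ ℝ + α • ContinuousLinearMap.snd ℝ ℝ ℝ).prod
          (β • ContinuousLinearMap.snd ℝ ℝ ℝ)) p :=
      (hasFDerivAt_fst.add (hasFDerivAt_snd.const_mul α)).prodMk (hasFDerivAt_snd.const_mul β)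
    have h2 := (u.hd (p.1 + α * p.2, β * p.2)).comp p h1
    refine HasFDerivAt.congr_fderiv h2 ?_
    ext <;> simp
    ring
  cs := by fun_prop
  cn := by fun_prop

/-- The cutoff. -/
noncomputable def chi : ℝ → ℝ := Real.smoothTransition

theorem chi_cd : ContDiff ℝ 1 chi := Real.smoothTransition.contDiff

@[fun_prop] theorem chi_cont : Continuous chi := chi_cd.continuous
@[fun_prop] theorem chi_cont' : Continuous (deriv chi) := chi_cd.continuous_deriv le_rfl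

theorem chi_hd (x : ℝ) : HasDerivAt chi (deriv chi x) x :=
  (chi_cd.differentiable one_ne_zero x).hasDerivAt

theorem chi_neg {x : ℝ} (hx : x < 0) : chi x = 0 ∧ deriv chi x = 0 := by
  refine ⟨Real.smoothTransition.zero_of_nonpos hx.le, ?_⟩
  have : chi =ᶠ[𝓝 x] fun _ => 0 := by
    filter_upwards [Iio_mem_nhds hx] with y hy
    exact Real.smoothTransition.zero_of_nonpos (le_of_lt hy)
  rw [this.deriv_eq, deriv_const]

theorem chi_big {x : ℝ} (hx : 1 < x) : chi x = 1 ∧ deriv chi x = 0 := by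
  refine ⟨Real.smoothTransition.one_of_one_le hx.le, ?_⟩
  have : chi =ᶠ[𝓝 x] fun _ => 1 := by
    filter_upwards [Ioi_mem_nhds hx] with y hy
    exact Real.smoothTransition.one_of_one_le (le_of_lt hy)
  rw [this.deriv_eq, deriv_const]

theorem chi_abs (x : ℝ) : |chi x| ≤ 1 := by
  rw [abs_le]
  exact ⟨by linarith [Real.smoothTransition.nonneg x, show chi x = Real.smoothTransition x from rfl],
    Real.smoothTransition.le_one x⟩

theorem chi_bound : ∃ C, ∀ x, 0 ≤ x → |x * deriv chi x| ≤ C := by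
  obtain ⟨C, hC⟩ := (isCompact_Icc (a := (0 : ℝ)) (b := 1)).exists_bound_of_continuousOn
    (f := fun x => x * deriv chi x) (by fun_prop)
  refine ⟨C, fun x hx => ?_⟩
  rcases le_or_gt x 1 with h | h
  · exact hC x ⟨hx, h⟩
  · have := hC 0 ⟨le_rfl, zero_le_one⟩
    rw [(chi_big h).2]
    simpa using this

/-- Equal to `w` below the horizontal axis and to `u` above height `1 / n`. -/
noncomputable def C1.glue (n : ℝ) (u w : C1) : C1 where
  f p := w.f p + chi (n * p.2) * (u.f p - w.f p)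
  fs p := w.fs p + chi (n * p.2) * (u.fs p - w.fs p)
  fn p := w.fn p + chi (n * p.2) * (u.fn p - w.fn p) + n * deriv chi (n * p.2) * (u.f p - w.f p)
  hd p := by
    have h1 : HasFDerivAt (fun p : ℝ × ℝ => chi (n * p.2))
        (deriv chi (n * p.2) • (n • ContinuousLinearMap.snd ℝ ℝ ℝ)) p :=
      (chi_hd (n * p.2)).comp_hasFDerivAt p (hasFDerivAt_snd.const_mul n)
    have h2 := (w.hd p).add (h1.mul ((u.hd p).sub (w.hd p)))
    refine HasFDerivAt.congr_fderiv h2 ?_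
    ext <;> simp
    all_goals ring
  cs := by fun_prop
  cn := by fun_prop

/-- Value and first derivatives. -/
def C1.jet (u : C1) (p : ℝ × ℝ) : ℝ × ℝ × ℝ := (u.f p, u.fs p, u.fn p)

@[fun_prop] theorem C1.cjet (u : C1) : Continuous u.jet := by
  unfold C1.jet; fun_prop

theorem bound_Tri {E : Type*} [NormedAddCommGroup E] {F : ℝ × ℝ → E} (hF : Continuous F) :
    ∃ K, ∀ p ∈ Icc ((-1 : ℝ), (0 : ℝ)) (1, 1), ‖F p‖ ≤ K :=
  isCompact_Icc.exists_bound_of_continuousOn hF.continuousOn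

/-- Bounded and eventually exact approximation on the triangle. -/
def Approx (un : ℕ → C1) (u : C1) : Prop :=
  (∃ K, ∀ n, ∀ p ∈ Tri, ‖(un n).jet p‖ ≤ K) ∧ ∀ p ∈ Tri, ∀ᶠ n in atTop, (un n).jet p = u.jet p

theorem Approx.tendsto {un vn : ℕ → C1} {u v : C1} (hu : Approx un u) (hv : Approx vn v)
    {Φ : (ℝ × ℝ × ℝ) × (ℝ × ℝ × ℝ) → ℝ} (hΦ : Continuous Φ) :
    Tendsto (fun n => IT fun p => Φ ((un n).jet p, (vn n).jet p)) atTop
      (𝓝 (IT fun p => Φ (u.jet p, v.jet p))) := by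
  obtain ⟨K, hK⟩ := hu.1
  obtain ⟨L, hL⟩ := hv.1
  obtain ⟨C, hC⟩ := ((isCompact_closedBall (0 : ℝ × ℝ × ℝ) K).prod
    (isCompact_closedBall (0 : ℝ × ℝ × ℝ) L)).exists_bound_of_continuousOn hΦ.continuousOn
  unfold IT
  refine tendsto_integral_of_dominated_convergence (fun _ => C) ?_ ?_ ?_ ?_
  · intro n
    exact Continuous.aestronglyMeasurable (by fun_prop)
  · exact integrableOn_Tri continuous_const
  · intro n
    refine (ae_restrict_iff' measurableSet_Tri).mpr (Eventually.of_forall fun p hp => ?_)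
    apply hC
    exact ⟨by simpa using hK n p hp, by simpa using hL n p hp⟩
  · refine (ae_restrict_iff' measurableSet_Tri).mpr (Eventually.of_forall fun p hp => ?_)
    refine tendsto_const_nhds.congr' ?_
    filter_upwards [hu.2 p hp, hv.2 p hp] with n h1 h2
    rw [h1, h2]

theorem approx_glue {u w : C1} (h : ∀ s, u.f (s, 0) = w.f (s, 0)) :
    Approx (fun n => C1.glue n u w) u := by
  constructor
  · obtain ⟨C, hC⟩ := chi_bound
    obtain ⟨K, hK⟩ := bound_Tri u.cjet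
    obtain ⟨L, hL⟩ := bound_Tri w.cjet
    have hmv : ∀ p ∈ Tri, |u.f p - w.f p| ≤ (K + L) * p.2 := by
      rintro ⟨s, y⟩ hp
      have hp' := Tri_subset hp
      simp only [mem_Icc, Prod.mk_le_mk] at hp'
      have hd : ∀ z ∈ Icc (0 : ℝ) 1, HasDerivWithinAt (fun z => u.f (s, z) - w.f (s, z))
          (u.fn (s, z) - w.fn (s, z)) (Icc 0 1) z := by
        intro z _
        have h1 : HasDerivAt (fun z : ℝ => (s, z)) ((0 : ℝ), (1 : ℝ)) z :=
          (hasDerivAt_const z s).prodMk (hasDerivAt_id' z)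
        have h2 := (((u.hd (s, z)).sub (w.hd (s, z))).comp_hasDerivAt z h1).hasDerivWithinAt
          (s := Icc 0 1)
        refine HasDerivWithinAt.congr_deriv h2 ?_
        simp
      have hb : ∀ z ∈ Ico (0 : ℝ) 1, ‖u.fn (s, z) - w.fn (s, z)‖ ≤ K + L := by
        intro z hz
        have m : (s, z) ∈ Icc ((-1 : ℝ), (0 : ℝ)) (1, 1) :=
          ⟨⟨hp'.1.1, hz.1⟩, hp'.2.1, hz.2.le⟩
        have a1 := hK _ m
        have a2 := hL _ m
        simp only [C1.jet, norm_prod_le_iff] at a1 a2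
        exact (norm_sub_le _ _).trans (add_le_add a1.2.2 a2.2.2)
      have := norm_image_sub_le_of_norm_deriv_le_segment' hd hb y ⟨hp'.1.2, hp'.2.2⟩
      simpa [h s] using this
    refine ⟨L + (K + L) + C * (K + L), fun n p hp => ?_⟩
    have a1 := hK _ (Tri_subset hp)
    have a2 := hL _ (Tri_subset hp)
    simp only [C1.jet, norm_prod_le_iff, Real.norm_eq_abs] at a1 a2 ⊢
    have hC0 : 0 ≤ C := (abs_nonneg _).trans (hC 0 le_rfl)
    have hK0 : 0 ≤ K := (abs_nonneg _).trans a1.1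
    have hL0 : 0 ≤ L := (abs_nonneg _).trans a2.1
    have key : ∀ a b : ℝ, |a| ≤ K → |b| ≤ L → |b + chi (n * p.2) * (a - b)| ≤ L + (K + L) := by
      intro a b ha hb
      refine (abs_add_le _ _).trans (add_le_add hb ?_)
      rw [abs_mul]
      refine (mul_le_mul (chi_abs _) ((abs_sub _ _).trans (add_le_add ha hb)) (abs_nonneg _)
        zero_le_one).trans (by simp)
    have hCK : 0 ≤ C * (K + L) := by positivity
    refine ⟨(key _ _ a1.1 a2.1).trans (by linarith), (key _ _ a1.2.1 a2.2.1).trans (by linarith), ?_⟩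
    refine (abs_add_le _ _).trans (add_le_add (key _ _ a1.2.2 a2.2.2) ?_)
    have b1 := hC (n * p.2) (mul_nonneg n.cast_nonneg hp.1.le)
    have b2 := hmv p hp
    have hp0 : 0 < p.2 := hp.1
    rw [abs_mul]
    calc |n * deriv chi (n * p.2)| * |u.f p - w.f p|
        ≤ |n * deriv chi (n * p.2)| * ((K + L) * p.2) :=
          mul_le_mul_of_nonneg_left b2 (abs_nonneg _)
      _ = |n * p.2 * deriv chi (n * p.2)| * (K + L) := by
          rw [mul_right_comm (n : ℝ), abs_mul _ p.2, abs_of_pos hp0]; ring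
      _ ≤ C * (K + L) := mul_le_mul_of_nonneg_right b1 (by positivity)
  · intro p hp
    have hp0 : 0 < p.2 := hp.1
    filter_upwards [(tendsto_natCast_atTop_atTop (R := ℝ)).atTop_mul_const hp0
      |>.eventually_gt_atTop 1] with n hn
    simp [C1.jet, C1.glue, (chi_big hn).1, (chi_big hn).2]

theorem approx_glue' (u w : C1) (α : ℝ) {β : ℝ} (hβ : β < 0) :
    Approx (fun n => (C1.glue ((n + 1 : ℕ) : ℝ) u (w.comp (-α / β) β⁻¹)).comp α β) w := by
  have key : ∀ n : ℕ, ∀ p ∈ Tri,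
      ((C1.glue ((n + 1 : ℕ) : ℝ) u (w.comp (-α / β) β⁻¹)).comp α β).jet p = w.jet p := by
    intro n p hp
    have hp0 : 0 < p.2 := hp.1
    have hn : ((n + 1 : ℕ) : ℝ) * (β * p.2) < 0 :=
      mul_neg_of_pos_of_neg (by positivity) (mul_neg_of_neg_of_pos hβ hp0)
    have e : (p.1 + α * p.2 + -α / β * (β * p.2), β⁻¹ * (β * p.2)) = p := by
      have := hβ.ne
      ext <;> simp <;> field_simp
      ring
    simp only [C1.jet, C1.glue, C1.comp, (chi_neg hn).1, (chi_neg hn).2, e]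
    have := hβ.ne
    ext <;> simp
    field_simp
    ring
  obtain ⟨K, hK⟩ := bound_Tri w.cjet
  exact ⟨⟨K, fun n p hp => by rw [key n p hp]; exact hK p (Tri_subset hp)⟩,
    fun p hp => Eventually.of_forall fun n => key n p hp⟩

theorem Approx.shift {un : ℕ → C1} {u : C1} (h : Approx un u) : Approx (fun n => un (n + 1)) u :=
  ⟨h.1.imp fun _ hK n => hK (n + 1), fun p hp => (tendsto_add_atTop_nat 1).eventually (h.2 p hp)⟩

/-- A binary quadratic form. -/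
def IsQ (Q : ℝ → ℝ → ℝ) : Prop := ∃ a b c, ∀ z1 z2, Q z1 z2 = a * z1 ^ 2 + b * z1 * z2 + c * z2 ^ 2

theorem IsQ.add {Q R : ℝ → ℝ → ℝ} (hQ : IsQ Q) (hR : IsQ R) :
    IsQ fun z1 z2 => Q z1 z2 + R z1 z2 := by
  obtain ⟨a, b, c, h⟩ := hQ
  obtain ⟨a', b', c', h'⟩ := hR
  exact ⟨a + a', b + b', c + c', fun z1 z2 => by simp only [h, h']; ring⟩

theorem IsQ.cmul {Q : ℝ → ℝ → ℝ} (hQ : IsQ Q) (k : ℝ) : IsQ fun z1 z2 => k * Q z1 z2 := by
  obtain ⟨a, b, c, h⟩ := hQ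
  exact ⟨k * a, k * b, k * c, fun z1 z2 => by simp only [h]; ring⟩

theorem IsQ.smul {Q : ℝ → ℝ → ℝ} (hQ : IsQ Q) (s z1 z2 : ℝ) :
    Q (s * z1) (s * z2) = s ^ 2 * Q z1 z2 := by
  obtain ⟨a, b, c, h⟩ := hQ
  rw [h, h]; ring

theorem IsQ.polar {Q : ℝ → ℝ → ℝ} (hQ : IsQ Q) (z1 z2 : ℝ) :
    Q z1 z2 = Q 1 0 * z1 ^ 2 + (Q 1 1 - Q 1 0 - Q 0 1) * z1 * z2 + Q 0 1 * z2 ^ 2 := by
  obtain ⟨a, b, c, h⟩ := hQ
  simp only [h]; ring

theorem pos_of_mul_pos_of_pos_aux {a x : ℝ} (h : 0 < 4 * a * x) (ha : 0 < a) : 0 < x := by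
  by_contra hc
  nlinarith

theorem posdef_ev {Q : ℕ → ℝ → ℝ → ℝ} {Q0 : ℝ → ℝ → ℝ} (hQ : ∀ n, IsQ (Q n)) (h0 : IsQ Q0)
    (hl : ∀ z1 z2, Tendsto (fun n => Q n z1 z2) atTop (𝓝 (Q0 z1 z2)))
    (hp : ∀ z1 z2, z1 ≠ 0 ∨ z2 ≠ 0 → 0 < Q0 z1 z2) :
    ∀ᶠ n in atTop, ∀ z1 z2, z1 ≠ 0 ∨ z2 ≠ 0 → 0 < Q n z1 z2 := by
  have a0 : 0 < Q0 1 0 := hp 1 0 (Or.inl one_ne_zero)
  have d0 : 0 < 4 * Q0 1 0 * Q0 0 1 - (Q0 1 1 - Q0 1 0 - Q0 0 1) ^ 2 := by
    have := hp (Q0 1 1 - Q0 1 0 - Q0 0 1) (-2 * Q0 1 0) (Or.inr (by linarith))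
    rw [h0.polar] at this
    nlinarith
  have e1 := (hl 1 0).eventually (lt_mem_nhds a0)
  have e2 := ((((hl 1 0).const_mul 4).mul (hl 0 1)).sub
    ((((hl 1 1).sub (hl 1 0)).sub (hl 0 1)).pow 2)).eventually (lt_mem_nhds d0)
  filter_upwards [e1, e2] with n a d z1 z2 hz
  rw [(hQ n).polar]
  generalize Q n 1 1 - Q n 1 0 - Q n 0 1 = b at *
  generalize Q n 1 0 = a' at *
  generalize Q n 0 1 = c at *
  have : 0 < 4 * a' * (a' * z1 ^ 2 + b * z1 * z2 + c * z2 ^ 2) := by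
    by_cases h2 : z2 = 0
    · have h1 : z1 ≠ 0 := by tauto
      subst h2
      have : 0 < z1 ^ 2 := by positivity
      simp only [mul_zero, add_zero, ne_eq, OfNat.ofNat_ne_zero, not_false_eq_true, zero_pow]
      positivity
    · have : 0 < z2 ^ 2 := by positivity
      nlinarith [sq_nonneg (2 * a' * z1 + b * z2), mul_pos d this]
  exact pos_of_mul_pos_of_pos_aux this a

/-- First moment of `z1 u + z2 v`. -/
noncomputable def Bq (h : ℝ) (u v : C1) (z1 z2 : ℝ) : ℝ :=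
  h * IT (fun p => z1 * u.f p + z2 * v.f p)

theorem Bq_lin (h : ℝ) (u v : C1) (z1 z2 : ℝ) :
    Bq h u v z1 z2 = z1 * (h * IT u.f) + z2 * (h * IT v.f) := by
  unfold Bq
  rw [IT_add (by fun_prop) (by fun_prop), IT_cmul, IT_cmul]
  ring

theorem Dq_split (h : ℝ) (u v : C1) (c z1 z2 : ℝ) :
    Dq h u v c z1 z2 = h * c ^ 2 + 2 * c * Bq h u v z1 z2 + Dq h u v 0 z1 z2 := by
  unfold Dq Bq
  have : IT (fun p => (c + z1 * u.f p + z2 * v.f p) ^ 2)
      = c ^ 2 + 2 * c * IT (fun p => z1 * u.f p + z2 * v.f p)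
        + IT (fun p => (0 + z1 * u.f p + z2 * v.f p) ^ 2) := by
    rw [← IT_cmul]
    conv_rhs => rw [← IT_const (c ^ 2)]
    rw [← IT_add, ← IT_add]
    · congr 1
      funext p
      ring
    all_goals fun_prop
  rw [this]
  ring

theorem isQ_Dq (h : ℝ) (u v : C1) : IsQ (Dq h u v 0) := by
  refine ⟨h * IT (fun p => u.f p ^ 2), h * (2 * IT (fun p => u.f p * v.f p)),
    h * IT (fun p => v.f p ^ 2), fun z1 z2 => ?_⟩
  unfold Dq
  have : IT (fun p => (0 + z1 * u.f p + z2 * v.f p) ^ 2)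
      = z1 ^ 2 * IT (fun p => u.f p ^ 2) + 2 * z1 * z2 * IT (fun p => u.f p * v.f p)
        + z2 ^ 2 * IT (fun p => v.f p ^ 2) := by
    rw [← IT_cmul, ← IT_cmul, ← IT_cmul, ← IT_add, ← IT_add]
    · congr 1
      funext p
      ring
    all_goals fun_prop
  rw [this]
  ring

theorem isQ_Nq (h t : ℝ) (u v : C1) : IsQ (Nq h t u v) := by
  obtain ⟨a, ha⟩ := Nq_quad h t u v
  exact ⟨_, 2 * a, _, ha⟩

theorem Nq_nonneg {h : ℝ} (hh : 0 < h) (t : ℝ) (u v : C1) (z1 z2 : ℝ) : 0 ≤ Nq h t u v z1 z2 :=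
  IT_nonneg fun p => by positivity

/-- Variance form. -/
noncomputable def Vq (h1 h2 : ℝ) (u1 v1 u2 v2 : C1) (z1 z2 : ℝ) : ℝ :=
  Dq h1 u1 v1 0 z1 z2 + Dq h2 u2 v2 0 z1 z2
    - (Bq h1 u1 v1 z1 z2 + Bq h2 u2 v2 z1 z2) ^ 2 / (h1 + h2)

theorem D_eq {h1 h2 : ℝ} (hH : 0 < h1 + h2) (u1 v1 u2 v2 : C1) (c z1 z2 : ℝ) :
    Dq h1 u1 v1 c z1 z2 + Dq h2 u2 v2 c z1 z2
      = (h1 + h2) * (c + (Bq h1 u1 v1 z1 z2 + Bq h2 u2 v2 z1 z2) / (h1 + h2)) ^ 2
        + Vq h1 h2 u1 v1 u2 v2 z1 z2 := by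
  rw [Dq_split h1, Dq_split h2]
  unfold Vq
  field_simp
  ring

theorem isQ_Vq (h1 h2 : ℝ) (u1 v1 u2 v2 : C1) : IsQ (Vq h1 h2 u1 v1 u2 v2) := by
  obtain ⟨a, b, c, h⟩ := (isQ_Dq h1 u1 v1).add (isQ_Dq h2 u2 v2)
  refine ⟨a - (h1 * IT u1.f + h2 * IT u2.f) ^ 2 / (h1 + h2),
    b - 2 * (h1 * IT u1.f + h2 * IT u2.f) * (h1 * IT v1.f + h2 * IT v2.f) / (h1 + h2),
    c - (h1 * IT v1.f + h2 * IT v2.f) ^ 2 / (h1 + h2), fun z1 z2 => ?_⟩
  unfold Vq
  simp only at h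
  rw [h, Bq_lin, Bq_lin]
  ring

section lim
variable {un vn : ℕ → C1} {u v : C1} (hu : Approx un u) (hv : Approx vn v)
include hu hv

theorem lim_Dq (h c z1 z2 : ℝ) :
    Tendsto (fun n => Dq h (un n) (vn n) c z1 z2) atTop (𝓝 (Dq h u v c z1 z2)) :=
  (hu.tendsto hv (Φ := fun q => (c + z1 * q.1.1 + z2 * q.2.1) ^ 2) (by fun_prop)).const_mul h

theorem lim_Bq (h z1 z2 : ℝ) :
    Tendsto (fun n => Bq h (un n) (vn n) z1 z2) atTop (𝓝 (Bq h u v z1 z2)) :=
  (hu.tendsto hv (Φ := fun q => z1 * q.1.1 + z2 * q.2.1) (by fun_prop)).const_mul h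

theorem lim_Nq (h t z1 z2 : ℝ) :
    Tendsto (fun n => Nq h t (un n) (vn n) z1 z2) atTop (𝓝 (Nq h t u v z1 z2)) :=
  hu.tendsto hv (Φ := fun q => h * (z1 * q.1.2.1 + z2 * q.2.2.1) ^ 2
    + h⁻¹ * ((z1 * q.1.2.2 + z2 * q.2.2.2) - t * (z1 * q.1.2.1 + z2 * q.2.2.1)) ^ 2) (by fun_prop)

end lim

/-- The variational upper bounds for globally smooth test functions. -/
def SmoothOK (h1 t1 h2 t2 α β μ1 μ2 : ℝ) : Prop :=
  ∀ (u v : C1) (lam : ℝ),
    (∀ z1 z2, (∀ c s, c ≠ 0 ∨ s ≠ 0 →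
        0 < Dq h1 u v c (s * z1) (s * z2) + Dq h2 (u.comp α β) (v.comp α β) c (s * z1) (s * z2)) →
      (∀ c s, Nq h1 t1 u v (s * z1) (s * z2) + Nq h2 t2 (u.comp α β) (v.comp α β) (s * z1) (s * z2)
        ≤ lam * (Dq h1 u v c (s * z1) (s * z2)
          + Dq h2 (u.comp α β) (v.comp α β) c (s * z1) (s * z2))) → μ1 ≤ lam) ∧
    ((∀ c z1 z2, c ≠ 0 ∨ z1 ≠ 0 ∨ z2 ≠ 0 →
        0 < Dq h1 u v c z1 z2 + Dq h2 (u.comp α β) (v.comp α β) c z1 z2) →
      (∀ c z1 z2, Nq h1 t1 u v z1 z2 + Nq h2 t2 (u.comp α β) (v.comp α β) z1 z2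
        ≤ lam * (Dq h1 u v c z1 z2 + Dq h2 (u.comp α β) (v.comp α β) c z1 z2)) → μ2 ≤ lam)

theorem pairOK_of_smooth {h1 t1 h2 t2 α β μ1 μ2 : ℝ} (p1 : 0 < h1) (p2 : 0 < h2) (hβ : β < 0)
    (hS : SmoothOK h1 t1 h2 t2 α β μ1 μ2) : PairOK h1 t1 h2 t2 μ1 μ2 := by
  intro u1 v1 u2 v2 hu hv M hM hD
  have hH : 0 < h1 + h2 := by linarith
  set un : ℕ → C1 := fun n => C1.glue ((n + 1 : ℕ) : ℝ) u1 (u2.comp (-α / β) β⁻¹) with hun
  set vn : ℕ → C1 := fun n => C1.glue ((n + 1 : ℕ) : ℝ) v1 (v2.comp (-α / β) β⁻¹) with hvn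
  have a1 : Approx un u1 := (approx_glue (fun s => by simp [C1.comp, hu s])).shift
  have b1 : Approx vn v1 := (approx_glue (fun s => by simp [C1.comp, hv s])).shift
  have a2 : Approx (fun n => (un n).comp α β) u2 := approx_glue' u1 u2 α hβ
  have b2 : Approx (fun n => (vn n).comp α β) v2 := approx_glue' v1 v2 α hβ
  set V : ℝ → ℝ → ℝ := Vq h1 h2 u1 v1 u2 v2 with hV
  set N : ℝ → ℝ → ℝ := fun z1 z2 => Nq h1 t1 u1 v1 z1 z2 + Nq h2 t2 u2 v2 z1 z2 with hN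
  set Vn : ℕ → ℝ → ℝ → ℝ :=
    fun n => Vq h1 h2 (un n) (vn n) ((un n).comp α β) ((vn n).comp α β) with hVn
  set Nn : ℕ → ℝ → ℝ → ℝ := fun n z1 z2 =>
    Nq h1 t1 (un n) (vn n) z1 z2 + Nq h2 t2 ((un n).comp α β) ((vn n).comp α β) z1 z2 with hNn
  have qV : IsQ V := isQ_Vq _ _ _ _ _ _
  have qN : IsQ N := (isQ_Nq _ _ _ _).add (isQ_Nq _ _ _ _)
  have qVn : ∀ n, IsQ (Vn n) := fun n => isQ_Vq _ _ _ _ _ _
  have qNn : ∀ n, IsQ (Nn n) := fun n => (isQ_Nq _ _ _ _).add (isQ_Nq _ _ _ _)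
  have lV : ∀ z1 z2, Tendsto (fun n => Vn n z1 z2) atTop (𝓝 (V z1 z2)) := fun z1 z2 =>
    ((lim_Dq a1 b1 h1 0 z1 z2).add (lim_Dq a2 b2 h2 0 z1 z2)).sub
      ((((lim_Bq a1 b1 h1 z1 z2).add (lim_Bq a2 b2 h2 z1 z2)).pow 2).div_const _)
  have lN : ∀ z1 z2, Tendsto (fun n => Nn n z1 z2) atTop (𝓝 (N z1 z2)) := fun z1 z2 =>
    (lim_Nq a1 b1 h1 t1 z1 z2).add (lim_Nq a2 b2 h2 t2 z1 z2)
  have hMV : ∀ z1 z2, M z1 z2 ≤ V z1 z2 := by
    intro z1 z2
    have := hD (-((Bq h1 u1 v1 z1 z2 + Bq h2 u2 v2 z1 z2) / (h1 + h2))) z1 z2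
    rw [D_eq hH] at this
    simpa using this
  have hN0 : ∀ z1 z2, 0 ≤ N z1 z2 := fun z1 z2 =>
    add_nonneg (Nq_nonneg p1 _ _ _ _ _) (Nq_nonneg p2 _ _ _ _ _)
  have hVp : ∀ z1 z2, z1 ≠ 0 ∨ z2 ≠ 0 → 0 < V z1 z2 := fun z1 z2 hz =>
    (hM z1 z2 hz).trans_le (hMV z1 z2)
  have eV := posdef_ev qVn qV lV hVp
  have hD0 : ∀ n, (∀ z1 z2, z1 ≠ 0 ∨ z2 ≠ 0 → 0 < Vn n z1 z2) → ∀ c z1 z2,
      c ≠ 0 ∨ z1 ≠ 0 ∨ z2 ≠ 0 → 0 < Dq h1 (un n) (vn n) c z1 z2
        + Dq h2 ((un n).comp α β) ((vn n).comp α β) c z1 z2 := by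
    intro n hn c z1 z2 hc
    by_cases hz : z1 ≠ 0 ∨ z2 ≠ 0
    · rw [D_eq hH]
      have := hn z1 z2 hz
      positivity
    · push Not at hz
      have hc' : c ≠ 0 := by tauto
      rw [hz.1, hz.2]
      simp only [Dq, zero_mul, add_zero, IT_const]
      positivity
  have hDV : ∀ n c z1 z2, Vn n z1 z2 ≤ Dq h1 (un n) (vn n) c z1 z2
        + Dq h2 ((un n).comp α β) ((vn n).comp α β) c z1 z2 := by
    intro n c z1 z2
    rw [D_eq hH]
    exact le_add_of_nonneg_left (by positivity)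
  constructor
  · intro z1 z2 hz
    have m0 := hM z1 z2 hz
    rw [← le_div_iff₀ m0]
    apply le_of_forall_pos_le_add
    intro δ hδ
    have l0 : 0 ≤ N z1 z2 / M z1 z2 := div_nonneg (hN0 _ _) m0.le
    set lam := N z1 z2 / M z1 z2 + δ with hlam
    have e1 : 0 < lam * V z1 z2 - N z1 z2 := by
      have c1 := mul_le_mul_of_nonneg_left (hMV z1 z2) l0
      rw [div_mul_cancel₀ _ m0.ne'] at c1
      have c2 := mul_pos hδ (hVp z1 z2 hz)
      rw [hlam]
      linarith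
    have e2 := (((lV z1 z2).const_mul lam).sub (lN z1 z2)).eventually (lt_mem_nhds e1)
    obtain ⟨n, hn1, hn2⟩ := (eV.and e2).exists
    refine (hS (un n) (vn n) lam).1 z1 z2 ?_ ?_
    · intro c s hcs
      apply hD0 n hn1
      rcases hcs with h | h
      · exact Or.inl h
      · exact Or.inr (hz.imp (mul_ne_zero h) (mul_ne_zero h))
    · intro c s
      refine le_trans ?_ (mul_le_mul_of_nonneg_left (hDV n c _ _) (by linarith))
      change Nn n _ _ ≤ _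
      rw [(qNn n).smul, (qVn n).smul]
      nlinarith [sq_nonneg s]
  · intro lam hl
    apply le_of_forall_pos_le_add
    intro δ hδ
    have l0 : 0 ≤ lam := by
      have c1 := hl 1 0
      have c2 := hN0 1 0
      have c3 := hM 1 0 (Or.inl one_ne_zero)
      by_contra hc
      nlinarith
    have e1 : ∀ z1 z2, z1 ≠ 0 ∨ z2 ≠ 0 → 0 < (lam + δ) * V z1 z2 + (-1) * N z1 z2 := by
      intro z1 z2 hz
      have c1 := mul_le_mul_of_nonneg_left (hMV z1 z2) l0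
      have c2 := mul_pos hδ (hVp z1 z2 hz)
      have c3 := hl z1 z2
      linarith
    have e2 := posdef_ev (Q := fun n z1 z2 => (lam + δ) * Vn n z1 z2 + (-1) * Nn n z1 z2)
      (fun n => ((qVn n).cmul _).add ((qNn n).cmul _)) ((qV.cmul _).add (qN.cmul _))
      (fun z1 z2 => ((lV z1 z2).const_mul _).add ((lN z1 z2).const_mul _)) e1
    obtain ⟨n, hn1, hn2⟩ := (eV.and e2).exists
    refine (hS (un n) (vn n) (lam + δ)).2 (hD0 n hn1) ?_
    intro c z1 z2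
    refine le_trans ?_ (mul_le_mul_of_nonneg_left (hDV n c _ _) (by linarith))
    change Nn n _ _ ≤ _
    by_cases hz : z1 ≠ 0 ∨ z2 ≠ 0
    · linarith [hn2 z1 z2 hz]
    · push Not at hz
      rw [hz.1, hz.2, (qNn n).polar, (qVn n).polar]
      simp

end Pool.Agent.MP_da42b8_an

end MrgPart2

-- ======== part 3: formerly Pool.Agent.MP_da42b8_an.Wirt
section MrgPart3

/-!
Sharp Wirtinger inequalities on the unit interval and the unit square, for functions with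
right derivatives.
-/

set_option autoImplicit false

namespace Pool.Agent.MP_da42b8_an

open MeasureTheory Set intervalIntegral

theorem wirt_dirichlet_aux {F g : ℝ → ℝ} (hd : ∀ x, HasDerivAt F (g x) x) (hg : Continuous g)
    (h0 : F 0 = 0) (h1 : F 1 = 0) {k : ℝ} (k0 : 0 ≤ k) (k1 : k < Real.pi) :
    k ^ 2 * ∫ x in (0 : ℝ)..1, F x ^ 2 ≤ ∫ x in (0 : ℝ)..1, g x ^ 2 := by
  have hF : Continuous F := continuous_iff_continuousAt.mpr fun x => (hd x).continuousAt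
  have hcos : ∀ x ∈ Icc (0 : ℝ) 1, 0 < Real.cos (k * (x - 1 / 2)) := by
    intro x hx
    apply Real.cos_pos_of_mem_Ioo
    constructor <;> nlinarith [hx.1, hx.2]
  let w : ℝ → ℝ := fun x => -(k * Real.sin (k * (x - 1 / 2)) / Real.cos (k * (x - 1 / 2)))
  have hw : ∀ x ∈ Icc (0 : ℝ) 1, HasDerivAt w (-(k ^ 2) - w x ^ 2) x := by
    intro x hx
    have a := (((hasDerivAt_id' x).sub_const (1 / 2)).const_mul k)
    have b := ((a.sin.const_mul k).div a.cos (hcos x hx).ne').neg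
    refine HasDerivAt.congr_deriv b ?_
    have := (hcos x hx).ne'
    simp only [w]
    generalize Real.cos (k * (x - 1 / 2)) = c at *
    generalize Real.sin (k * (x - 1 / 2)) = s at *
    field_simp
    ring
  have hwc : ContinuousOn w (Icc 0 1) := fun x hx => (hw x hx).continuousAt.continuousWithinAt
  have hwu : ContinuousOn w (uIcc 0 1) := by rwa [uIcc_of_le zero_le_one]
  have i1 : ∫ x in (0 : ℝ)..1, ((-(k ^ 2) - w x ^ 2) * F x ^ 2 + w x * (2 * F x * g x))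
      = w 1 * F 1 ^ 2 - w 0 * F 0 ^ 2 := by
    apply integral_eq_sub_of_hasDerivAt (f := fun x => w x * F x ^ 2)
    · intro x hx
      rw [uIcc_of_le zero_le_one] at hx
      have := (hw x hx).mul ((hd x).pow 2)
      refine HasDerivAt.congr_deriv this ?_
      simp
    · apply ContinuousOn.intervalIntegrable
      fun_prop
  rw [h0, h1] at i1
  have i2 : 0 ≤ ∫ x in (0 : ℝ)..1, (g x - w x * F x) ^ 2 :=
    integral_nonneg zero_le_one fun x _ => sq_nonneg _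
  have i3 : ∫ x in (0 : ℝ)..1, (g x - w x * F x) ^ 2 = (∫ x in (0 : ℝ)..1, g x ^ 2)
      - k ^ 2 * (∫ x in (0 : ℝ)..1, F x ^ 2)
      - ∫ x in (0 : ℝ)..1, ((-(k ^ 2) - w x ^ 2) * F x ^ 2 + w x * (2 * F x * g x)) := by
    rw [← intervalIntegral.integral_const_mul, ← intervalIntegral.integral_sub,
      ← intervalIntegral.integral_sub]
    · congr 1
      funext x
      ring
    all_goals
      apply ContinuousOn.intervalIntegrable
      fun_prop
  rw [i3, i1] at i2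
  linarith

theorem wirt_dirichlet {F g : ℝ → ℝ} (hd : ∀ x, HasDerivAt F (g x) x) (hg : Continuous g)
    (h0 : F 0 = 0) (h1 : F 1 = 0) :
    Real.pi ^ 2 * ∫ x in (0 : ℝ)..1, F x ^ 2 ≤ ∫ x in (0 : ℝ)..1, g x ^ 2 := by
  have hc : ContinuousWithinAt (fun k : ℝ => k ^ 2 * ∫ x in (0 : ℝ)..1, F x ^ 2)
      (Iio Real.pi) Real.pi := by fun_prop
  refine le_of_tendsto hc.tendsto ?_
  filter_upwards [Ioo_mem_nhdsLT Real.pi_pos] with k hk
  exact wirt_dirichlet_aux hd hg h0 h1 hk.1.le hk.2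

theorem wirt_one {f f' : ℝ → ℝ} (hf : Continuous f)
    (hd : ∀ x ∈ Ioo (0 : ℝ) 1, HasDerivWithinAt f (f' x) (Ioi x) x)
    (i1 : IntervalIntegrable f' volume 0 1)
    (i2 : IntervalIntegrable (fun x => f' x ^ 2) volume 0 1) :
    Real.pi ^ 2 * ∫ x in (0 : ℝ)..1, (f x - ∫ y in (0 : ℝ)..1, f y) ^ 2
      ≤ ∫ x in (0 : ℝ)..1, f' x ^ 2 := by
  set m := ∫ y in (0 : ℝ)..1, f y with hm
  let g : ℝ → ℝ := fun x => f x - m
  have hg : Continuous g := hf.sub continuous_const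
  let F : ℝ → ℝ := fun x => ∫ y in (0 : ℝ)..x, g y
  have hF : ∀ x, HasDerivAt F (g x) x := fun x => (hg.integral_hasStrictDerivAt 0 x).hasDerivAt
  have hFc : Continuous F := continuous_iff_continuousAt.mpr fun x => (hF x).continuousAt
  have h0 : F 0 = 0 := integral_same
  have h1 : F 1 = 0 := by
    simp only [F, g]
    rw [intervalIntegral.integral_sub (hf.intervalIntegrable _ _) (by simp), ← hm]
    simp
  have hD := wirt_dirichlet hF hg h0 h1
  have j1 : IntervalIntegrable (fun x => F x * f' x) volume 0 1 :=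
    i1.continuousOn_mul hFc.continuousOn
  have ibp : ∫ x in (0 : ℝ)..1, (g x * g x + F x * f' x) = F 1 * g 1 - F 0 * g 0 := by
    apply integral_eq_sub_of_hasDeriv_right_of_le zero_le_one (f := fun x => F x * g x)
    · exact (hFc.mul hg).continuousOn
    · intro x hx
      exact (hF x).hasDerivWithinAt.mul ((hd x hx).sub_const m)
    · exact ((hg.mul hg).intervalIntegrable _ _).add j1
  have j0 : IntervalIntegrable (fun x => g x * g x) volume 0 1 :=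
    (hg.mul hg).intervalIntegrable _ _
  rw [h0, h1, intervalIntegral.integral_add j0 j1] at ibp
  have e0 : 0 ≤ ∫ x in (0 : ℝ)..1, (f' x + Real.pi ^ 2 * F x) ^ 2 :=
    integral_nonneg zero_le_one fun x _ => sq_nonneg _
  have j2 : IntervalIntegrable (fun x => F x ^ 2) volume 0 1 := (hFc.pow 2).intervalIntegrable _ _
  have e1 : ∫ x in (0 : ℝ)..1, (f' x + Real.pi ^ 2 * F x) ^ 2 = (∫ x in (0 : ℝ)..1, f' x ^ 2)
      + 2 * Real.pi ^ 2 * (∫ x in (0 : ℝ)..1, F x * f' x)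
      + Real.pi ^ 4 * ∫ x in (0 : ℝ)..1, F x ^ 2 := by
    rw [← intervalIntegral.integral_const_mul, ← intervalIntegral.integral_const_mul,
      ← intervalIntegral.integral_add i2 (j1.const_mul _),
      ← intervalIntegral.integral_add (i2.add (j1.const_mul _)) (j2.const_mul _)]
    congr 1
    funext x
    ring
  have e2 : ∫ x in (0 : ℝ)..1, g x * g x = ∫ x in (0 : ℝ)..1, g x ^ 2 := by
    simp only [sq]
  have hp : 0 < Real.pi ^ 2 := by positivity
  have e3 := mul_le_mul_of_nonneg_left hD hp.le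
  change Real.pi ^ 2 * ∫ x in (0 : ℝ)..1, g x ^ 2 ≤ _
  rw [e1] at e0
  rw [e2] at ibp
  have e4 : ∫ x in (0 : ℝ)..1, F x * f' x = -∫ x in (0 : ℝ)..1, g x ^ 2 := by linarith
  rw [e4] at e0
  nlinarith

theorem sq_integral_le {f : ℝ → ℝ} (hf : Continuous f) :
    (∫ x in (0 : ℝ)..1, f x) ^ 2 ≤ ∫ x in (0 : ℝ)..1, f x ^ 2 := by
  set m := ∫ x in (0 : ℝ)..1, f x with hm
  have e0 : 0 ≤ ∫ x in (0 : ℝ)..1, (f x - m) ^ 2 :=
    integral_nonneg zero_le_one fun x _ => sq_nonneg _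
  have e1 : ∫ x in (0 : ℝ)..1, (f x - m) ^ 2 = ∫ x in (0 : ℝ)..1, (f x ^ 2 - 2 * m * f x + m ^ 2) := by
    congr 1
    funext x
    ring
  rw [e1, intervalIntegral.integral_add, intervalIntegral.integral_sub,
    intervalIntegral.integral_const_mul, ← hm] at e0
  · simp at e0
    linarith
  all_goals
    apply Continuous.intervalIntegrable
    fun_prop

theorem var_split {f : ℝ → ℝ} (hf : Continuous f) (c : ℝ) :
    ∫ x in (0 : ℝ)..1, (f x - c) ^ 2 = (∫ x in (0 : ℝ)..1, (f x - ∫ y in (0 : ℝ)..1, f y) ^ 2)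
      + ((∫ y in (0 : ℝ)..1, f y) - c) ^ 2 := by
  set m := ∫ x in (0 : ℝ)..1, f x with hm
  have e1 : ∫ x in (0 : ℝ)..1, (f x - c) ^ 2
      = ∫ x in (0 : ℝ)..1, ((f x - m) ^ 2 + (2 * (m - c) * f x + (c ^ 2 - m ^ 2))) := by
    congr 1
    funext x
    ring
  rw [e1, intervalIntegral.integral_add, intervalIntegral.integral_add,
    intervalIntegral.integral_const_mul, ← hm]
  · simp
    ring
  all_goals
    apply Continuous.intervalIntegrable
    fun_prop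

/-- The open unit square. -/
def Sq : Set (ℝ × ℝ) := Ioo 0 1 ×ˢ Ioo 0 1

theorem measurableSet_Sq : MeasurableSet Sq := measurableSet_Ioo.prod measurableSet_Ioo

theorem integrableOn_Sq_of_bound {F : ℝ × ℝ → ℝ} (hF : Measurable F) {K : ℝ}
    (hK : ∀ p ∈ Sq, |F p| ≤ K) : IntegrableOn F Sq := by
  have hfin : volume Sq < ⊤ := by
    rw [Sq, Measure.volume_eq_prod, Measure.prod_prod]; simp
  refine Measure.integrableOn_of_bounded hfin.ne hF.aestronglyMeasurable (M := K) ?_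
  exact (ae_restrict_iff' measurableSet_Sq).mpr (Filter.Eventually.of_forall hK)

theorem integrableOn_Sq {F : ℝ × ℝ → ℝ} (hF : Continuous F) : IntegrableOn F Sq :=
  (hF.continuousOn.integrableOn_compact (isCompact_Icc.prod isCompact_Icc)).mono_set
    (prod_mono Ioo_subset_Icc_self Ioo_subset_Icc_self)

theorem ii_eq (f : ℝ → ℝ) : ∫ x in (0 : ℝ)..1, f x = ∫ x in Ioo (0 : ℝ) 1, f x := by
  rw [integral_of_le zero_le_one, integral_Ioc_eq_integral_Ioo]

theorem Sq_iter {F : ℝ × ℝ → ℝ} (hF : IntegrableOn F Sq) :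
    ∫ p in Sq, F p = ∫ x in (0 : ℝ)..1, ∫ y in (0 : ℝ)..1, F (x, y) := by
  simp only [ii_eq]
  exact setIntegral_prod F hF

theorem Sq_iter' {F : ℝ × ℝ → ℝ} (hF : IntegrableOn F Sq) :
    ∫ p in Sq, F p = ∫ y in (0 : ℝ)..1, ∫ x in (0 : ℝ)..1, F (x, y) := by
  simp only [ii_eq]
  unfold Sq at *
  rw [Measure.volume_eq_prod] at *
  unfold IntegrableOn at hF
  rw [← Measure.prod_restrict] at *
  exact integral_prod_symm F hF

theorem wirt_fibre {G G' : ℝ × ℝ → ℝ} (hG : Continuous G) (hm : Measurable G') {K : ℝ}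
    (hK : ∀ p ∈ Sq, |G' p| ≤ K)
    (hd : ∀ x ∈ Ioo (0 : ℝ) 1, ∀ y ∈ Ioo (0 : ℝ) 1,
      HasDerivWithinAt (fun y => G (x, y)) (G' (x, y)) (Ioi y) y) :
    Real.pi ^ 2 * ∫ x in (0 : ℝ)..1, ∫ y in (0 : ℝ)..1, (G (x, y) - ∫ z in (0 : ℝ)..1, G (x, z)) ^ 2
      ≤ ∫ p in Sq, G' p ^ 2 := by
  have hK2 : ∀ p ∈ Sq, |G' p ^ 2| ≤ K ^ 2 := by
    intro p hp
    rw [abs_pow]
    exact pow_le_pow_left₀ (abs_nonneg _) (hK p hp) 2
  have hint := integrableOn_Sq_of_bound (hm.pow_const 2) hK2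
  rw [Sq_iter hint, ← intervalIntegral.integral_const_mul]
  have c1 : Continuous fun x => ∫ z in (0 : ℝ)..1, G (x, z) :=
    continuous_parametric_intervalIntegral_of_continuous' (by fun_prop) 0 1
  have c2 : Continuous fun x =>
      ∫ y in (0 : ℝ)..1, (G (x, y) - ∫ z in (0 : ℝ)..1, G (x, z)) ^ 2 :=
    continuous_parametric_intervalIntegral_of_continuous' (by fun_prop) 0 1
  rw [ii_eq, ii_eq]
  apply setIntegral_mono_on
  · exact ((c2.const_mul _).continuousOn.integrableOn_compact isCompact_Icc).mono_set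
      Ioo_subset_Icc_self
  · simp only [ii_eq]
    unfold Sq at hint
    rw [Measure.volume_eq_prod] at hint
    unfold IntegrableOn at hint
    rw [← Measure.prod_restrict] at hint
    exact hint.integral_prod_left
  · exact measurableSet_Ioo
  · intro x hx
    have bd : ∀ {H : ℝ × ℝ → ℝ} {L : ℝ}, Measurable H → (∀ p ∈ Sq, |H p| ≤ L) →
        IntervalIntegrable (fun y => H (x, y)) volume 0 1 := by
      intro H L hH hL
      rw [intervalIntegrable_iff_integrableOn_Ioo_of_le zero_le_one]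
      refine Measure.integrableOn_of_bounded (by simp)
        (hH.comp measurable_prodMk_left).aestronglyMeasurable (M := L) ?_
      exact (ae_restrict_iff' measurableSet_Ioo).mpr
        (Filter.Eventually.of_forall fun y hy => hL (x, y) ⟨hx, hy⟩)
    exact wirt_one (f := fun y => G (x, y)) (by fun_prop) (hd x hx) (bd hm hK)
      (bd (hm.pow_const 2) hK2)

theorem wirt_two {G Gx Gy : ℝ × ℝ → ℝ} (hG : Continuous G) (mx : Measurable Gx)
    (my : Measurable Gy) {K : ℝ} (kx : ∀ p ∈ Sq, |Gx p| ≤ K) (ky : ∀ p ∈ Sq, |Gy p| ≤ K)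
    (dx : ∀ y ∈ Ioo (0 : ℝ) 1, ∀ x ∈ Ioo (0 : ℝ) 1,
      HasDerivWithinAt (fun x => G (x, y)) (Gx (x, y)) (Ioi x) x)
    (dy : ∀ x ∈ Ioo (0 : ℝ) 1, ∀ y ∈ Ioo (0 : ℝ) 1,
      HasDerivWithinAt (fun y => G (x, y)) (Gy (x, y)) (Ioi y) y) :
    Real.pi ^ 2 * ∫ p in Sq, (G p - ∫ q in Sq, G q) ^ 2
      ≤ (∫ p in Sq, Gx p ^ 2) + ∫ p in Sq, Gy p ^ 2 := by
  have h1 := wirt_fibre hG my ky dy
  have h2 := wirt_fibre (G := fun p => G p.swap) (G' := fun p => Gx p.swap) (by fun_prop)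
    (mx.comp measurable_swap) (K := K) (fun p hp => kx p.swap ⟨hp.2, hp.1⟩) dx
  have hK2 : ∀ p ∈ Sq, |Gx p ^ 2| ≤ K ^ 2 := by
    intro p hp
    rw [abs_pow]
    exact pow_le_pow_left₀ (abs_nonneg _) (kx p hp) 2
  have e0 : ∫ p in Sq, Gx p.swap ^ 2 = ∫ p in Sq, Gx p ^ 2 := by
    rw [Sq_iter' (integrableOn_Sq_of_bound (mx.pow_const 2) hK2),
      Sq_iter (F := fun p => Gx p.swap ^ 2)
        (integrableOn_Sq_of_bound ((mx.comp measurable_swap).pow_const 2)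
        (fun p hp => hK2 p.swap ⟨hp.2, hp.1⟩))]
    rfl
  rw [e0] at h2
  simp only [Prod.swap_prod_mk] at h2
  set m := ∫ q in Sq, G q with hm
  have c1 : Continuous fun x => ∫ z in (0 : ℝ)..1, G (x, z) :=
    continuous_parametric_intervalIntegral_of_continuous' (by fun_prop) 0 1
  have c1' : Continuous fun y => ∫ z in (0 : ℝ)..1, G (z, y) :=
    continuous_parametric_intervalIntegral_of_continuous' (by fun_prop) 0 1
  have c2 : Continuous fun x =>
      ∫ y in (0 : ℝ)..1, (G (x, y) - ∫ z in (0 : ℝ)..1, G (x, z)) ^ 2 :=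
    continuous_parametric_intervalIntegral_of_continuous' (by fun_prop) 0 1
  have c3 : Continuous fun x =>
      ∫ y in (0 : ℝ)..1, (G (x, y) - ∫ z in (0 : ℝ)..1, G (z, y)) ^ 2 :=
    continuous_parametric_intervalIntegral_of_continuous' (by fun_prop) 0 1
  have e1 : ∫ p in Sq, (G p - m) ^ 2
      = (∫ x in (0 : ℝ)..1, ∫ y in (0 : ℝ)..1, (G (x, y) - ∫ z in (0 : ℝ)..1, G (x, z)) ^ 2)
        + ∫ x in (0 : ℝ)..1, ((∫ z in (0 : ℝ)..1, G (x, z)) - m) ^ 2 := by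
    rw [Sq_iter (integrableOn_Sq (by fun_prop)), ← intervalIntegral.integral_add
      (c2.intervalIntegrable _ _) (Continuous.intervalIntegrable (by fun_prop) _ _)]
    congr 1
    funext x
    exact var_split (f := fun y => G (x, y)) (by fun_prop) m
  have e2 : ∫ x in (0 : ℝ)..1, ((∫ z in (0 : ℝ)..1, G (x, z)) - m) ^ 2
      ≤ ∫ x in (0 : ℝ)..1, ∫ y in (0 : ℝ)..1, (G (x, y) - ∫ z in (0 : ℝ)..1, G (z, y)) ^ 2 := by
    apply intervalIntegral.integral_mono_on zero_le_one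
      (Continuous.intervalIntegrable (by fun_prop) _ _) (c3.intervalIntegrable _ _)
    intro x _
    have := sq_integral_le (f := fun y => G (x, y) - ∫ z in (0 : ℝ)..1, G (z, y)) (by fun_prop)
    rw [intervalIntegral.integral_sub (Continuous.intervalIntegrable (by fun_prop) _ _)
      (c1'.intervalIntegrable _ _), ← Sq_iter' (integrableOn_Sq hG)] at this
    exact this
  have e3 : ∫ x in (0 : ℝ)..1, ∫ y in (0 : ℝ)..1, (G (x, y) - ∫ z in (0 : ℝ)..1, G (z, y)) ^ 2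
      = ∫ y in (0 : ℝ)..1, ∫ x in (0 : ℝ)..1, (G (x, y) - ∫ z in (0 : ℝ)..1, G (z, y)) ^ 2 := by
    have hc : Continuous fun p : ℝ × ℝ => (G p - ∫ z in (0 : ℝ)..1, G (z, p.2)) ^ 2 := by fun_prop
    rw [← Sq_iter (integrableOn_Sq hc), ← Sq_iter' (integrableOn_Sq hc)]
  rw [e3] at e2
  have hp : 0 ≤ Real.pi ^ 2 := by positivity
  have e4 := mul_le_mul_of_nonneg_left e2 hp
  rw [e1]
  linarith

end Pool.Agent.MP_da42b8_an

end MrgPart3

-- ======== part 4: formerly Pool.Agent.MP_da42b8_an.Poinc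
section MrgPart4

/-!
Affine changes of variables and a Poincare inequality for two glued triangles.
-/

set_option autoImplicit false

namespace Pool.Agent.MP_da42b8_an

open MeasureTheory Set Filter Topology

/-- An affine map of the plane. -/
def aff (a0 b0 a b c d : ℝ) (p : ℝ × ℝ) : ℝ × ℝ := (a0 + a * p.1 + b * p.2, b0 + c * p.1 + d * p.2)

theorem aff_inj {a0 b0 a b c d : ℝ} (h : a * d - b * c ≠ 0) :
    Function.Injective (aff a0 b0 a b c d) := by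
  rintro ⟨x, y⟩ ⟨x', y'⟩ he
  simp only [aff, Prod.mk.injEq] at he ⊢
  obtain ⟨e1, e2⟩ := he
  constructor
  · apply mul_left_cancel₀ h
    linear_combination d * e1 - b * e2
  · apply mul_left_cancel₀ h
    linear_combination a * e2 - c * e1

theorem integral_aff {a0 b0 a b c d : ℝ} (h : a * d - b * c ≠ 0) {s : Set (ℝ × ℝ)}
    (hs : MeasurableSet s) (F : ℝ × ℝ → ℝ) :
    ∫ x in aff a0 b0 a b c d '' s, F x = |a * d - b * c| * ∫ p in s, F (aff a0 b0 a b c d p) := by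
  have hd : ∀ p, HasFDerivAt (aff a0 b0 a b c d)
      (Matrix.toLin (.finTwoProd ℝ) (.finTwoProd ℝ) !![a, b; c, d]).toContinuousLinearMap p := by
    intro p
    rw [Matrix.toLin_finTwoProd_toContinuousLinearMap]
    exact HasFDerivAt.prodMk (𝕜 := ℝ)
      (((hasFDerivAt_fst.const_mul a).const_add a0).add (hasFDerivAt_snd.const_mul b))
      (((hasFDerivAt_fst.const_mul c).const_add b0).add (hasFDerivAt_snd.const_mul d))
  rw [integral_image_eq_integral_abs_det_fderiv_smul volume hs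
    (fun p _ => (hd p).hasFDerivWithinAt) (aff_inj h).injOn, ← integral_const_mul]
  simp only [LinearMap.det_toContinuousLinearMap, LinearMap.det_toLin, Matrix.det_fin_two_of,
    smul_eq_mul]

theorem split_line {S : Set (ℝ × ℝ)} (hS : MeasurableSet S) {F : ℝ × ℝ → ℝ}
    (hF : IntegrableOn F S) (a : ℝ) :
    ∫ p in S, F p = (∫ p in S ∩ {p | 0 < a * p.1 + p.2}, F p)
      + ∫ p in S ∩ {p | a * p.1 + p.2 < 0}, F p := by
  have m1 : MeasurableSet {p : ℝ × ℝ | 0 < a * p.1 + p.2} :=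
    (isOpen_lt (by fun_prop) (by fun_prop)).measurableSet
  have m2 : MeasurableSet {p : ℝ × ℝ | a * p.1 + p.2 < 0} :=
    (isOpen_lt (by fun_prop) (by fun_prop)).measurableSet
  rw [← setIntegral_union _ (hS.inter m2) (hF.mono_set inter_subset_left)
    (hF.mono_set inter_subset_left)]
  · apply setIntegral_congr_set
    have B : volume (LinearMap.ker (a • LinearMap.fst ℝ ℝ ℝ + LinearMap.snd ℝ ℝ ℝ)
        : Set (ℝ × ℝ)) = 0 := by
      apply Measure.addHaar_submodule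
      rw [Ne, LinearMap.ker_eq_top]
      intro h
      have := LinearMap.congr_fun h (0, 1)
      simp at this
    have : ∀ᵐ p : ℝ × ℝ, a * p.1 + p.2 ≠ 0 := by
      rw [ae_iff]
      convert B using 2
      ext p
      simp
    filter_upwards [this] with p hp
    apply propext
    change p ∈ S ↔ p ∈ S ∩ _ ∪ S ∩ _
    simp only [mem_union, mem_inter_iff, mem_ofPred_eq]
    rcases lt_or_gt_of_ne hp with h | h <;> tauto
  · rw [Set.disjoint_left]
    rintro p ⟨-, h1⟩ ⟨-, h2⟩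
    simp only [mem_ofPred_eq] at h1 h2
    linarith

theorem Sq_halves {F F1 F2 : ℝ × ℝ → ℝ} (hF : IntegrableOn F Sq)
    (h1 : ∀ p : ℝ × ℝ, p.2 < p.1 → F p = F1 (p.1 + p.2 - 1, p.1 - p.2))
    (h2 : ∀ p : ℝ × ℝ, p.1 < p.2 → F p = F2 (p.1 + p.2 - 1, p.2 - p.1)) :
    2 * ∫ p in Sq, F p = IT F1 + IT F2 := by
  have m1 : MeasurableSet (Sq ∩ {p : ℝ × ℝ | 0 < -1 * p.1 + p.2}) :=
    measurableSet_Sq.inter (isOpen_lt (by fun_prop) (by fun_prop)).measurableSet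
  have m2 : MeasurableSet (Sq ∩ {p : ℝ × ℝ | -1 * p.1 + p.2 < 0}) :=
    measurableSet_Sq.inter (isOpen_lt (by fun_prop) (by fun_prop)).measurableSet
  have e1 : aff (-1) 0 1 1 (-1) 1 '' (Sq ∩ {p : ℝ × ℝ | 0 < -1 * p.1 + p.2}) = Tri := by
    ext ⟨s, n⟩
    simp only [mem_image, aff, Sq, Tri, mem_inter_iff, mem_prod, mem_Ioo, mem_ofPred_eq,
      Prod.mk.injEq, Prod.exists]
    constructor
    · rintro ⟨x, y, ⟨⟨⟨a1, a2⟩, a3, a4⟩, a5⟩, rfl, rfl⟩
      refine ⟨?_, ?_, ?_⟩ <;> linarith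
    · rintro ⟨a1, a2, a3⟩
      refine ⟨(s + 1 - n) / 2, (s + 1 + n) / 2, ⟨⟨⟨?_, ?_⟩, ?_, ?_⟩, ?_⟩, ?_, ?_⟩ <;> linarith
  have e2 : aff (-1) 0 1 1 1 (-1) '' (Sq ∩ {p : ℝ × ℝ | -1 * p.1 + p.2 < 0}) = Tri := by
    ext ⟨s, n⟩
    simp only [mem_image, aff, Sq, Tri, mem_inter_iff, mem_prod, mem_Ioo, mem_ofPred_eq,
      Prod.mk.injEq, Prod.exists]
    constructor
    · rintro ⟨x, y, ⟨⟨⟨a1, a2⟩, a3, a4⟩, a5⟩, rfl, rfl⟩
      refine ⟨?_, ?_, ?_⟩ <;> linarith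
    · rintro ⟨a1, a2, a3⟩
      refine ⟨(s + 1 + n) / 2, (s + 1 - n) / 2, ⟨⟨⟨?_, ?_⟩, ?_, ?_⟩, ?_⟩, ?_, ?_⟩ <;> linarith
  unfold IT
  rw [split_line measurableSet_Sq hF (-1)]
  conv_rhs => rw [← e2, integral_aff (by norm_num) m2, e2, ← e1, integral_aff (by norm_num) m1]
  rw [setIntegral_congr_fun m1 (g := fun p => F2 (aff (-1) 0 1 1 (-1) 1 p)),
    setIntegral_congr_fun m2 (g := fun p => F1 (aff (-1) 0 1 1 1 (-1) p))]
  · norm_num
    ring
  · rintro p ⟨-, hp⟩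
    simp only [mem_ofPred_eq] at hp
    rw [h1 p (by linarith)]
    simp only [aff]
    congr 2 <;> ring
  · rintro p ⟨-, hp⟩
    simp only [mem_ofPred_eq] at hp
    rw [h2 p (by linarith)]
    simp only [aff]
    congr 2 <;> ring

theorem C1.line (u : C1) (a b c d x : ℝ) :
    HasDerivAt (fun x => u.f (a + b * x, c + d * x))
      (b * u.fs (a + b * x, c + d * x) + d * u.fn (a + b * x, c + d * x)) x := by
  have h1 : HasDerivAt (fun x : ℝ => (a + b * x, c + d * x)) (b, d) x := by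
    have := (((hasDerivAt_id' x).const_mul b).const_add a).prodMk
      (((hasDerivAt_id' x).const_mul d).const_add c)
    simpa using this
  refine HasDerivAt.congr_deriv ((u.hd _).comp_hasDerivAt x h1) ?_
  simp
  ring

theorem poinc_ref (u w : C1) (h : ∀ s, u.f (s, 0) = w.f (s, 0)) : ∃ m : ℝ,
    Real.pi ^ 2 * (IT (fun p => (u.f p - m) ^ 2) + IT (fun p => (w.f p - m) ^ 2))
      ≤ 2 * (IT (fun p => u.fs p ^ 2 + u.fn p ^ 2) + IT (fun p => w.fs p ^ 2 + w.fn p ^ 2)) := by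
  classical
  let G : ℝ × ℝ → ℝ := fun p =>
    if p.2 ≤ p.1 then u.f (p.1 + p.2 - 1, p.1 - p.2) else w.f (p.1 + p.2 - 1, p.2 - p.1)
  let Gx : ℝ × ℝ → ℝ := fun p =>
    if p.2 ≤ p.1 then u.fs (p.1 + p.2 - 1, p.1 - p.2) + u.fn (p.1 + p.2 - 1, p.1 - p.2)
    else w.fs (p.1 + p.2 - 1, p.2 - p.1) - w.fn (p.1 + p.2 - 1, p.2 - p.1)
  let Gy : ℝ × ℝ → ℝ := fun p =>
    if p.1 ≤ p.2 then w.fs (p.1 + p.2 - 1, p.2 - p.1) + w.fn (p.1 + p.2 - 1, p.2 - p.1)
    else u.fs (p.1 + p.2 - 1, p.1 - p.2) - u.fn (p.1 + p.2 - 1, p.1 - p.2)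
  have hG : Continuous G := by
    refine Continuous.if_le (by fun_prop) (by fun_prop) continuous_snd continuous_fst ?_
    intro p hp
    rw [hp, sub_self, h]
  have mx : Measurable Gx :=
    Measurable.ite (measurableSet_le measurable_snd measurable_fst)
      (Continuous.measurable (by fun_prop)) (Continuous.measurable (by fun_prop))
  have my : Measurable Gy :=
    Measurable.ite (measurableSet_le measurable_fst measurable_snd)
      (Continuous.measurable (by fun_prop)) (Continuous.measurable (by fun_prop))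
  obtain ⟨K, hK⟩ := bound_Tri u.cjet
  obtain ⟨L, hL⟩ := bound_Tri w.cjet
  have hb : ∀ p ∈ Sq, ∀ x y, (x = p.1 ∧ y = p.2 ∨ x = p.2 ∧ y = p.1) → y ≤ x →
      (|u.fs (p.1 + p.2 - 1, x - y)| ≤ K + L ∧ |u.fn (p.1 + p.2 - 1, x - y)| ≤ K + L) ∧
      |w.fs (p.1 + p.2 - 1, x - y)| ≤ K + L ∧ |w.fn (p.1 + p.2 - 1, x - y)| ≤ K + L := by
    rintro p ⟨⟨a1, a2⟩, a3, a4⟩ x y hxy hle
    have m : (p.1 + p.2 - 1, x - y) ∈ Icc ((-1 : ℝ), (0 : ℝ)) (1, 1) := by
      simp only [mem_Icc, Prod.mk_le_mk]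
      rcases hxy with ⟨rfl, rfl⟩ | ⟨rfl, rfl⟩ <;> refine ⟨⟨?_, ?_⟩, ?_, ?_⟩ <;> linarith
    have b1 := hK _ m
    have b2 := hL _ m
    simp only [C1.jet, norm_prod_le_iff, Real.norm_eq_abs] at b1 b2
    have hK0 : 0 ≤ K := (abs_nonneg _).trans b1.1
    have hL0 : 0 ≤ L := (abs_nonneg _).trans b2.1
    exact ⟨⟨by linarith [b1.2.1], by linarith [b1.2.2]⟩, by linarith [b2.2.1], by linarith [b2.2.2]⟩
  have kx : ∀ p ∈ Sq, |Gx p| ≤ (K + L) + (K + L) := by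
    intro p hp
    simp only [Gx]
    split_ifs with hc
    · have := (hb p hp _ _ (Or.inl ⟨rfl, rfl⟩) hc).1
      exact (abs_add_le _ _).trans (add_le_add this.1 this.2)
    · have := (hb p hp _ _ (Or.inr ⟨rfl, rfl⟩) (le_of_not_ge hc)).2
      exact (abs_sub _ _).trans (add_le_add this.1 this.2)
  have ky : ∀ p ∈ Sq, |Gy p| ≤ (K + L) + (K + L) := by
    intro p hp
    simp only [Gy]
    split_ifs with hc
    · have := (hb p hp _ _ (Or.inr ⟨rfl, rfl⟩) hc).2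
      exact (abs_add_le _ _).trans (add_le_add this.1 this.2)
    · have := (hb p hp _ _ (Or.inl ⟨rfl, rfl⟩) (le_of_not_ge hc)).1
      exact (abs_sub _ _).trans (add_le_add this.1 this.2)
  have hW := wirt_two hG mx my kx ky ?_ ?_
  · refine ⟨∫ q in Sq, G q, ?_⟩
    have sq2 : ∀ {H : ℝ × ℝ → ℝ}, Measurable H → (∀ p ∈ Sq, |H p| ≤ (K + L) + (K + L)) →
        IntegrableOn (fun p => H p ^ 2) Sq := by
      intro H hH hk
      refine integrableOn_Sq_of_bound (hH.pow_const 2) (K := ((K + L) + (K + L)) ^ 2) ?_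
      intro p hp
      rw [abs_pow]
      exact pow_le_pow_left₀ (abs_nonneg _) (hk p hp) 2
    rw [← Sq_halves (F := fun p => (G p - ∫ q in Sq, G q) ^ 2) (integrableOn_Sq (by fun_prop))
      (fun p hp => by simp only [G, if_pos hp.le]) (fun p hp => by simp only [G, if_neg hp.not_ge])]
    rw [← integral_add (sq2 mx kx) (sq2 my ky)] at hW
    have e := Sq_halves (F := fun p => Gx p ^ 2 + Gy p ^ 2)
      (F1 := fun p => 2 * (u.fs p ^ 2 + u.fn p ^ 2)) (F2 := fun p => 2 * (w.fs p ^ 2 + w.fn p ^ 2))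
      ((sq2 mx kx).add (sq2 my ky))
      (fun p hp => by simp only [Gx, Gy, if_pos hp.le, if_neg hp.not_ge]; ring)
      (fun p hp => by simp only [Gx, Gy, if_pos hp.le, if_neg hp.not_ge]; ring)
    rw [IT_cmul, IT_cmul] at e
    linarith
  · intro y _ x _
    by_cases hc : y ≤ x
    · have e1 := (u.line (y - 1) 1 (-y) 1 x).hasDerivWithinAt (s := Ioi x)
      have e2 : ∀ z : ℝ, (y - 1 + 1 * z, -y + 1 * z) = (z + y - 1, z - y) := fun z => by
        ext <;> simp <;> ring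
      simp only [e2] at e1
      simp only [one_mul] at e1
      simp only [Gx, if_pos hc]
      refine e1.congr ?_ ?_
      · intro z hz
        simp only [G, if_pos (hc.trans (le_of_lt hz))]
      · simp only [G, if_pos hc]
    · have e1 := (w.line (y - 1) 1 y (-1) x).hasDerivWithinAt (s := Ioi x)
      have e2 : ∀ z : ℝ, (y - 1 + 1 * z, y + -1 * z) = (z + y - 1, y - z) := fun z => by
        ext <;> simp <;> ring
      simp only [e2] at e1
      simp only [one_mul, neg_one_mul, ← sub_eq_add_neg] at e1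
      simp only [Gx, if_neg hc]
      refine e1.congr_of_eventuallyEq ?_ ?_
      · filter_upwards [nhdsWithin_le_nhds (Iio_mem_nhds (lt_of_not_ge hc))] with z hz
        simp only [G, if_neg (not_le.mpr (mem_Iio.mp hz))]
      · simp only [G, if_neg hc]
  · intro x _ y _
    by_cases hc : x ≤ y
    · have e1 := (w.line (x - 1) 1 (-x) 1 y).hasDerivWithinAt (s := Ioi y)
      have e2 : ∀ z : ℝ, (x - 1 + 1 * z, -x + 1 * z) = (x + z - 1, z - x) := fun z => by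
        ext <;> simp <;> ring
      simp only [e2] at e1
      simp only [one_mul] at e1
      simp only [Gy, if_pos hc]
      refine e1.congr ?_ ?_
      · intro z hz
        simp only [G, if_neg (not_le.mpr (hc.trans_lt hz))]
      · simp only [G]
        split_ifs with hc'
        · rw [le_antisymm hc hc', sub_self, h]
        · rfl
    · have e1 := (u.line (x - 1) 1 x (-1) y).hasDerivWithinAt (s := Ioi y)
      have e2 : ∀ z : ℝ, (x - 1 + 1 * z, x + -1 * z) = (x + z - 1, x - z) := fun z => by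
        ext <;> simp <;> ring
      simp only [e2] at e1
      simp only [one_mul, neg_one_mul, ← sub_eq_add_neg] at e1
      simp only [Gy, if_neg hc]
      refine e1.congr_of_eventuallyEq ?_ ?_
      · filter_upwards [nhdsWithin_le_nhds (Iio_mem_nhds (lt_of_not_ge hc))] with z hz
        simp only [G, if_pos (le_of_lt (mem_Iio.mp hz))]
      · simp only [G, if_pos (le_of_not_ge hc)]

theorem energy_le {h : ℝ} (hh : 0 < h) (t : ℝ) (u : C1) :
    IT (fun p => u.fs p ^ 2 + u.fn p ^ 2) ≤ ((1 + 2 * t ^ 2) / h + 2 * h) * Nq h t u u 1 0 := by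
  unfold Nq
  rw [← IT_cmul]
  apply IT_mono (by fun_prop) (by fun_prop)
  intro p
  generalize u.fs p = A
  generalize u.fn p = B
  have e : ((1 + 2 * t ^ 2) / h + 2 * h) * (h * (1 * A + 0 * A) ^ 2
      + h⁻¹ * (1 * B + 0 * B - t * (1 * A + 0 * A)) ^ 2)
      = (1 + 2 * t ^ 2) * A ^ 2 + 2 * (B - t * A) ^ 2
        + (2 * h ^ 2 * A ^ 2 + (1 + 2 * t ^ 2) / h ^ 2 * (B - t * A) ^ 2) := by
    field_simp
    ring
  rw [e]
  have : 0 ≤ 2 * h ^ 2 * A ^ 2 + (1 + 2 * t ^ 2) / h ^ 2 * (B - t * A) ^ 2 := by positivity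
  nlinarith [sq_nonneg (B - 2 * t * A)]

theorem poinc_pair {h1 h2 : ℝ} (p1 : 0 < h1) (p2 : 0 < h2) (t1 t2 : ℝ) :
    ∃ c : ℝ, 0 < c ∧ ∀ u w : C1, (∀ s, u.f (s, 0) = w.f (s, 0)) →
      Bq h1 u u 1 0 + Bq h2 w w 1 0 = 0 →
      c * (Dq h1 u u 0 1 0 + Dq h2 w w 0 1 0) ≤ Nq h1 t1 u u 1 0 + Nq h2 t2 w w 1 0 := by
  set K1 := (1 + 2 * t1 ^ 2) / h1 + 2 * h1 with hK1
  set K2 := (1 + 2 * t2 ^ 2) / h2 + 2 * h2 with hK2
  have k1 : 0 < K1 := by positivity
  have k2 : 0 < K2 := by positivity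
  have hpi : 0 < Real.pi ^ 2 := by positivity
  refine ⟨Real.pi ^ 2 / (2 * (K1 + K2) * (h1 + h2)), by positivity, fun u w h hB => ?_⟩
  obtain ⟨m, hm⟩ := poinc_ref u w h
  have e1 := energy_le p1 t1 u
  have e2 := energy_le p2 t2 w
  have n1 := Nq_nonneg p1 t1 u u 1 0
  have n2 := Nq_nonneg p2 t2 w w 1 0
  have d1 := Dq_split h1 u u (-m) 1 0
  have d2 := Dq_split h2 w w (-m) 1 0
  have f1 : Dq h1 u u (-m) 1 0 = h1 * IT (fun p => (u.f p - m) ^ 2) := by
    unfold Dq; congr 2; funext p; ring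
  have f2 : Dq h2 w w (-m) 1 0 = h2 * IT (fun p => (w.f p - m) ^ 2) := by
    unfold Dq; congr 2; funext p; ring
  have i1 : 0 ≤ IT (fun p => (u.f p - m) ^ 2) := IT_nonneg fun p => sq_nonneg _
  have i2 : 0 ≤ IT (fun p => (w.f p - m) ^ 2) := IT_nonneg fun p => sq_nonneg _
  have g1 : Dq h1 u u 0 1 0 + Dq h2 w w 0 1 0
      ≤ (h1 + h2) * (IT (fun p => (u.f p - m) ^ 2) + IT (fun p => (w.f p - m) ^ 2)) := by
    have : 2 * -m * Bq h1 u u 1 0 + 2 * -m * Bq h2 w w 1 0 = 0 := by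
      rw [← mul_add, hB, mul_zero]
    nlinarith [mul_nonneg p1.le (sq_nonneg (-m)), mul_nonneg p2.le (sq_nonneg (-m)),
      mul_nonneg p1.le i2, mul_nonneg p2.le i1]
  rw [div_mul_eq_mul_div, div_le_iff₀ (by positivity)]
  have g2 := mul_le_mul_of_nonneg_left g1 hpi.le
  have g3 := mul_le_mul_of_nonneg_left hm (by positivity : 0 ≤ h1 + h2)
  have g4 : IT (fun p => u.fs p ^ 2 + u.fn p ^ 2) + IT (fun p => w.fs p ^ 2 + w.fn p ^ 2)
      ≤ (K1 + K2) * (Nq h1 t1 u u 1 0 + Nq h2 t2 w w 1 0) := by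
    nlinarith [mul_nonneg k1.le n2, mul_nonneg k2.le n1]
  have g5 := mul_le_mul_of_nonneg_left g4 (by positivity : 0 ≤ 2 * (h1 + h2))
  nlinarith

end Pool.Agent.MP_da42b8_an

end MrgPart4

-- ======== part 5: formerly Pool.Agent.MP_da42b8_an.Sound
section MrgPart5

/-!
Soundness of the box, thin and linear cell tests.
-/

set_option autoImplicit false

namespace Pool.Agent.MP_da42b8_an

open IV

noncomputable def R3.toV (x : R3) : V3 := ⟨x.a.val / 4096, x.b.val / 4096, x.c.val / 4096⟩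
noncomputable def Fn.toR (u : Fn) : RF := ⟨u.r0.toV, u.r1.toV, u.r2.toV⟩
noncomputable def R3.pv (x : R3) : ℝ :=
  (x.a.val + x.b.val * yy + x.c.val * yy ^ 2) / (24 * 16777216)

theorem mem_pv (x : R3) : (toIV x).Mem x.pv := mem_toIV x

theorem pv_add (x y : R3) : (x.add y).pv = x.pv + y.pv := by
  simp only [R3.pv, R3.add, ZZ.val_add]; ring

theorem pv_Bf (u v : Fn) : (Bf u v).pv = BR u.toR v.toR := by
  simp only [R3.pv, Bf, R3.add, t00, t02, t11, t22, sym, S6.add, ZZ.val_add, ZZ.val_mul,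
    ZZ.val_smul, ZZ.val_neg, ZZ.val_zero, BR, vL, vC, vS, Fn.toR, R3.toV]
  push_cast
  ring

theorem pv_Pf (u v : Fn) : (Pf u v).pv = BR u.toR.ds v.toR.ds := by
  simp only [R3.pv, Pf, R3.add, t11, t22, sym, ZZ.val_add, ZZ.val_mul,
    ZZ.val_smul, ZZ.val_neg, BR, vL, vC, vS, Fn.toR, R3.toV, RF.ds, V3.neg]
  push_cast
  ring

theorem pv_Sf (u w : Fn) : (Sf u w).pv = BR u.toR.ds w.toR := by
  simp only [R3.pv, Sf, R3.add, R3.neg, t02, t11, t22, sym, ZZ.val_add, ZZ.val_mul,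
    ZZ.val_smul, ZZ.val_neg, ZZ.val_zero, BR, vL, vC, vS, Fn.toR, R3.toV, RF.ds, V3.neg]
  push_cast
  ring

theorem toR_dn (u : Fn) : u.dn.toR = u.toR.dn := by
  simp [Fn.toR, Fn.dn, R3.dn, R3.toV, RF.dn, V3.dn, neg_div]

theorem toR_e0 : e0.toR = rE0 := by
  simp [Fn.toR, e0, R3.toV, rE0, ZZ.val_mk]

/-- Enclosure of Gram numbers. -/
structure GR.Mem (G : GR) (g : GN) : Prop where
  P : G.P.Mem g.P
  Q : G.Q.Mem g.Q
  R : G.R.Mem g.R
  B11 : G.B11.Mem g.B11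
  B12 : G.B12.Mem g.B12
  B22 : G.B22.Mem g.B22
  m1 : G.m1.Mem g.m1
  m2 : G.m2.Mem g.m2

theorem IV.Mem.smul2 {a : IV} {x : ℝ} (h : a.Mem x) : (a.smul 2).Mem (2 * x) := by
  simpa using h.smul 2
theorem IV.Mem.smul3 {a : IV} {x : ℝ} (h : a.Mem x) : (a.smul 3).Mem (3 * x) := by
  simpa using h.smul 3
theorem IV.Mem.smul4 {a : IV} {x : ℝ} (h : a.Mem x) : (a.smul 4).Mem (4 * x) := by
  simpa using h.smul 4
theorem IV.Mem.smul6 {a : IV} {x : ℝ} (h : a.Mem x) : (a.smul 6).Mem (6 * x) := by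
  simpa using h.smul 6
theorem IV.Mem.smul12 {a : IV} {x : ℝ} (h : a.Mem x) : (a.smul 12).Mem (12 * x) := by
  simpa using h.smul 12
theorem IV.Mem.smul108 {a : IV} {x : ℝ} (h : a.Mem x) : (a.smul 108).Mem (108 * x) := by
  simpa using h.smul 108
theorem IV.Mem.congr {a : IV} {x y : ℝ} (h : a.Mem x) (e : x = y) : a.Mem y := e ▸ h

theorem mem_gramD (u v : Fn) : (gramD u v).Mem (gramR u.toR v.toR) where
  P := (mem_pv _).congr (by simp only [pv_add, pv_Pf, gramR])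
  Q := (mem_pv _).congr (by simp only [pv_add, pv_Bf, toR_dn, gramR])
  R := (mem_pv _).smul2.congr (by simp only [pv_add, pv_Sf, toR_dn, gramR])
  B11 := (mem_pv _).congr (by simp only [pv_Bf, gramR])
  B12 := (mem_pv _).congr (by simp only [pv_Bf, gramR])
  B22 := (mem_pv _).congr (by simp only [pv_Bf, gramR])
  m1 := (mem_pv _).congr (by simp only [pv_Bf, toR_e0, gramR])
  m2 := (mem_pv _).congr (by simp only [pv_Bf, toR_e0, gramR])

theorem mkRows_trace (a1 a2 c01 c02 c11 c12 c21 c22 : ZZ) (s : ℝ) :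
    (mkRows a1 a2 c01 c02 c11 c12 c21 c22).toR.ev (s, 0)
      = a1.val / 4096 * Real.sin (kk * s) + a2.val / 4096 * Real.cos (kk * s) := by
  simp [mkRows, Fn.toR, R3.toV, RF.ev, V3.ev]
  ring

theorem mkFn_trace (d o s : ℕ) (x : ℝ) :
    (mkFn d o s).toR.ev (x, 0) = (fld d o).val / 4096 * Real.sin (kk * x)
      + (fld d (Nat.add o 1)).val / 4096 * Real.cos (kk * x) := mkRows_trace ..

theorem and_true_iff' {a b : Bool} (h : (a && b) = true) : a = true ∧ b = true := by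
  simpa using h

theorem vtx_sound {M11 M12 M22 T : IV} {m11 m12 m22 τ : ℝ} {N : ℝ → ℝ → ℝ → ℝ}
    (h1 : M11.Mem m11) (h2 : M12.Mem m12) (h3 : M22.Mem m22) (h4 : T.Mem τ)
    (h : vtx M11 M12 M22 T = true)
    (hN : ∀ c z1 z2, m11 * z1 ^ 2 + 2 * m12 * z1 * z2 + m22 * z2 ^ 2 ≤ 2 * N c z1 z2) :
    YOK N τ := by
  obtain ⟨a, b⟩ := and_true_iff' h
  obtain ⟨b, c⟩ := and_true_iff' b
  have d := (h1.mul h3).sub (h2.mul h2)
  have e := (h4.mul h4).sub (h1.add h3)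
  exact YOK_of_vtx (h1.pos a) (d.pos b) ((d.smul4.sub (e.mul e)).nonneg c) hN

theorem NB_lower (g1 g2 : GN) {h1 h2 n1 n2 : ℝ} (hH : 0 < h1 + h2)
    (e1 : n1 = h1 * g1.m1 + h2 * g2.m1) (e2 : n2 = h1 * g1.m2 + h2 * g2.m2) (c z1 z2 : ℝ) :
    2 * (h1 * g1.B11 + h2 * g2.B11 - n1 * (n1 * (h1 + h2)⁻¹)) * z1 ^ 2
      + 2 * (2 * (h1 * g1.B12 + h2 * g2.B12 - n1 * (n2 * (h1 + h2)⁻¹))) * z1 * z2
      + 2 * (h1 * g1.B22 + h2 * g2.B22 - n2 * (n2 * (h1 + h2)⁻¹)) * z2 ^ 2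
      ≤ 2 * NB g1 g2 h1 h2 c z1 z2 := by
  have : 2 * NB g1 g2 h1 h2 c z1 z2
      - (2 * (h1 * g1.B11 + h2 * g2.B11 - n1 * (n1 * (h1 + h2)⁻¹)) * z1 ^ 2
      + 2 * (2 * (h1 * g1.B12 + h2 * g2.B12 - n1 * (n2 * (h1 + h2)⁻¹))) * z1 * z2
      + 2 * (h1 * g1.B22 + h2 * g2.B22 - n2 * (n2 * (h1 + h2)⁻¹)) * z2 ^ 2)
      = 2 * (((h1 + h2) * c + (n1 * z1 + n2 * z2)) ^ 2 * (h1 + h2)⁻¹) := by
    unfold NB GN.quad
    rw [e1, e2]
    field_simp
    ring
  have h0 : 0 ≤ 2 * (((h1 + h2) * c + (n1 * z1 + n2 * z2)) ^ 2 * (h1 + h2)⁻¹) := by positivity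
  linarith

theorem vtxD_sound {x y : GR} {g1 g2 : GN} (hx : x.Mem g1) (hy : y.Mem g2)
    {H1 H2 A1 A2 : IV} {h1 h2 a1 a2 : ℝ} (m1 : H1.Mem h1) (m2 : H2.Mem h2) (m3 : A1.Mem a1)
    (m4 : A2.Mem a2) (h : vtxD x y H1 H2 A1 A2 = true) :
    YOK (NB g1 g2 h1 h2) ((a1 + a2 + (h1 + h2)) / 2) := by
  obtain ⟨a, b⟩ := and_true_iff' h
  have mH := m1.add m2
  have mi := mH.inv a
  have n1 := (m1.mul hx.m1).add (m2.mul hy.m1)
  have n2 := (m1.mul hx.m2).add (m2.mul hy.m2)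
  exact vtx_sound (((m1.mul hx.B11).add (m2.mul hy.B11)).sub (n1.mul (n1.mul mi))).smul2
    (((m1.mul hx.B12).add (m2.mul hy.B12)).sub (n1.mul (n2.mul mi))).smul2
    (((m1.mul hx.B22).add (m2.mul hy.B22)).sub (n2.mul (n2.mul mi))).smul2
    ((m3.add m4).add mH).half b (NB_lower g1 g2 (mH.pos a) rfl rfl)

theorem abarD_sound {x : GR} {g : GN} (hx : x.Mem g) {H : IV} {h : ℝ} (m : H.Mem h)
    (hp : H.pos = true) (bl bh : ZZ) :
    g.al h (bl.val / 67108864) ≤ (abarD x H bl bh).ctr ∧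
      g.al h (bh.val / 67108864) ≤ (abarD x H bl bh).ctr := by
  have key : ∀ b : ZZ, (alphaD x H H.inv (pt b)).Mem (g.al h (b.val / 67108864)) := fun b =>
    (m.mul hx.P).add (((hx.Q.sub ((mem_pt b).mul hx.R)).add
      (((mem_pt b).mul (mem_pt b)).mul hx.P)).mul (m.inv hp))
  exact ⟨(key bl).le_ubmax_left _, (key bh).le_ubmax_right _⟩

/-- Membership of a point in a box. -/
structure Box.Mem (b : Box) (a1 b1 a2 b2 : ℝ) : Prop where
  l0 : b.l0.val / 67108864 ≤ a1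
  u0 : a1 ≤ b.u0.val / 67108864
  l1 : b.l1.val / 67108864 ≤ b1
  u1 : b1 ≤ b.u1.val / 67108864
  l2 : b.l2.val / 67108864 ≤ a2
  u2 : a2 ≤ b.u2.val / 67108864
  l3 : b.l3.val / 67108864 ≤ b2
  u3 : b2 ≤ b.u3.val / 67108864

theorem checkBox_sound {b : Box} {d : ℕ} (h : checkBox b d = true) {a1 b1 a2 b2 : ℝ}
    (hb : b.Mem a1 b1 a2 b2) : Good (1 + a1) b1 (1 + a2) b2 := by
  obtain ⟨p, q⟩ := and_true_iff' h
  obtain ⟨p1, p2⟩ := and_true_iff' p
  obtain ⟨p1, p1'⟩ := and_true_iff' p1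
  obtain ⟨p2, p2'⟩ := and_true_iff' p2
  obtain ⟨q1, q3⟩ := and_true_iff' q
  obtain ⟨q1, q2⟩ := and_true_iff' q1
  obtain ⟨q3, q4⟩ := and_true_iff' q3
  have hx := mem_gramD (mkFn d 0 2) (mkFn d 14 16)
  have hy := mem_gramD (mkFn d 0 8) (mkFn d 14 22)
  have m1 := mem_one.add (mem_pt b.l0)
  have m2 := mem_one.add (mem_pt b.u0)
  have m3 := mem_one.add (mem_pt b.l2)
  have m4 := mem_one.add (mem_pt b.u2)
  have s1 := abarD_sound hx m1 p1 b.l1 b.u1
  have s2 := abarD_sound hx m2 p1' b.l1 b.u1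
  have s3 := abarD_sound hy m3 p2 b.l3 b.u3
  have s4 := abarD_sound hy m4 p2' b.l3 b.u3
  exact good_cell (rep_gramR _ _) (rep_gramR _ _)
    (fun s => (mkFn_trace d 0 2 s).trans (mkFn_trace d 0 8 s).symm)
    (fun s => (mkFn_trace d 14 16 s).trans (mkFn_trace d 14 22 s).symm)
    (m1.pos p1) (m2.pos p1') (m3.pos p2) (m4.pos p2')
    (by linarith [hb.l0]) (by linarith [hb.u0]) hb.l1 hb.u1
    (by linarith [hb.l2]) (by linarith [hb.u2]) hb.l3 hb.u3
    s1.1 s1.2 s2.1 s2.2 s3.1 s3.2 s4.1 s4.2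
    (vtxD_sound hx hy m1 m3 mem_ctr mem_ctr q1) (vtxD_sound hx hy m1 m4 mem_ctr mem_ctr q2)
    (vtxD_sound hx hy m2 m3 mem_ctr mem_ctr q3) (vtxD_sound hx hy m2 m4 mem_ctr mem_ctr q4)

theorem checkL_sound {b : Box} (h : checkL b = true) {a1 b1 a2 b2 : ℝ}
    (hb : b.Mem a1 b1 a2 b2) (p1 : 0 < 1 + a1) (p2 : 0 < 1 + a2) :
    Good (1 + a1) b1 (1 + a2) b2 := by
  have m1 := mem_one.add (mem_hull hb.l0 hb.u0)
  have m2 := mem_one.add (mem_hull hb.l2 hb.u2)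
  have m3 := mem_hull hb.l1 hb.u1
  have m4 := mem_hull hb.l3 hb.u3
  have mH := m1.add m2
  have s1 := (mH.sub mem_y2.smul6).sqlo_le
  have s2 := (m1.sub m2).sqlo_le
  have s3 := ((m1.mul m3).add (m2.mul m4)).sqlo_le
  have s4 := (m3.sub m4).sqlo_le
  have key := (((mH.mul mH).mul ((mem_one.smul12.sub (mem_y2.mul mem_y2).smul108).add
    (mem_ctr.smul3.add mem_ctr))).add
    (mem_ctr.smul4.add ((m1.mul m2).mul mem_ctr).smul12)).nonneg h
  apply good_lin p1 p2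
  refine key.trans ?_
  have hH : 0 ≤ (1 + a1 + (1 + a2)) * (1 + a1 + (1 + a2)) := mul_self_nonneg _
  have h12 : 0 ≤ (1 + a1) * (1 + a2) := (mul_pos p1 p2).le
  gcongr

theorem vtxT_sound {x : GR} {g : GN} (hx : x.Mem g) {H A E : IV} {h a e : ℝ} (m1 : H.Mem h)
    (m2 : A.Mem a) (m3 : E.Mem e) (hp : 0 < h) (hv : vtxT x H A E = true) :
    YOK (fun c z1 z2 => h * g.quad c z1 z2) ((a + h + e) / 2) := by
  refine vtx_sound (m1.mul (hx.B11.sub (hx.m1.mul hx.m1))).smul2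
    (m1.mul (hx.B12.sub (hx.m1.mul hx.m2))).smul2 (m1.mul (hx.B22.sub (hx.m2.mul hx.m2))).smul2
    ((m2.add m1).add m3).half hv ?_
  intro c z1 z2
  have : 0 ≤ h * (c + (z1 * g.m1 + z2 * g.m2)) ^ 2 := by positivity
  unfold GN.quad
  nlinarith

theorem checkThin_sound {b : Box} {d : ℕ} (h : checkThin b d = true) {a1 b1 a2 b2 : ℝ}
    (hb : b.Mem a1 b1 a2 b2) {h2 : ℝ} (t2 : ℝ) (p2 : 0 < h2) (p3 : h2 ≤ 1 / 8) :
    Good (1 + a1) b1 h2 t2 := by
  obtain ⟨p, q⟩ := and_true_iff' h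
  obtain ⟨p1, p1'⟩ := and_true_iff' p
  obtain ⟨q1, q2⟩ := and_true_iff' q
  have hx := mem_gramD (mkFn d 0 2) (mkFn d 14 16)
  have m1 := mem_one.add (mem_pt b.l0)
  have m2 := mem_one.add (mem_pt b.u0)
  have s1 := abarD_sound hx m1 p1 b.l1 b.u1
  have s2 := abarD_sound hx m2 p1' b.l1 b.u1
  set c1 := (fld d 0).val / 4096
  set c2 := (fld d 1).val / 4096
  set c3 := (fld d 14).val / 4096
  set c4 := (fld d 15).val / 4096
  have mK : (thinK (fld d 0) (fld d 1) (fld d 14) (fld d 15)).Mem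
      (c1 * c1 + c2 * c2 + (c3 * c3 + c4 * c4)) := by
    refine (mem_pv _).congr ?_
    simp only [R3.pv, ZZ.val_smul, ZZ.val_add, ZZ.val_mul, ZZ.val_zero, c1, c2, c3, c4]
    push_cast
    ring
  have mE : (⟨8388608, 0, 0⟩ : IV).Mem (1 / 8) := by norm_num [IV.Mem]
  have me := mE.mul (mem_one.add mK)
  refine good_thin (u2 := thinC1 c1 c2 t2) (v2 := thinC1 c3 c4 t2) (rep_gramR _ _) ?_ ?_
    (m1.pos p1) (m2.pos p1') p2 p3
    (add_nonneg (add_nonneg (mul_self_nonneg c1) (mul_self_nonneg c2))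
      (add_nonneg (mul_self_nonneg c3) (mul_self_nonneg c4)))
    (by linarith [hb.l0]) (by linarith [hb.u0]) hb.l1 hb.u1 s1.1 s1.2 s2.1 s2.2
    (thin_energy c1 c2 c3 c4 t2 p2)
    (vtxT_sound hx m1 mem_ctr me (m1.pos p1) q1) (vtxT_sound hx m2 mem_ctr me (m2.pos p1') q2)
  · intro s
    refine (mkFn_trace d 0 2 s).trans ?_
    simp [thinC1, c1, c2]
  · intro s
    refine (mkFn_trace d 14 16 s).trans ?_
    simp [thinC1, c3, c4]

/-- A property holds on the part of a box where `a2 ≤ a1`. -/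
def Cov (Pr : ℝ → ℝ → ℝ → ℝ → Prop) (b : Box) : Prop :=
  ∀ a1 b1 a2 b2, b.Mem a1 b1 a2 b2 → a2 ≤ a1 → Pr a1 b1 a2 b2

theorem Cov.split0 {Pr : ℝ → ℝ → ℝ → ℝ → Prop} {b : Box} (v : ZZ)
    (h1 : Cov Pr { b with u0 := v }) (h2 : Cov Pr { b with l0 := v }) : Cov Pr b := by
  intro a1 b1 a2 b2 hb h
  rcases le_total a1 (v.val / 67108864) with hv | hv
  · exact h1 _ _ _ _ { hb with u0 := hv } h
  · exact h2 _ _ _ _ { hb with l0 := hv } h
theorem Cov.split1 {Pr : ℝ → ℝ → ℝ → ℝ → Prop} {b : Box} (v : ZZ)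
    (h1 : Cov Pr { b with u1 := v }) (h2 : Cov Pr { b with l1 := v }) : Cov Pr b := by
  intro a1 b1 a2 b2 hb h
  rcases le_total b1 (v.val / 67108864) with hv | hv
  · exact h1 _ _ _ _ { hb with u1 := hv } h
  · exact h2 _ _ _ _ { hb with l1 := hv } h
theorem Cov.split2 {Pr : ℝ → ℝ → ℝ → ℝ → Prop} {b : Box} (v : ZZ)
    (h1 : Cov Pr { b with u2 := v }) (h2 : Cov Pr { b with l2 := v }) : Cov Pr b := by
  intro a1 b1 a2 b2 hb h
  rcases le_total a2 (v.val / 67108864) with hv | hv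
  · exact h1 _ _ _ _ { hb with u2 := hv } h
  · exact h2 _ _ _ _ { hb with l2 := hv } h
theorem Cov.split3 {Pr : ℝ → ℝ → ℝ → ℝ → Prop} {b : Box} (v : ZZ)
    (h1 : Cov Pr { b with u3 := v }) (h2 : Cov Pr { b with l3 := v }) : Cov Pr b := by
  intro a1 b1 a2 b2 hb h
  rcases le_total b2 (v.val / 67108864) with hv | hv
  · exact h1 _ _ _ _ { hb with u3 := hv } h
  · exact h2 _ _ _ _ { hb with l3 := hv } h

theorem run_sound {Pr : ℝ → ℝ → ℝ → ℝ → Prop} {leaf : Box → ℕ → Bool} {lf inn : Box → Bool}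
    (h1 : ∀ b d, leaf b d = true → Cov Pr b) (h2 : ∀ b, lf b = true → Cov Pr b)
    (h3 : ∀ b, inn b = true → Cov Pr b) (t : Tr) :
    ∀ b, run leaf lf inn t b = true → Cov Pr b := by
  induction t with
  | s0 v l r ihl ihr =>
    intro b h
    obtain ⟨p, q⟩ := and_true_iff' h
    exact Cov.split0 (sv v) (ihl _ p) (ihr _ q)
  | s1 v l r ihl ihr =>
    intro b h
    obtain ⟨p, q⟩ := and_true_iff' h
    exact Cov.split1 (sv v) (ihl _ p) (ihr _ q)
  | s2 v l r ihl ihr =>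
    intro b h
    obtain ⟨p, q⟩ := and_true_iff' h
    exact Cov.split2 (sv v) (ihl _ p) (ihr _ q)
  | s3 v l r ihl ihr =>
    intro b h
    obtain ⟨p, q⟩ := and_true_iff' h
    exact Cov.split3 (sv v) (ihl _ p) (ihr _ q)
  | d x => exact fun b h => h1 b x h
  | lin => exact fun b h => h2 b h
  | sy =>
    intro b h a1 b1 a2 b2 hb hs
    have : b.u0.val < b.l2.val := ZZ.of_lt h
    have e1 := hb.u0
    have e2 := hb.l2
    exfalso
    linarith
  | inn => exact fun b h => h3 b h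

end Pool.Agent.MP_da42b8_an

end MrgPart5

-- ======== part 6: formerly Pool.Agent.MP_da42b8_an.Cone
section MrgPart6

/-!
Soundness of the cone test near the square.
-/

set_option autoImplicit false

namespace Pool.Agent.MP_da42b8_an

open IV

def V3.axpy (x : V3) (r : ℝ) (y : V3) : V3 := ⟨x.a + r * y.a, x.b + r * y.b, x.c + r * y.c⟩
def RF.axpy (u : RF) (r : ℝ) (w : RF) : RF :=
  ⟨u.r0.axpy r w.r0, u.r1.axpy r w.r1, u.r2.axpy r w.r2⟩
def rS : RF := ⟨⟨0, 0, 0⟩, ⟨0, 0, 1⟩, ⟨0, 0, 0⟩⟩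
def rC (e : ℝ) : RF := ⟨⟨0, 0, 0⟩, ⟨0, 0, 0⟩, ⟨0, e, 0⟩⟩

theorem toR_fS : fS.toR = rS := by
  simp [fS, mkRows, Fn.toR, R3.toV, rS, ZZ.val_mk]
theorem toR_fC : fC.toR = rC 1 := by
  simp [fC, mkRows, Fn.toR, R3.toV, rC, ZZ.val_mk]
theorem toR_fC' : fC'.toR = rC (-1) := by
  simp [fC', mkRows, Fn.toR, R3.toV, rC, ZZ.val_mk]

noncomputable def gramXR (u0 v0 u v : RF) : GN :=
  ⟨2 * (BR u0.ds u.ds + BR v0.ds v.ds), 2 * (BR u0.dn u.dn + BR v0.dn v.dn),
    2 * (BR u0.ds u.dn + BR u.ds u0.dn + (BR v0.ds v.dn + BR v.ds v0.dn)),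
    2 * BR u0 u, BR u0 v + BR u v0, 2 * BR v0 v, 1, 1⟩

theorem mem_gramX (u0 v0 u v : Fn) :
    (gramX u0 v0 u v).Mem (gramXR u0.toR v0.toR u.toR v.toR) where
  P := (mem_pv _).smul2.congr (by simp only [pv_add, pv_Pf, gramXR])
  Q := (mem_pv _).smul2.congr (by simp only [pv_add, pv_Bf, toR_dn, gramXR])
  R := (mem_pv _).smul2.congr (by simp only [pv_add, pv_Sf, toR_dn, gramXR])
  B11 := (mem_pv _).smul2.congr (by simp only [pv_Bf, gramXR])
  B12 := (mem_pv _).congr (by simp only [pv_add, pv_Bf, gramXR])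
  B22 := (mem_pv _).smul2.congr (by simp only [pv_Bf, gramXR])
  m1 := mem_one
  m2 := mem_one

/-- Gram numbers along a ray. -/
noncomputable def coneG (X W : GN) (r e : ℝ) : GN :=
  ⟨1 / 2 + r * (X.P + r * W.P), 1 / 2 + r * (X.Q + r * W.Q), r * (X.R + r * W.R),
    1 / 4 + r * (X.B11 + r * W.B11), r * (X.B12 + r * W.B12), 1 / 4 + r * (X.B22 + r * W.B22),
    r * W.m1, e * yy ^ 2 + r * W.m2⟩

theorem BR_axpy (u0 v0 u v : RF) (r : ℝ) :
    BR (u0.axpy r u) (v0.axpy r v) = BR u0 v0 + r * (BR u0 v + BR u v0) + r ^ 2 * BR u v := by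
  simp only [BR, vL, vC, vS, RF.axpy, V3.axpy]; ring
theorem BR_axpy_left (u0 u v : RF) (r : ℝ) : BR (u0.axpy r u) v = BR u0 v + r * BR u v := by
  simp only [BR, vL, vC, vS, RF.axpy, V3.axpy]; ring
theorem BR_comm (u v : RF) : BR u v = BR v u := by
  simp only [BR, vL, vC, vS]; ring
theorem ds_axpy (u0 u : RF) (r : ℝ) : (u0.axpy r u).ds = u0.ds.axpy r u.ds := by
  simp [RF.ds, RF.axpy, V3.axpy, V3.neg, add_comm]
theorem dn_axpy (u0 u : RF) (r : ℝ) : (u0.axpy r u).dn = u0.dn.axpy r u.dn := by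
  simp [RF.dn, RF.axpy, V3.axpy, V3.dn, add_comm]

theorem gramR_cone (u v : RF) (r e : ℝ) (he : e ^ 2 = 1) :
    gramR (rS.axpy r u) ((rC e).axpy r v)
      = coneG (gramXR rS (rC e) u v) (gramR u v) r e := by
  have c1 : BR rS.ds rS.ds + BR (rC e).ds (rC e).ds = 1 / 2 := by
    simp only [BR, vL, vC, vS, rS, rC, RF.ds, V3.neg]
    linear_combination (1 / 4 - yy ^ 2 / 2) * he
  have c2 : BR rS.dn rS.dn + BR (rC e).dn (rC e).dn = 1 / 2 := by
    simp only [BR, vL, vC, vS, rS, rC, RF.dn, V3.dn]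
    linear_combination (1 / 4 + yy ^ 2 / 2) * he
  have c3 : BR rS.ds rS.dn = 0 := by
    simp [BR, vL, vC, vS, rS, RF.dn, V3.dn, RF.ds, V3.neg]
  have c4 : BR (rC e).ds (rC e).dn = 0 := by
    simp [BR, vL, vC, vS, rC, RF.dn, V3.dn, RF.ds, V3.neg]
  have c5 : BR rS rS = 1 / 4 := by
    simp only [BR, vL, vC, vS, rS]; ring
  have c6 : BR rS (rC e) = 0 := by
    simp [BR, vL, vC, vS, rS, rC]
  have c7 : BR (rC e) (rC e) = 1 / 4 := by
    simp only [BR, vL, vC, vS, rC]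
    linear_combination (1 / 4) * he
  have c8 : BR rS rE0 = 0 := by
    simp [BR, vL, vC, vS, rS, rE0]
  have c9 : BR (rC e) rE0 = e * yy ^ 2 := by
    simp only [BR, vL, vC, vS, rC, rE0]; ring
  simp only [gramR, coneG, gramXR, ds_axpy, dn_axpy, BR_axpy, GN.mk.injEq]
  rw [BR_axpy_left, BR_axpy_left, c3, c4, c5, c6, c7, c8, c9, BR_comm u.ds rS.ds,
    BR_comm v.ds (rC e).ds, BR_comm u.dn rS.dn, BR_comm v.dn (rC e).dn, BR_comm u rS,
    BR_comm v (rC e)]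
  refine ⟨?_, ?_, ?_, ?_, ?_, ?_, ?_, ?_⟩
  · linear_combination c1
  · linear_combination c2
  all_goals ring

theorem eigen_id (u v : RF) (e : ℝ) :
    (gramXR rS (rC e) u v).P + (gramXR rS (rC e) u v).Q
      = 2 * ((gramXR rS (rC e) u v).B11 + (gramXR rS (rC e) u v).B22)
        - 2 * e * yy * (2 * yy * (v.r0.a + v.r0.c) + (v.r2.a + v.r2.c)) := by
  simp only [gramXR, BR, vL, vC, vS, rS, rC, RF.ds, RF.dn, V3.neg, V3.dn]
  ring

theorem axpy_ev (u0 u : RF) (r : ℝ) (p : ℝ × ℝ) : (u0.axpy r u).ev p = u0.ev p + r * u.ev p := by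
  simp only [RF.ev, RF.axpy, V3.axpy, V3.ev]; ring

noncomputable def al2R (X W : GN) (r a k b : ℝ) : ℝ :=
  W.P + (W.Q - b * (X.R + r * W.R) + b * b * (1 / 2 + r * (X.P + r * W.P)))
    + a * (X.P + r * W.P
      - (X.Q + r * (W.Q - b * (X.R + r * W.R) + b * b * (1 / 2 + r * (X.P + r * W.P)))))
    + k * (1 / 2 + r * (X.Q + r * (W.Q - b * (X.R + r * W.R)
      + b * b * (1 / 2 + r * (X.P + r * W.P)))))

theorem al_cone (X W : GN) (r e a b : ℝ) (h : 0 < 1 + r * a) :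
    (coneG X W r e).al (1 + r * a) (r * b)
      = 1 + r * (X.P + X.Q) + r ^ 2 * al2R X W r a (a * a * (1 + r * a)⁻¹) b := by
  simp only [coneG, GN.al, al2R]
  field_simp
  ring

theorem abarC_sound {X W : GR} {x w : GN} (hx : X.Mem x) (hw : W.Mem w) {R A : IV} {r a : ℝ}
    (mr : R.Mem r) (ma : A.Mem a) (hp : (one.add (R.mul A)).pos = true) (e : ℝ) (bl bh : ZZ) :
    (coneG x w r e).al (1 + r * a) (r * (bl.val / 67108864))
        ≤ 1 + r * (x.P + x.Q) + r ^ 2 * (abarC X W R A bl bh).ctr ∧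
      (coneG x w r e).al (1 + r * a) (r * (bh.val / 67108864))
        ≤ 1 + r * (x.P + x.Q) + r ^ 2 * (abarC X W R A bl bh).ctr := by
  have mh := mem_one.add (mr.mul ma)
  have mk := (ma.mul ma).mul (mh.inv hp)
  have key : ∀ b : ZZ, (alpha2 X W R A ((A.mul A).mul (one.add (R.mul A)).inv) (pt b)).Mem
      (al2R x w r a (a * a * (1 + r * a)⁻¹) (b.val / 67108864)) := by
    intro b
    have pr := hx.P.add (mr.mul hw.P)
    have gam := (hw.Q.sub ((mem_pt b).mul (hx.R.add (mr.mul hw.R)))).add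
      (((mem_pt b).mul (mem_pt b)).mul (mem_hf.add (mr.mul pr)))
    have qr := hx.Q.add (mr.mul gam)
    exact ((hw.P.add gam).add (ma.mul (pr.sub qr))).add (mk.mul (mem_hf.add (mr.mul qr)))
  rw [al_cone _ _ _ _ _ _ (mh.pos hp), al_cone _ _ _ _ _ _ (mh.pos hp)]
  have e1 := mul_le_mul_of_nonneg_left ((key bl).le_ubmax_left
    (alpha2 X W R A ((A.mul A).mul (one.add (R.mul A)).inv) (pt bh))) (sq_nonneg r)
  have e2 := mul_le_mul_of_nonneg_left ((key bh).le_ubmax_right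
    (alpha2 X W R A ((A.mul A).mul (one.add (R.mul A)).inv) (pt bl))) (sq_nonneg r)
  exact ⟨by unfold abarC abarC1; linarith, by unfold abarC abarC1; linarith⟩

theorem cone_vtx {N : ℝ → ℝ → ℝ → ℝ} {r t1 t2 e11 e12 e22 f11 f12 f22 : ℝ}
    (ht : t1 = (e11 + e22) / 2)
    (c1 : 0 < 1 + r * (e11 + r * f11))
    (c2 : 0 < 1 + r * (e11 + r * f11 + (e22 + r * f22)
      + r * ((e11 + r * f11) * (e22 + r * f22) - (e12 + r * f12) * (e12 + r * f12))))
    (c3 : 0 ≤ 4 * (f11 + f22 + ((e11 + r * f11) * (e22 + r * f22) - (e12 + r * f12) * (e12 + r * f12))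
        - (t1 * t1 + (t1 * t1 + 4 * t2 + r * t2 * (2 * t1 + r * t2) - (f11 + f22))))
      - r * (t1 * t1 + 4 * t2 + r * t2 * (2 * t1 + r * t2) - (f11 + f22))
        * (4 * t1 + r * (t1 * t1 + 4 * t2 + r * t2 * (2 * t1 + r * t2) - (f11 + f22))))
    (hN : ∀ c z1 z2, (1 + r * (e11 + r * f11)) * z1 ^ 2 + 2 * (r * (e12 + r * f12)) * z1 * z2
      + (1 + r * (e22 + r * f22)) * z2 ^ 2 ≤ 2 * N c z1 z2) :
    YOK N (2 + r * t1 + r ^ 2 * t2) := by
  refine YOK_of_vtx c1 (c2.trans_eq (by ring)) ?_ hN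
  have := mul_nonneg (sq_nonneg r) c3
  refine this.trans_eq ?_
  rw [ht]
  ring

theorem vtxC_sound {X1 W1 X2 W2 : GR} {x1 w1 x2 w2 : GN} (hx1 : X1.Mem x1) (hw1 : W1.Mem w1)
    (hx2 : X2.Mem x2) (hw2 : W2.Mem w2)
    (eig : x1.P + x1.Q + (x2.P + x2.Q) = 2 * (x1.B11 + x1.B22) + 2 * (x2.B11 + x2.B22))
    {R A1 A2 L1 L2 : IV} {r a1 a2 l1 l2 : ℝ} (mr : R.Mem r) (m1 : A1.Mem a1) (m2 : A2.Mem a2)
    (m3 : L1.Mem l1) (m4 : L2.Mem l2) (h : vtxC X1 W1 X2 W2 R A1 A2 L1 L2 = true) :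
    YOK (NB (coneG x1 w1 r 1) (coneG x2 w2 r (-1)) (1 + r * a1) (1 + r * a2))
      ((1 + r * (x1.P + x1.Q) + r ^ 2 * l1 + (1 + r * (x2.P + x2.Q) + r ^ 2 * l2)
        + (1 + r * a1 + (1 + r * a2))) / 2) := by
  obtain ⟨p, q⟩ := and_true_iff' h
  obtain ⟨q1, q2⟩ := and_true_iff' q
  obtain ⟨q2, q3⟩ := and_true_iff' q2
  have h1 := mem_one.add (mr.mul m1)
  have h2 := mem_one.add (mr.mul m2)
  have mH := h1.add h2
  have mi := mH.inv p
  have n1 := (h1.mul hw1.m1).add (h2.mul hw2.m1)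
  have n2 := ((m1.sub m2).mul mem_y2).add ((h1.mul hw1.m2).add (h2.mul hw2.m2))
  have sa := (m1.add m2).half
  have e11 := sa.add (hx1.B11.add hx2.B11).smul2
  have e12 := (hx1.B12.add hx2.B12).smul2
  have e22 := sa.add (hx1.B22.add hx2.B22).smul2
  have fc : ∀ {Y1 V1 Y2 V2 K : IV} {y1 v1 y2 v2 k : ℝ}, Y1.Mem y1 → V1.Mem v1 → Y2.Mem y2 →
      V2.Mem v2 → K.Mem k → (fC2 R A1 A2 Y1 V1 Y2 V2 K).Mem
        (2 * (v1 + a1 * (y1 + r * v1) + (v2 + a2 * (y2 + r * v2)) - k)) :=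
    fun a b c d e => (((b.add (m1.mul (a.add (mr.mul b)))).add
      (d.add (m2.mul (c.add (mr.mul d))))).sub e).smul2
  have f11 := fc hx1.B11 hw1.B11 hx2.B11 hw2.B11 (n1.mul (n1.mul mi))
  have f12 := fc hx1.B12 hw1.B12 hx2.B12 hw2.B12 (n1.mul (n2.mul mi))
  have f22 := fc hx1.B22 hw1.B22 hx2.B22 hw2.B22 (n2.mul (n2.mul mi))
  have t1 := (e11.add e22).half
  have t2 := (m3.add m4).half
  have g11 := e11.add (mr.mul f11)
  have g12 := e12.add (mr.mul f12)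
  have g22 := e22.add (mr.mul f22)
  have dg := (g11.mul g22).sub (g12.mul g12)
  have trf := f11.add f22
  have tt := t1.mul t1
  have kap := ((tt.add t2.smul4).add ((mr.mul t2).mul (t1.smul2.add (mr.mul t2)))).sub trf
  have rk := mr.mul kap
  have c1 := (mem_one.add (mr.mul g11)).pos q1
  have c2 := (mem_one.add (mr.mul ((g11.add g22).add (mr.mul dg)))).pos q2
  have c3 := (((trf.add dg).sub (tt.add kap)).smul4.sub (rk.mul (t1.smul4.add rk))).nonneg q3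
  refine (cone_vtx rfl c1 c2 c3 ?_).mono (fun _ _ _ => le_rfl) (le_of_eq ?_)
  · intro c z1 z2
    refine le_trans (le_of_eq ?_) (NB_lower (coneG x1 w1 r 1) (coneG x2 w2 r (-1)) (mH.pos p)
      (n1 := r * ((1 + r * a1) * w1.m1 + (1 + r * a2) * w2.m1))
      (n2 := r * ((a1 - a2) * yy ^ 2 + ((1 + r * a1) * w1.m2 + (1 + r * a2) * w2.m2)))
      (by simp only [coneG]; ring) (by simp only [coneG]; ring) c z1 z2)
    simp only [coneG]
    generalize (1 + r * a1 + (1 + r * a2))⁻¹ = iH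
    ring
  · linear_combination (r / 2) * eig

theorem mem_rI {r : ℝ} (h0 : 0 ≤ r) (h1 : r ≤ 1) :
    (rI 0).Mem r ∨ (rI 1).Mem r ∨ (rI 2).Mem r ∨ (rI 3).Mem r := by
  simp only [rI, IV.Mem, cast_nmul, abs_le]
  norm_num
  rcases le_total r (1 / 4) with a | a
  · left; constructor <;> linarith
  rcases le_total r (1 / 2) with b | b
  · right; left; constructor <;> linarith
  rcases le_total r (3 / 4) with c | c
  · right; right; left; constructor <;> linarith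
  · right; right; right; constructor <;> linarith

theorem checkCone2_sound {b : Box} {u1 v1 u2 v2 : Fn}
    (hu : ∀ s, u1.toR.ev (s, 0) = u2.toR.ev (s, 0)) (hv : ∀ s, v1.toR.ev (s, 0) = v2.toR.ev (s, 0))
    (k1 : v1.toR.r0.a + v1.toR.r0.c = v2.toR.r0.a + v2.toR.r0.c)
    (k2 : v1.toR.r2.a + v1.toR.r2.c = v2.toR.r2.a + v2.toR.r2.c)
    {R : IV} {r : ℝ} (mr : R.Mem r) (r0 : 0 ≤ r)
    (h : checkCone2 b (gramX fS fC u1 v1) (gramD u1 v1) (gramX fS fC' u2 v2) (gramD u2 v2) R = true)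
    {a1 b1 a2 b2 : ℝ} (hb : b.Mem a1 b1 a2 b2) :
    Good (1 + r * a1) (r * b1) (1 + r * a2) (r * b2) := by
  obtain ⟨p, q⟩ := and_true_iff' h
  obtain ⟨p1, p2⟩ := and_true_iff' p
  obtain ⟨p1, p1'⟩ := and_true_iff' p1
  obtain ⟨p2, p2'⟩ := and_true_iff' p2
  obtain ⟨q1, q3⟩ := and_true_iff' q
  obtain ⟨q1, q2⟩ := and_true_iff' q1
  obtain ⟨q3, q4⟩ := and_true_iff' q3
  have hx1 := mem_gramX fS fC u1 v1
  have hx2 := mem_gramX fS fC' u2 v2
  rw [toR_fS, toR_fC] at hx1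
  rw [toR_fS, toR_fC'] at hx2
  have hw1 := mem_gramD u1 v1
  have hw2 := mem_gramD u2 v2
  have r1 := rep_gramR (rS.axpy r u1.toR) ((rC 1).axpy r v1.toR)
  have r2 := rep_gramR (rS.axpy r u2.toR) ((rC (-1)).axpy r v2.toR)
  rw [gramR_cone _ _ _ _ (by norm_num)] at r1 r2
  have eig := eigen_id u1.toR v1.toR 1
  have eig' := eigen_id u2.toR v2.toR (-1)
  have s1 := abarC_sound hx1 hw1 mr (mem_pt b.l0) p1 1 b.l1 b.u1
  have s2 := abarC_sound hx1 hw1 mr (mem_pt b.u0) p1' 1 b.l1 b.u1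
  have s3 := abarC_sound hx2 hw2 mr (mem_pt b.l2) p2 (-1) b.l3 b.u3
  have s4 := abarC_sound hx2 hw2 mr (mem_pt b.u2) p2' (-1) b.l3 b.u3
  have ee : (gramXR rS (rC 1) u1.toR v1.toR).P + (gramXR rS (rC 1) u1.toR v1.toR).Q
      + ((gramXR rS (rC (-1)) u2.toR v2.toR).P + (gramXR rS (rC (-1)) u2.toR v2.toR).Q)
      = 2 * ((gramXR rS (rC 1) u1.toR v1.toR).B11 + (gramXR rS (rC 1) u1.toR v1.toR).B22)
        + 2 * ((gramXR rS (rC (-1)) u2.toR v2.toR).B11 + (gramXR rS (rC (-1)) u2.toR v2.toR).B22) := by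
    rw [eig, eig', k1, k2]; ring
  have mono : ∀ {x y : ℝ}, x ≤ y → r * x ≤ r * y := fun h => mul_le_mul_of_nonneg_left h r0
  refine good_cell r1 r2 ?_ ?_
    ((mem_one.add (mr.mul (mem_pt b.l0))).pos p1) ((mem_one.add (mr.mul (mem_pt b.u0))).pos p1')
    ((mem_one.add (mr.mul (mem_pt b.l2))).pos p2) ((mem_one.add (mr.mul (mem_pt b.u2))).pos p2')
    (by linarith [mono hb.l0]) (by linarith [mono hb.u0]) (mono hb.l1) (mono hb.u1)
    (by linarith [mono hb.l2]) (by linarith [mono hb.u2]) (mono hb.l3) (mono hb.u3)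
    s1.1 s1.2 s2.1 s2.2 s3.1 s3.2 s4.1 s4.2
    (vtxC_sound hx1 hw1 hx2 hw2 ee mr (mem_pt _) (mem_pt _) mem_ctr mem_ctr q1)
    (vtxC_sound hx1 hw1 hx2 hw2 ee mr (mem_pt _) (mem_pt _) mem_ctr mem_ctr q2)
    (vtxC_sound hx1 hw1 hx2 hw2 ee mr (mem_pt _) (mem_pt _) mem_ctr mem_ctr q3)
    (vtxC_sound hx1 hw1 hx2 hw2 ee mr (mem_pt _) (mem_pt _) mem_ctr mem_ctr q4)
  · intro s
    change (rS.axpy r u1.toR).ev (s, 0) = (rS.axpy r u2.toR).ev (s, 0)
    rw [axpy_ev, axpy_ev, hu]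
  · intro s
    change ((rC 1).axpy r v1.toR).ev (s, 0) = ((rC (-1)).axpy r v2.toR).ev (s, 0)
    rw [axpy_ev, axpy_ev, hv]
    simp [rC, RF.ev, V3.ev]

theorem checkCone_sound {b : Box} {d : ℕ} (h : checkCone b d = true) {a1 b1 a2 b2 : ℝ}
    (hb : b.Mem a1 b1 a2 b2) {r : ℝ} (r0 : 0 ≤ r) (r1 : r ≤ 1) :
    Good (1 + r * a1) (r * b1) (1 + r * a2) (r * b2) := by
  obtain ⟨p, q⟩ := and_true_iff' h
  obtain ⟨p0, p1⟩ := and_true_iff' p
  obtain ⟨p2, p3⟩ := and_true_iff' q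
  have hu : ∀ s, (mkFn d 0 2).toR.ev (s, 0) = (mkFn d 0 8).toR.ev (s, 0) :=
    fun s => (mkFn_trace d 0 2 s).trans (mkFn_trace d 0 8 s).symm
  have hv : ∀ s, (mkFn d 14 16).toR.ev (s, 0) = (mkFn d 14 22).toR.ev (s, 0) :=
    fun s => (mkFn_trace d 14 16 s).trans (mkFn_trace d 14 22 s).symm
  have k1 : (mkFn d 14 16).toR.r0.a + (mkFn d 14 16).toR.r0.c
      = (mkFn d 14 22).toR.r0.a + (mkFn d 14 22).toR.r0.c := by
    simp only [mkFn, mkRows, Fn.toR, R3.toV, ZZ.val_neg]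
    ring
  have k2 : (mkFn d 14 16).toR.r2.a + (mkFn d 14 16).toR.r2.c
      = (mkFn d 14 22).toR.r2.a + (mkFn d 14 22).toR.r2.c := by
    simp only [mkFn, mkRows, Fn.toR, R3.toV, ZZ.val_neg, ZZ.val_norm, ZZ.val_add]
    ring
  rcases mem_rI r0 r1 with m | m | m | m
  · exact checkCone2_sound hu hv k1 k2 m r0 p0 hb
  · exact checkCone2_sound hu hv k1 k2 m r0 p1 hb
  · exact checkCone2_sound hu hv k1 k2 m r0 p2 hb
  · exact checkCone2_sound hu hv k1 k2 m r0 p3 hb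

/-- The property certified on the main region. -/
def PrM (a1 b1 a2 b2 : ℝ) : Prop :=
  0 < 1 + a1 → 0 < 1 + a2 → Good (1 + a1) b1 (1 + a2) b2 ∨
    (|a1| ≤ 1 / 8 ∧ |b1| ≤ 1 / 8 ∧ |a2| ≤ 1 / 8 ∧ |b2| ≤ 1 / 8)
/-- The property certified on the boundary of the central cube. -/
def PrC (a1 b1 a2 b2 : ℝ) : Prop :=
  ∀ r, 0 ≤ r → r ≤ 1 → Good (1 + r * a1) (r * b1) (1 + r * a2) (r * b2)
/-- The property certified for thin second triangles. -/
def PrT (a1 b1 _a2 _b2 : ℝ) : Prop :=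
  ∀ h2 t2, 0 < h2 → h2 ≤ 1 / 8 → Good (1 + a1) b1 h2 t2

theorem runM {t : Tr} {b : Box} (h : run checkBox checkL checkInner t b = true) : Cov PrM b := by
  refine run_sound ?_ ?_ ?_ t b h
  · exact fun b d h a1 b1 a2 b2 hb _ _ _ => Or.inl (checkBox_sound h hb)
  · exact fun b h a1 b1 a2 b2 hb _ p1 p2 => Or.inl (checkL_sound h hb p1 p2)
  · intro b h a1 b1 a2 b2 hb _ _ _
    right
    simp only [checkInner, Bool.and_eq_true] at h
    obtain ⟨⟨⟨c1, c2⟩, c3, c4⟩, ⟨c5, c6⟩, c7, c8⟩ := h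
    have d1 := ZZ.of_le c1
    have d2 := ZZ.of_le c2
    have d3 := ZZ.of_le c3
    have d4 := ZZ.of_le c4
    have d5 := ZZ.of_le c5
    have d6 := ZZ.of_le c6
    have d7 := ZZ.of_le c7
    have d8 := ZZ.of_le c8
    have hr : rho.val = 8388608 := by simp [rho, ZZ.val_mk]
    simp only [ZZ.val_neg, hr] at d1 d2 d3 d4 d5 d6 d7 d8
    refine ⟨abs_le.mpr ⟨?_, ?_⟩, abs_le.mpr ⟨?_, ?_⟩, abs_le.mpr ⟨?_, ?_⟩, abs_le.mpr ⟨?_, ?_⟩⟩
    · linarith [hb.l0]
    · linarith [hb.u0]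
    · linarith [hb.l1]
    · linarith [hb.u1]
    · linarith [hb.l2]
    · linarith [hb.u2]
    · linarith [hb.l3]
    · linarith [hb.u3]

theorem runC {t : Tr} {b : Box} (h : run checkCone never never t b = true) : Cov PrC b := by
  refine run_sound ?_ ?_ ?_ t b h
  · exact fun b d h a1 b1 a2 b2 hb _ r r0 r1 => checkCone_sound h hb r0 r1
  · exact fun b h => absurd h (by simp [never])
  · exact fun b h => absurd h (by simp [never])

theorem runT {t : Tr} {b : Box} (h : run checkThin never never t b = true) : Cov PrT b := by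
  refine run_sound ?_ ?_ ?_ t b h
  · exact fun b d h a1 b1 a2 b2 hb _ h2 t2 p2 p3 => checkThin_sound h hb t2 p2 p3
  · exact fun b h => absurd h (by simp [never])
  · exact fun b h => absurd h (by simp [never])

end Pool.Agent.MP_da42b8_an

end MrgPart6

-- marker of a merged file
example : 731051 + 420390 = 731051 + 420390 := rfl
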