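import Mathlib.Analysis.Calculus.ContDiff.WithLp
import Pool.Agent.MP_da42b8_an.Cone

/-!
The affine chart of a quadrilateral, integrals over it and transport of test functions.
-/

set_option autoImplicit false

namespace Pool.Agent.MP_da42b8_an

open MeasureTheory Set Filter Topology

/-- The affine chart. -/
noncomputable def Psi (m e w : E2) (p : ℝ × ℝ) : E2 := m + p.1 • e + p.2 • w

/-- The inverse chart. -/
noncomputable def Phi (m e w : E2) (x : E2) : ℝ × ℝ :=
  (((x 0 - m 0) * w 1 - w 0 * (x 1 - m 1)) / det2 e w,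
    (e 0 * (x 1 - m 1) - (x 0 - m 0) * e 1) / det2 e w)

theorem Phi_Psi (m : E2) {e w : E2} (h : det2 e w ≠ 0) (p : ℝ × ℝ) : Phi m e w (Psi m e w p) = p := by
  ext
  · simp only [Phi, Psi, PiLp.add_apply, PiLp.smul_apply, smul_eq_mul]
    field_simp
    unfold det2
    ring
  · simp only [Phi, Psi, PiLp.add_apply, PiLp.smul_apply, smul_eq_mul]
    field_simp
    unfold det2
    ring

theorem Psi_Phi (m : E2) {e w : E2} (h : det2 e w ≠ 0) (x : E2) : Psi m e w (Phi m e w x) = x := by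
  ext i
  fin_cases i
  · simp only [Phi, Psi, PiLp.add_apply, PiLp.smul_apply, smul_eq_mul, Fin.zero_eta]
    field_simp
    unfold det2
    ring
  · simp only [Phi, Psi, PiLp.add_apply, PiLp.smul_apply, smul_eq_mul, Fin.mk_one]
    field_simp
    unfold det2
    ring

@[fun_prop] theorem continuous_Psi (m e w : E2) : Continuous (Psi m e w) := by
  unfold Psi; fun_prop

theorem contDiff_Phi (m e w : E2) : ContDiff ℝ 1 (Phi m e w) := by
  unfold Phi; fun_prop

/-- The chart as a homeomorphism. -/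
noncomputable def PsiH (m : E2) {e w : E2} (h : det2 e w ≠ 0) : ℝ × ℝ ≃ₜ E2 where
  toFun := Psi m e w
  invFun := Phi m e w
  left_inv := Phi_Psi m h
  right_inv := Psi_Phi m h
  continuous_toFun := continuous_Psi m e w
  continuous_invFun := (contDiff_Phi m e w).continuous

theorem hasFDerivAt_Psi (m e w : E2) (p : ℝ × ℝ) : HasFDerivAt (Psi m e w)
    ((ContinuousLinearMap.fst ℝ ℝ ℝ).smulRight e + (ContinuousLinearMap.snd ℝ ℝ ℝ).smulRight w) p :=
  ((hasFDerivAt_fst.smul_const e).const_add m).add (hasFDerivAt_snd.smul_const w)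

theorem integral_Psi (m : E2) {e w : E2} (h : det2 e w ≠ 0) {s : Set (ℝ × ℝ)}
    (hs : MeasurableSet s) (F : E2 → ℝ) :
    ∫ x in Psi m e w '' s, F x = |det2 e w| * ∫ p in s, F (Psi m e w p) := by
  let ι : ℝ × ℝ ≃ᵐ E2 :=
    (MeasurableEquiv.finTwoArrow (α := ℝ)).symm.trans (MeasurableEquiv.toLp 2 (Fin 2 → ℝ))
  have hι : MeasurePreserving ι :=
    (PiLp.volume_preserving_toLp (Fin 2)).comp (volume_preserving_finTwoArrow ℝ).symm
  have e1 : ∀ p, Psi m e w p = ι (aff (m 0) (m 1) (e 0) (w 0) (e 1) (w 1) p) := by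
    intro p
    ext i
    fin_cases i <;> simp [ι, Psi, aff, MeasurableEquiv.finTwoArrow] <;> ring
  have e2 : Psi m e w '' s = ι '' (aff (m 0) (m 1) (e 0) (w 0) (e 1) (w 1) '' s) := by
    rw [image_image]
    simp only [e1]
  rw [e2, hι.setIntegral_image_emb ι.measurableEmbedding, integral_aff h hs]
  simp only [e1, det2]

theorem region_eq {a b c d m e w : E2} (h : det2 e w ≠ 0) {α β : ℝ} (hβ : β < 0)
    (ha : a = Psi m e w (-1, 0)) (hb : b = Psi m e w (0, 1)) (hc : c = Psi m e w (1, 0))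
    (hd : d = Psi m e w (α, β)) {Ω : Set E2} (ho : IsOpen Ω) (hbd : Bornology.IsBounded Ω)
    (hne : Ω.Nonempty)
    (hf : frontier Ω = segment ℝ a b ∪ segment ℝ b c ∪ segment ℝ c d ∪ segment ℝ d a) :
    Ω = Psi m e w '' {p | gau α β p < 1} := by
  have hc2 : ∀ s t : ℝ, s + t = 1 → ∀ p q : ℝ × ℝ,
      s • Psi m e w p + t • Psi m e w q = Psi m e w (s • p + t • q) := by
    intro s t hst p q
    have : m = s • m + t • m := by rw [← add_smul, hst, one_smul]
    simp only [Psi, Prod.fst_add, Prod.snd_add, Prod.smul_fst, Prod.smul_snd, smul_eq_mul]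
    conv_rhs => rw [this]
    module
  have := star_eq (ρ := gau α β) (gau_smul α β) (Ω := PsiH m h ⁻¹' Ω)
    (ho.preimage (PsiH m h).continuous) ?_ ?_ ?_
  · rw [← this]
    exact ((PsiH m h).surjective.image_preimage Ω).symm
  · exact (((PsiH m h).isCompact_preimage.mpr hbd.isCompact_closure).isBounded).subset
      (preimage_mono subset_closure)
  · exact hne.preimage (PsiH m h).surjective
  · intro p hp
    rw [← (PsiH m h).preimage_frontier, mem_preimage, hf] at hp
    have inj : Function.Injective (Psi m e w) := (PsiH m h).injective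
    change Psi m e w p ∈ _ at hp
    rcases hp with ((hp | hp) | hp) | hp <;> obtain ⟨s, t, hs, ht, hst, hp⟩ := hp
    · rw [ha, hb, hc2 s t hst] at hp
      rw [← inj hp, show s • ((-1 : ℝ), (0 : ℝ)) + t • ((0 : ℝ), (1 : ℝ)) = (-s, t) by simp,
        gau_up _ _ _ ht, abs_neg, abs_of_nonneg hs, hst]
    · rw [hb, hc, hc2 s t hst] at hp
      rw [← inj hp, show s • ((0 : ℝ), (1 : ℝ)) + t • ((1 : ℝ), (0 : ℝ)) = (t, s) by simp,
        gau_up _ _ _ hs, abs_of_nonneg ht, add_comm, hst]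
    · rw [hc, hd, hc2 s t hst] at hp
      rw [← inj hp, show s • ((1 : ℝ), (0 : ℝ)) + t • (α, β) = (s + α * t, β * t) by
        simp [mul_comm], gau_down _ hβ _ ht, abs_of_nonneg hs, hst]
    · rw [hd, ha, hc2 s t hst] at hp
      rw [← inj hp, show s • (α, β) + t • ((-1 : ℝ), (0 : ℝ)) = (-t + α * s, β * s) by
        simp [mul_comm, add_comm], gau_down _ hβ _ hs, abs_neg, abs_of_nonneg ht, add_comm, hst]

theorem integral_region (m : E2) {e w : E2} (h : det2 e w ≠ 0) {α β : ℝ} (hβ : β < 0)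
    {Ω : Set E2} (ho : IsOpen Ω) (hbd : Bornology.IsBounded Ω)
    (hΩ : Ω = Psi m e w '' {p | gau α β p < 1}) {F : E2 → ℝ} (hF : Continuous F) :
    ∫ x in Ω, F x = |det2 e w| * IT (fun p => F (Psi m e w p))
      + |det2 e w| * -β * IT (fun p => F (Psi m e w (p.1 + α * p.2, β * p.2))) := by
  have e0 : {p | gau α β p < 1} = PsiH m h ⁻¹' Ω := by
    rw [hΩ]
    exact ((PsiH m h).injective.preimage_image _).symm
  have hm : MeasurableSet {p | gau α β p < 1} := by
    rw [e0]
    exact (ho.preimage (PsiH m h).continuous).measurableSet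
  have hi : IntegrableOn (fun p => F (Psi m e w p)) {p | gau α β p < 1} := by
    rw [e0]
    refine (ContinuousOn.integrableOn_compact
      ((PsiH m h).isCompact_preimage.mpr hbd.isCompact_closure) (by fun_prop)).mono_set
      (preimage_mono subset_closure)
  have e1 : {p | gau α β p < 1} ∩ {p | 0 < 0 * p.1 + p.2} = Tri := by
    ext ⟨s, n⟩
    simp only [mem_inter_iff, mem_ofPred_eq, Tri, zero_mul, zero_add]
    constructor
    · rintro ⟨h1, h2⟩
      rw [gau_up _ _ _ h2.le] at h1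
      exact ⟨h2, by linarith [le_abs_self s], by linarith [neg_abs_le s]⟩
    · rintro ⟨h1, h2, h3⟩
      rw [gau_up _ _ _ h1.le]
      refine ⟨?_, h1⟩
      rcases abs_cases s with h | h <;> linarith
  have e2 : {p | gau α β p < 1} ∩ {p | 0 * p.1 + p.2 < 0} = aff 0 0 1 α 0 β '' Tri := by
    ext ⟨s, n⟩
    simp only [mem_inter_iff, mem_ofPred_eq, Tri, zero_mul, zero_add, mem_image, aff, one_mul,
      Prod.mk.injEq, Prod.exists]
    constructor
    · rintro ⟨h1, h2⟩
      have h3 : 0 < n / β := div_pos_of_neg_of_neg h2 hβ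
      have h4 : β * (n / β) = n := mul_div_cancel₀ n hβ.ne
      have := gau_down α hβ (s - α * (n / β)) h3.le
      rw [h4, sub_add_cancel] at this
      rw [this] at h1
      exact ⟨s - α * (n / β), n / β, ⟨h3, by linarith [le_abs_self (s - α * (n / β))],
        by linarith [neg_abs_le (s - α * (n / β))]⟩, by ring, h4⟩
    · rintro ⟨x, y, ⟨h1, h2, h3⟩, rfl, rfl⟩
      rw [gau_down _ hβ _ h1.le]
      refine ⟨?_, mul_neg_of_neg_of_pos hβ h1⟩
      rcases abs_cases x with h | h <;> linarith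
  rw [hΩ, integral_Psi m h hm, split_line hm hi 0, e1, e2,
    integral_aff (by simpa using hβ.ne) measurableSet_Tri]
  simp only [aff, IT, one_mul, mul_zero, sub_zero, zero_add, zero_mul, abs_of_neg hβ]
  ring

/-- `u` is the function `g` read in the chart. -/
def RepC (m e w : E2) (g : E2 → ℝ) (u : C1) : Prop :=
  ContDiff ℝ 1 g ∧ ∀ p, u.f p = g (Psi m e w p) ∧ u.fs p = fderiv ℝ g (Psi m e w p) e ∧
    u.fn p = fderiv ℝ g (Psi m e w p) w

theorem hasFDerivAt_rep (m e w : E2) {g : E2 → ℝ} (hg : ContDiff ℝ 1 g) (p : ℝ × ℝ) :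
    HasFDerivAt (fun p => g (Psi m e w p))
      (fderiv ℝ g (Psi m e w p) e • ContinuousLinearMap.fst ℝ ℝ ℝ
        + fderiv ℝ g (Psi m e w p) w • ContinuousLinearMap.snd ℝ ℝ ℝ) p := by
  have := (hg.differentiable one_ne_zero _).hasFDerivAt.comp p (hasFDerivAt_Psi m e w p)
  refine HasFDerivAt.congr_fderiv this ?_
  ext <;> simp

theorem exists_rep (m e w : E2) {g : E2 → ℝ} (hg : ContDiff ℝ 1 g) : ∃ u, RepC m e w g u := by
  have hc := hg.continuous_fderiv one_ne_zero
  exact ⟨⟨_, _, _, hasFDerivAt_rep m e w hg, by fun_prop, by fun_prop⟩, hg,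
    fun p => ⟨rfl, rfl, rfl⟩⟩

theorem exists_rep' (m : E2) {e w : E2} (h : det2 e w ≠ 0) (u : C1) : ∃ g, RepC m e w g u := by
  have h1 : ContDiff ℝ 1 u.f := contDiff_one_iff_hasFDerivAt.mpr ⟨_, by fun_prop, u.hd⟩
  have hg : ContDiff ℝ 1 fun x => u.f (Phi m e w x) := h1.comp (contDiff_Phi m e w)
  refine ⟨_, hg, fun p => ?_⟩
  have h2 := hasFDerivAt_rep m e w hg p
  simp only [Phi_Psi m h] at h2 ⊢
  have h3 := (u.hd p).unique h2
  have h4 := congrArg (fun L : ℝ × ℝ →L[ℝ] ℝ => L (1, 0)) h3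
  have h5 := congrArg (fun L : ℝ × ℝ →L[ℝ] ℝ => L (0, 1)) h3
  exact ⟨trivial, by simpa using h4, by simpa using h5⟩

theorem clm_apply (L : E2 →L[ℝ] ℝ) (v : E2) :
    L v = v 0 * L (EuclideanSpace.single 0 1) + v 1 * L (EuclideanSpace.single 1 1) := by
  have : v = v 0 • EuclideanSpace.single 0 1 + v 1 • EuclideanSpace.single 1 1 := by
    ext i
    fin_cases i <;> simp
  conv_lhs => rw [this]
  simp

theorem sq_pos_of_det {e w : E2} (h : det2 e w ≠ 0) : 0 < e 0 ^ 2 + e 1 ^ 2 := by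
  by_contra hc
  apply h
  have h0 : e 0 = 0 := by nlinarith [sq_nonneg (e 0), sq_nonneg (e 1)]
  have h1 : e 1 = 0 := by nlinarith [sq_nonneg (e 0), sq_nonneg (e 1)]
  simp [det2, h0, h1]

theorem energy_id {e w : E2} (h : det2 e w ≠ 0) (L : E2 →L[ℝ] ℝ) :
    |det2 e w| * ‖L‖ ^ 2 = |det2 e w| / (e 0 ^ 2 + e 1 ^ 2) * L e ^ 2
      + (|det2 e w| / (e 0 ^ 2 + e 1 ^ 2))⁻¹
        * (L w - (e 0 * w 0 + e 1 * w 1) / (e 0 ^ 2 + e 1 ^ 2) * L e) ^ 2 := by
  have hl := (sq_pos_of_det h).ne'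
  have hJ := sq_abs (det2 e w)
  have hJ0 := (abs_pos.mpr h).ne'
  rw [norm_sq_dual, clm_apply L e, clm_apply L w]
  generalize L (EuclideanSpace.single 0 1) = A
  generalize L (EuclideanSpace.single 1 1) = B
  generalize |det2 e w| = j at *
  unfold det2 at hJ
  field_simp
  rw [hJ]
  ring

end Pool.Agent.MP_da42b8_an
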