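import Mathlib.Algebra.Ring.IsFormallyReal
import Pool.Agent.MP_da42b8_an.Cert0
import Pool.Agent.MP_da42b8_an.Cert1
import Pool.Agent.MP_da42b8_an.Cert2
import Pool.Agent.MP_da42b8_an.Cert3
import Pool.Agent.MP_da42b8_an.Cert4
import Pool.Agent.MP_da42b8_an.CertC
import Pool.Agent.MP_da42b8_an.Chart

-- ======== part 0: formerly Pool.Agent.MP_da42b8_an.CertM
section MrgPart0

/-! Generated subdivision certificate. -/

set_option autoImplicit false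
set_option maxRecDepth 100000

namespace Pool.Agent.MP_da42b8_an

theorem cm : Cov PrM ⟨⟨0, 58720256⟩, ⟨134217728, 0⟩, ⟨0, 0⟩, ⟨100663296, 0⟩, ⟨0, 58720256⟩, ⟨67108864, 0⟩, ⟨0, 201326592⟩, ⟨201326592, 0⟩⟩ :=
  (Cov.split3 ⟨0, 0⟩
 (Cov.split3 ⟨0, 100663296⟩
 (Cov.split0 ⟨33554432, 0⟩
 (Cov.split2 ⟨8388608, 0⟩
 (Cov.split0 ⟨0, 8388608⟩
 cm0
 cm1)
 cm2)
 (Cov.split2 ⟨8388608, 0⟩
 (Cov.split3 ⟨0, 150994944⟩
 cm3
 cm4)
 cm5))
 (Cov.split0 ⟨33554432, 0⟩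
 (Cov.split2 ⟨8388608, 0⟩
 (Cov.split0 ⟨0, 8388608⟩
 (Cov.split1 ⟨33554432, 0⟩
 (Cov.split3 ⟨0, 33554432⟩
 cm6
 (Cov.split2 ⟨0, 16777216⟩
 cm7
 cm8))
 cm9)
 (Cov.split3 ⟨0, 33554432⟩
 cm10
 (Cov.split2 ⟨0, 16777216⟩
 (Cov.split1 ⟨33554432, 0⟩
 cm11
 cm12)
 (Cov.split1 ⟨33554432, 0⟩
 (Cov.split0 ⟨8388608, 0⟩
 (Cov.split3 ⟨0, 16777216⟩
 cm13
 (Cov.split1 ⟨16777216, 0⟩
 (Cov.split2 ⟨0, 8388608⟩
 cm14
 (Cov.split0 ⟨0, 0⟩
 cm15
 cm16))
 cm17))
 (Cov.split3 ⟨0, 16777216⟩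
 cm18
 (Cov.split2 ⟨0, 8388608⟩
 cm19
 cm20)))
 cm21))))
 (Cov.split0 ⟨0, 8388608⟩
 cm22
 (Cov.split1 ⟨33554432, 0⟩
 (Cov.split3 ⟨0, 33554432⟩
 cm23
 cm24)
 cm25)))
 (Cov.split2 ⟨8388608, 0⟩
 (Cov.split3 ⟨0, 33554432⟩
 cm26
 cm27)
 cm28)))
 (Cov.split3 ⟨100663296, 0⟩
 (Cov.split0 ⟨33554432, 0⟩
 (Cov.split2 ⟨8388608, 0⟩
 (Cov.split0 ⟨0, 8388608⟩
 (Cov.split1 ⟨33554432, 0⟩
 (Cov.split3 ⟨33554432, 0⟩
 (Cov.split2 ⟨0, 16777216⟩
 cm29
 cm30)
 cm31)
 cm32)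
 (Cov.split3 ⟨33554432, 0⟩
 (Cov.split2 ⟨0, 16777216⟩
 cm33
 (Cov.split1 ⟨33554432, 0⟩
 (Cov.split0 ⟨8388608, 0⟩
 (Cov.split3 ⟨16777216, 0⟩
 (Cov.split1 ⟨16777216, 0⟩
 (Cov.split2 ⟨0, 8388608⟩
 cm34
 (Cov.split0 ⟨0, 0⟩
 cm35
 cm36))
 cm37)
 cm38)
 (Cov.split3 ⟨16777216, 0⟩
 (Cov.split2 ⟨0, 8388608⟩
 cm39
 cm40)
 cm41))
 cm42))
 cm43))
 (Cov.split0 ⟨0, 8388608⟩
 cm44
 (Cov.split1 ⟨33554432, 0⟩
 (Cov.split3 ⟨33554432, 0⟩
 cm45
 cm46)
 cm47)))
 (Cov.split2 ⟨8388608, 0⟩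
 (Cov.split3 ⟨33554432, 0⟩
 cm48
 cm49)
 cm50))
 (Cov.split0 ⟨33554432, 0⟩
 (Cov.split2 ⟨8388608, 0⟩
 (Cov.split0 ⟨0, 8388608⟩
 cm51
 cm52)
 cm53)
 (Cov.split2 ⟨8388608, 0⟩
 (Cov.split3 ⟨150994944, 0⟩
 cm54
 (Cov.split2 ⟨0, 16777216⟩
 (Cov.split0 ⟨83886080, 0⟩
 cm55
 cm56)
 cm57))
 cm58))))

end Pool.Agent.MP_da42b8_an

end MrgPart0

-- ======== part 1: formerly Pool.Agent.MP_da42b8_an.AllGood
section MrgPart1

/-!
The inequality for every pair of triangles glued along a common side.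
-/

set_option autoImplicit false

namespace Pool.Agent.MP_da42b8_an

theorem good_lin' {h1 t1 h2 t2 c : ℝ} (p1 : 0 < h1) (p2 : 0 < h2)
    (hg : -c ≤ 12 * 1 - 108 * (yy ^ 2 * yy ^ 2) + (3 * (h1 + h2 - 6 * yy ^ 2) ^ 2 + (h1 - h2) ^ 2))
    (ht : c * (h1 + h2) ^ 2 ≤ 4 * (h1 * t1 + h2 * t2) ^ 2 + 12 * (h1 * h2 * (t1 - t2) ^ 2)) :
    Good h1 t1 h2 t2 := by
  apply good_lin p1 p2
  have := mul_le_mul_of_nonneg_left hg (mul_self_nonneg (h1 + h2))
  nlinarith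

theorem tpart {h1 t1 h2 t2 c : ℝ} (p1 : 0 < h1) (p2 : 0 < h2)
    (h : c * (3 * h1 + h2) ≤ 12 * h1 * t1 ^ 2) :
    c * (h1 + h2) ^ 2 ≤ 4 * (h1 * t1 + h2 * t2) ^ 2 + 12 * (h1 * h2 * (t1 - t2) ^ 2) := by
  have hp : 0 < 3 * h1 + h2 := by linarith
  have e : (3 * h1 + h2) * (4 * (h1 * t1 + h2 * t2) ^ 2 + 12 * (h1 * h2 * (t1 - t2) ^ 2))
      = 12 * h1 * t1 ^ 2 * (h1 + h2) ^ 2
        + 4 * h2 * ((h1 * t1 + h2 * t2) - 3 * h1 * (t1 - t2)) ^ 2 := by ring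
  have e1 := mul_le_mul_of_nonneg_right h (sq_nonneg (h1 + h2))
  have e2 : 0 ≤ 4 * h2 * ((h1 * t1 + h2 * t2) - 3 * h1 * (t1 - t2)) ^ 2 := by positivity
  apply le_of_mul_le_mul_left _ hp
  rw [e]
  linarith

theorem tpart0 {h1 t1 h2 t2 : ℝ} (p1 : 0 < h1) (p2 : 0 < h2) :
    0 * (h1 + h2) ^ 2 ≤ 4 * (h1 * t1 + h2 * t2) ^ 2 + 12 * (h1 * h2 * (t1 - t2) ^ 2) := by
  rw [zero_mul]; positivity

theorem gconst : -(5.74 : ℝ) ≤ 12 * 1 - 108 * (yy ^ 2 * yy ^ 2) := by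
  obtain ⟨a, b⟩ := yy_sq_bounds
  nlinarith

theorem good_inner {a1 b1 a2 b2 : ℝ} (c1 : |a1| ≤ 1 / 8) (c2 : |b1| ≤ 1 / 8) (c3 : |a2| ≤ 1 / 8)
    (c4 : |b2| ≤ 1 / 8) (hb : 0 ≤ b1) (ha : a2 ≤ a1) : Good (1 + a1) b1 (1 + a2) b2 := by
  set m := max (max |a1| |b1|) (max |a2| |b2|) with hm
  have m1 : |a1| ≤ m := (le_max_left _ _).trans (le_max_left _ _)
  have m2 : |b1| ≤ m := (le_max_right _ _).trans (le_max_left _ _)
  have m3 : |a2| ≤ m := (le_max_left _ _).trans (le_max_right _ _)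
  have m4 : |b2| ≤ m := (le_max_right _ _).trans (le_max_right _ _)
  have m5 : m ≤ 1 / 8 := max_le (max_le c1 c2) (max_le c3 c4)
  have m0 : 0 ≤ m := (abs_nonneg _).trans m1
  rcases eq_or_lt_of_le m0 with h0 | h0
  · have e1 : a1 = 0 := abs_nonpos_iff.mp (h0 ▸ m1)
    have e2 : b1 = 0 := abs_nonpos_iff.mp (h0 ▸ m2)
    have e3 : a2 = 0 := abs_nonpos_iff.mp (h0 ▸ m3)
    have e4 : b2 = 0 := abs_nonpos_iff.mp (h0 ▸ m4)
    have := cc0p (1 / 8) 0 0 0 (by constructor <;> norm_num [ZZ.val_mk]) (by norm_num) 0 le_rfl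
      zero_le_one
    simpa [e1, e2, e3, e4] using this
  have hr : 0 < 8 * m := by linarith
  have key : ∀ x : ℝ, |x| ≤ m → -(1 / 8) ≤ x / (8 * m) ∧ x / (8 * m) ≤ 1 / 8 := by
    intro x hx
    rw [abs_le] at hx
    constructor
    · rw [le_div_iff₀ hr]; linarith [hx.1]
    · rw [div_le_iff₀ hr]; linarith [hx.2]
  have key2 : ∀ x : ℝ, |x| = m → x / (8 * m) = 1 / 8 ∨ x / (8 * m) = -(1 / 8) := by
    intro x hx
    rcases abs_cases x with h | h
    · left; rw [div_eq_iff hr.ne']; linarith [h.1]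
    · right; rw [div_eq_iff hr.ne']; linarith [h.1]
  obtain ⟨k1, k1'⟩ := key a1 m1
  obtain ⟨-, k2'⟩ := key b1 m2
  obtain ⟨k3, k3'⟩ := key a2 m3
  obtain ⟨k4, k4'⟩ := key b2 m4
  have k2 : 0 ≤ b1 / (8 * m) := div_nonneg hb hr.le
  have k5 : a2 / (8 * m) ≤ a1 / (8 * m) := div_le_div_of_nonneg_right ha hr.le
  have fin : PrC (a1 / (8 * m)) (b1 / (8 * m)) (a2 / (8 * m)) (b2 / (8 * m)) →
      Good (1 + a1) b1 (1 + a2) b2 := by
    intro h
    have := h (8 * m) hr.le (by linarith)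
    simpa only [mul_div_cancel₀ _ hr.ne'] using this
  apply fin
  have hcases : |a1| = m ∨ |b1| = m ∨ |a2| = m ∨ |b2| = m := by
    rcases max_cases (max |a1| |b1|) (max |a2| |b2|) with h | h
    · rcases max_cases |a1| |b1| with h' | h'
      · left; rw [hm, h.1, h'.1]
      · right; left; rw [hm, h.1, h'.1]
    · rcases max_cases |a2| |b2| with h' | h'
      · right; right; left; rw [hm, h.1, h'.1]
      · right; right; right; rw [hm, h.1, h'.1]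
  have hc2 : (a1 / (8 * m) = 1 / 8 ∨ a1 / (8 * m) = -(1 / 8)) ∨
      (b1 / (8 * m) = 1 / 8 ∨ b1 / (8 * m) = -(1 / 8)) ∨
      (a2 / (8 * m) = 1 / 8 ∨ a2 / (8 * m) = -(1 / 8)) ∨
      (b2 / (8 * m) = 1 / 8 ∨ b2 / (8 * m) = -(1 / 8)) :=
    hcases.imp (key2 _) (Or.imp (key2 _) (Or.imp (key2 _) (key2 _)))
  generalize a1 / (8 * m) = q1 at *
  generalize b1 / (8 * m) = q2 at *
  generalize a2 / (8 * m) = q3 at *
  generalize b2 / (8 * m) = q4 at *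
  rcases hc2 with (h | h) | (h | h) | (h | h) | (h | h)
  · exact cc0p _ _ _ _ (by constructor <;> norm_num [ZZ.val_mk] <;> linarith) k5
  · exact cc0m _ _ _ _ (by constructor <;> norm_num [ZZ.val_mk] <;> linarith) k5
  · exact cc1p _ _ _ _ (by constructor <;> norm_num [ZZ.val_mk] <;> linarith) k5
  · exfalso; linarith
  · exact cc2p _ _ _ _ (by constructor <;> norm_num [ZZ.val_mk] <;> linarith) k5
  · exact cc2m _ _ _ _ (by constructor <;> norm_num [ZZ.val_mk] <;> linarith) k5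
  · exact cc3p _ _ _ _ (by constructor <;> norm_num [ZZ.val_mk] <;> linarith) k5
  · exact cc3m _ _ _ _ (by constructor <;> norm_num [ZZ.val_mk] <;> linarith) k5

theorem good_reduced {h1 t1 h2 t2 : ℝ} (p2 : 0 < h2) (hh : h2 ≤ h1) (ht : 0 ≤ t1) :
    Good h1 t1 h2 t2 := by
  have p1 : 0 < h1 := p2.trans_le hh
  obtain ⟨ya, yb⟩ := yy_sq_bounds
  have gc := gconst
  have q1 : 3 / 4 * (2 * h1 - 6 * yy ^ 2) ^ 2 ≤ 3 * (h1 + h2 - 6 * yy ^ 2) ^ 2 + (h1 - h2) ^ 2 := by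
    nlinarith [sq_nonneg (3 * (h1 + h2 - 6 * yy ^ 2) - (h1 - h2))]
  have q2 : 3 / 4 * (2 * h2 - 6 * yy ^ 2) ^ 2 ≤ 3 * (h1 + h2 - 6 * yy ^ 2) ^ 2 + (h1 - h2) ^ 2 := by
    nlinarith [sq_nonneg (3 * (h1 + h2 - 6 * yy ^ 2) + (h1 - h2))]
  have q3 : 0 ≤ 3 * (h1 + h2 - 6 * yy ^ 2) ^ 2 + (h1 - h2) ^ 2 := by positivity
  by_cases c1 : 23 / 8 ≤ h1
  · refine good_lin' p1 p2 ?_ (tpart0 p1 p2)
    have : (3.3 : ℝ) ^ 2 ≤ (2 * h1 - 6 * yy ^ 2) ^ 2 :=
      pow_le_pow_left₀ (by norm_num) (by linarith) 2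
    linarith
  by_cases c2 : h1 + h2 ≤ 1
  · refine good_lin' p1 p2 ?_ (tpart0 p1 p2)
    have : (1.43 : ℝ) ^ 2 ≤ (6 * yy ^ 2 - (h1 + h2)) ^ 2 :=
      pow_le_pow_left₀ (by norm_num) (by linarith) 2
    nlinarith [sq_nonneg (h1 - h2)]
  by_cases c3 : h2 ≤ 1 / 8
  · by_cases c4 : 1 ≤ t1
    · refine good_lin' (c := 3) p1 p2 ?_ (tpart p1 p2 ?_)
      · have : (2.1 : ℝ) ^ 2 ≤ (6 * yy ^ 2 - 2 * h2) ^ 2 :=
          pow_le_pow_left₀ (by norm_num) (by linarith) 2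
        nlinarith
      · have : 1 ≤ t1 ^ 2 := one_le_pow₀ c4
        nlinarith
    · have := ct (h1 - 1) t1 (-1) 0
        (by constructor <;> norm_num [ZZ.val_mk] <;> linarith) (by linarith) h2 t2 p2 c3
      simpa using this
  by_cases c4 : 2 ≤ h2
  · refine good_lin' p1 p2 ?_ (tpart0 p1 p2)
    have : (1.5 : ℝ) ^ 2 ≤ (h1 + h2 - 6 * yy ^ 2) ^ 2 :=
      pow_le_pow_left₀ (by norm_num) (by linarith) 2
    nlinarith [sq_nonneg (h1 - h2)]
  by_cases c5 : 3 / 2 ≤ t1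
  · refine good_lin' (c := 6) p1 p2 (by linarith) (tpart p1 p2 ?_)
    have : (3 / 2 : ℝ) ^ 2 ≤ t1 ^ 2 := pow_le_pow_left₀ (by norm_num) c5 2
    nlinarith
  by_cases c6 : 3 ≤ |t2|
  · have h9 : (3 : ℝ) ^ 2 ≤ t2 ^ 2 := by
      rw [← sq_abs t2]; exact pow_le_pow_left₀ (by norm_num) c6 2
    apply Good.swap
    by_cases c7 : h2 ≤ 1 / 5
    · refine good_lin' (c := 3) p2 p1 ?_ (tpart p2 p1 ?_)
      · have : (2 : ℝ) ^ 2 ≤ (6 * yy ^ 2 - 2 * h2) ^ 2 :=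
          pow_le_pow_left₀ (by norm_num) (by linarith) 2
        nlinarith
      · nlinarith
    · refine good_lin' (c := 5.8) p2 p1 ?_ (tpart p2 p1 ?_)
      · nlinarith
      · nlinarith
  have c6' := abs_lt.mp (not_le.mp c6)
  have := cm (h1 - 1) t1 (h2 - 1) t2
    (by constructor <;> norm_num [ZZ.val_mk] <;> linarith [c6'.1, c6'.2]) (by linarith)
    (by linarith) (by linarith)
  rcases this with h | ⟨d1, d2, d3, d4⟩
  · simpa using h
  · simpa using good_inner d1 d2 d3 d4 ht (by linarith)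

theorem good_all {h1 h2 : ℝ} (t1 t2 : ℝ) (p1 : 0 < h1) (p2 : 0 < h2) : Good h1 t1 h2 t2 := by
  have key : ∀ {h1 h2 : ℝ} (t1 t2 : ℝ), 0 < h2 → h2 ≤ h1 → Good h1 t1 h2 t2 := by
    intro h1 h2 t1 t2 p2 hh
    rcases le_total 0 t1 with h | h
    · exact good_reduced p2 hh h
    · exact Good.refl (good_reduced p2 hh (by linarith))
  rcases le_total h2 h1 with h | h
  · exact key t1 t2 p2 h
  · exact Good.swap (key t2 t1 p1 h)

end Pool.Agent.MP_da42b8_an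

end MrgPart1

-- ======== part 2: formerly Pool.Agent.MP_da42b8_an.Main
section MrgPart2

/-!
The eigenvalue inequality for quadrilaterals and the value for the unit square.
-/

set_option autoImplicit false

namespace Pool.Agent.MP_da42b8_an

open MeasureTheory Set Filter Topology

theorem affine_sq_pos {Ω : Set E2} (ho : IsOpen Ω) (hb : Bornology.IsBounded Ω) (hne : Ω.Nonempty)
    {t0 t1 t2 : ℝ} (ht : t0 ≠ 0 ∨ t1 ≠ 0 ∨ t2 ≠ 0) :
    0 < ∫ x in Ω, (t0 + t1 * x 0 + t2 * x 1) ^ 2 := by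
  have hc : Continuous fun x : E2 => (t0 + t1 * x 0 + t2 * x 1) ^ 2 := by fun_prop
  rw [setIntegral_pos_iff_support_of_nonneg_ae (Eventually.of_forall fun x => sq_nonneg _)
    (integrableOn_of_bounded hb hc)]
  refine (hc.isOpen_support.inter ho).measure_pos volume ?_
  by_contra hn
  rw [not_nonempty_iff_eq_empty] at hn
  have h0 : ∀ x ∈ Ω, t0 + t1 * x 0 + t2 * x 1 = 0 := by
    intro x hx
    by_contra h
    have : x ∈ Function.support (fun x : E2 => (t0 + t1 * x 0 + t2 * x 1) ^ 2) ∩ Ω :=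
      ⟨pow_ne_zero 2 h, hx⟩
    rw [hn] at this
    exact this
  obtain ⟨x, hx⟩ := hne
  obtain ⟨ε, hε, hball⟩ := Metric.isOpen_iff.mp ho x hx
  have m : ∀ i, x + EuclideanSpace.single i (ε / 2) ∈ Ω := by
    intro i
    apply hball
    simp only [Metric.mem_ball, dist_self_add_left, PiLp.norm_single, Real.norm_eq_abs]
    rw [abs_of_pos (by linarith)]
    linarith
  have a0 := h0 x hx
  have a1 := h0 _ (m 0)
  have a2 := h0 _ (m 1)
  simp at a1 a2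
  have b1 : t1 = 0 := by
    have : t1 * (ε / 2) = 0 := by linarith
    exact (mul_eq_zero.mp this).resolve_right (by linarith)
  have b2 : t2 = 0 := by
    have : t2 * (ε / 2) = 0 := by linarith
    exact (mul_eq_zero.mp this).resolve_right (by linarith)
  have b0 : t0 = 0 := by simpa [b1, b2] using a0
  tauto

theorem ne_zero_two {t : Fin (1 + 1) → ℝ} (ht : t ≠ 0) : t 0 ≠ 0 ∨ t 1 ≠ 0 := by
  by_contra h
  push Not at h
  apply ht
  funext i
  fin_cases i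
  · exact h.1
  · exact h.2

theorem ne_zero_three {t : Fin (2 + 1) → ℝ} (ht : t ≠ 0) : t 0 ≠ 0 ∨ t 1 ≠ 0 ∨ t 2 ≠ 0 := by
  by_contra h
  push Not at h
  apply ht
  funext i
  fin_cases i
  · exact h.1
  · exact h.2.1
  · exact h.2.2

theorem le_mu12 {Ω : Set E2} (ho : IsOpen Ω) (hb : Bornology.IsBounded Ω) (hne : Ω.Nonempty)
    {c : ℝ} (hP : ∀ g : E2 → ℝ, ContDiff ℝ 1 g → ∫ x in Ω, g x = 0 →
      c * ∫ x in Ω, g x ^ 2 ≤ ∫ x in Ω, ‖fderiv ℝ g x‖ ^ 2) : c ≤ mu 1 Ω ∧ c ≤ mu 2 Ω := by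
  constructor
  · refine le_mu le_rfl hb ho.measurableSet hP ![fun _ => 1, fun x => x 0] ?_ ?_
    · intro i
      fin_cases i <;> simp <;> fun_prop
    · intro t ht
      have := affine_sq_pos ho hb hne (t0 := t 0) (t1 := t 1) (t2 := 0)
        (by have := ne_zero_two ht; tauto)
      simpa [Fin.sum_univ_two] using this
  · refine le_mu one_le_two hb ho.measurableSet hP ![fun _ => 1, fun x => x 0, fun x => x 1] ?_ ?_
    · intro i
      fin_cases i <;> simp <;> fun_prop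
    · intro t ht
      have := affine_sq_pos ho hb hne (ne_zero_three ht)
      simpa [Fin.sum_univ_three] using this

theorem square_bound : Real.pi ^ 2 ≤ mu 1 {x : E2 | ∀ i, 0 < x i ∧ x i < 1} ∧
    Real.pi ^ 2 ≤ mu 2 {x : E2 | ∀ i, 0 < x i ∧ x i < 1} := by
  set e : E2 := EuclideanSpace.single 0 1 with he
  set w : E2 := EuclideanSpace.single 1 1 with hw
  have hd : det2 e w = 1 := by simp [det2, he, hw]
  have hd0 : det2 e w ≠ 0 := by rw [hd]; exact one_ne_zero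
  have hS : {x : E2 | ∀ i, 0 < x i ∧ x i < 1} = Psi 0 e w '' Sq := by
    ext x
    simp only [mem_ofPred_eq, Fin.forall_fin_two, mem_image, Sq, mem_prod, mem_Ioo]
    constructor
    · intro h
      refine ⟨(x 0, x 1), h, ?_⟩
      ext i
      fin_cases i <;> simp [Psi, he, hw]
    · rintro ⟨p, hp, rfl⟩
      simpa [Psi, he, hw] using hp
  have hI : ∀ F : E2 → ℝ, ∫ x in {x : E2 | ∀ i, 0 < x i ∧ x i < 1}, F x
      = ∫ p in Sq, F (Psi 0 e w p) := by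
    intro F
    rw [hS, integral_Psi 0 hd0 measurableSet_Sq, hd, abs_one, one_mul]
  apply le_mu12
  · rw [hS]
    exact (PsiH 0 hd0).isOpenMap _ (isOpen_Ioo.prod isOpen_Ioo)
  · rw [hS]
    refine (((isCompact_Icc (a := (0 : ℝ)) (b := 1)).prod (isCompact_Icc (a := (0 : ℝ)) (b := 1))).image
      (continuous_Psi 0 e w)).isBounded.subset (image_mono ?_)
    exact prod_mono Ioo_subset_Icc_self Ioo_subset_Icc_self
  · rw [hS]
    exact ⟨_, (1 / 2, 1 / 2), ⟨by norm_num, by norm_num⟩, rfl⟩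
  · intro g hg h0
    obtain ⟨u, -, hu⟩ := exists_rep 0 e w hg
    rw [hI] at h0
    rw [hI, hI]
    obtain ⟨K, hK⟩ := ((isCompact_Icc (a := (0 : ℝ)) (b := 1)).prod
      (isCompact_Icc (a := (0 : ℝ)) (b := 1))).exists_bound_of_continuousOn u.cjet.continuousOn
    have hK' : ∀ p ∈ Sq, |u.fs p| ≤ K ∧ |u.fn p| ≤ K := by
      intro p hp
      have := hK p (prod_mono Ioo_subset_Icc_self Ioo_subset_Icc_self hp)
      simp only [C1.jet, norm_prod_le_iff, Real.norm_eq_abs] at this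
      exact this.2
    have hW := wirt_two u.cf u.cs.measurable u.cn.measurable (fun p hp => (hK' p hp).1)
      (fun p hp => (hK' p hp).2)
      (fun y _ x _ => by simpa using (u.line 0 1 y 0 x).hasDerivWithinAt (s := Ioi x))
      (fun x _ y _ => by simpa using (u.line x 0 0 1 y).hasDerivWithinAt (s := Ioi y))
    rw [← integral_add (integrableOn_Sq (by fun_prop)) (integrableOn_Sq (by fun_prop))] at hW
    simp only [fun p => (hu p).1, fun p => (hu p).2.1, fun p => (hu p).2.2, h0, sub_zero] at hW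
    simpa only [norm_sq_dual] using hW

section quad
variable {m e w : E2} {α β : ℝ} {Ω : Set E2} (h : det2 e w ≠ 0) (hβ : β < 0) (ho : IsOpen Ω)
  (hbd : Bornology.IsBounded Ω) (hΩ : Ω = Psi m e w '' {p | gau α β p < 1})
  {l h1 t1 h2 t2 : ℝ} (hl : l = e 0 ^ 2 + e 1 ^ 2) (hh1 : h1 = |det2 e w| / l)
  (ht1 : t1 = (e 0 * w 0 + e 1 * w 1) / l) (hh2 : h2 = -β * h1) (ht2 : t2 = α + β * t1)
include h hβ ho hbd hΩ hl hh1 hh2

theorem int_split {F : E2 → ℝ} (hF : Continuous F) :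
    ∫ x in Ω, F x = l * (h1 * IT (fun p => F (Psi m e w p))
      + h2 * IT (fun p => F (Psi m e w (p.1 + α * p.2, β * p.2)))) := by
  have l0 : l ≠ 0 := by rw [hl]; exact (sq_pos_of_det h).ne'
  rw [integral_region m h hβ ho hbd hΩ hF, hh2, hh1]
  field_simp

theorem rep_D {gu gv : E2 → ℝ} {u v : C1} (hu : RepC m e w gu u) (hv : RepC m e w gv v)
    (c z1 z2 : ℝ) : ∫ x in Ω, (c + z1 * gu x + z2 * gv x) ^ 2
      = l * (Dq h1 u v c z1 z2 + Dq h2 (u.comp α β) (v.comp α β) c z1 z2) := by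
  have c1 := hu.1.continuous
  have c2 := hv.1.continuous
  rw [int_split h hβ ho hbd hΩ hl hh1 hh2 (by fun_prop)]
  simp only [Dq, C1.comp, fun p => (hu.2 p).1, fun p => (hv.2 p).1]

theorem rep_B {gu : E2 → ℝ} {u : C1} (hu : RepC m e w gu u) :
    ∫ x in Ω, gu x = l * (Bq h1 u u 1 0 + Bq h2 (u.comp α β) (u.comp α β) 1 0) := by
  rw [int_split h hβ ho hbd hΩ hl hh1 hh2 hu.1.continuous]
  simp only [Bq, C1.comp, fun p => (hu.2 p).1, one_mul, zero_mul, add_zero]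

include ht1 ht2

theorem rep_N {gu gv : E2 → ℝ} {u v : C1} (hu : RepC m e w gu u) (hv : RepC m e w gv v)
    (z1 z2 : ℝ) : ∫ x in Ω, ‖z1 • fderiv ℝ gu x + z2 • fderiv ℝ gv x‖ ^ 2
      = Nq h1 t1 u v z1 z2 + Nq h2 t2 (u.comp α β) (v.comp α β) z1 z2 := by
  have c1 := hu.1.continuous_fderiv one_ne_zero
  have c2 := hv.1.continuous_fderiv one_ne_zero
  have l0 : l ≠ 0 := by rw [hl]; exact (sq_pos_of_det h).ne'
  have d2 : det2 e (α • e + β • w) = β * det2 e w := by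
    simp only [det2, PiLp.add_apply, PiLp.smul_apply, smul_eq_mul]; ring
  have a2 : |det2 e (α • e + β • w)| = |det2 e w| * -β := by
    rw [d2, abs_mul, abs_of_neg hβ, mul_comm]
  have k2 : h2 = |det2 e w| * -β / l := by rw [hh2, hh1]; ring
  have s2 : t2 = (e 0 * (α • e + β • w) 0 + e 1 * (α • e + β • w) 1) / l := by
    simp only [PiLp.add_apply, PiLp.smul_apply, smul_eq_mul]
    rw [ht2, ht1]
    field_simp
    rw [hl]
    ring
  rw [integral_region m h hβ ho hbd hΩ (by fun_prop), ← IT_cmul, ← IT_cmul]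
  unfold Nq
  congr 2
  · funext p
    rw [energy_id h, ← hl, ← hh1, ← ht1]
    simp [(hu.2 p).2.1, (hu.2 p).2.2, (hv.2 p).2.1, (hv.2 p).2.2]
  · funext p
    rw [← a2, energy_id (by rw [d2]; exact mul_ne_zero hβ.ne h), ← hl, a2, ← k2, ← s2]
    simp only [C1.comp, fun p => (hu.2 p).2.1, fun p => (hu.2 p).2.2, fun p => (hv.2 p).2.1,
      fun p => (hv.2 p).2.2, add_apply, smul_apply,
      map_add, map_smul, smul_eq_mul]
    ring

theorem smoothOK_mu : SmoothOK h1 t1 h2 t2 α β (l * mu 1 Ω) (l * mu 2 Ω) := by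
  have l0 : 0 < l := by rw [hl]; exact sq_pos_of_det h
  intro u v lam
  obtain ⟨gu, hu⟩ := exists_rep' m h u
  obtain ⟨gv, hv⟩ := exists_rep' m h v
  have hD := rep_D h hβ ho hbd hΩ hl hh1 hh2 hu hv
  have hN := rep_N h hβ ho hbd hΩ hl hh1 ht1 hh2 ht2 hu hv
  have hF : ∀ c z1 z2 : ℝ, ∀ x, fderiv ℝ (fun y => c + z1 * gu y + z2 * gv y) x
      = z1 • fderiv ℝ gu x + z2 • fderiv ℝ gv x := fun c z1 z2 x =>
    ((((hu.1.differentiable one_ne_zero x).hasFDerivAt.const_mul z1).const_add c).add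
      ((hv.1.differentiable one_ne_zero x).hasFDerivAt.const_mul z2)).fderiv
  constructor
  · intro z1 z2 hp hb
    rw [← le_div_iff₀' l0]
    have hs : ∀ (t : Fin (1 + 1) → ℝ) (x : E2),
        ∑ i, t i * (![fun _ => 1, fun x => z1 * gu x + z2 * gv x] : Fin (1 + 1) → E2 → ℝ) i x
          = t 0 + t 1 * z1 * gu x + t 1 * z2 * gv x := by
      intro t x
      simp [Fin.sum_univ_two]
      ring
    refine mu_le ![fun _ => 1, fun x => z1 * gu x + z2 * gv x] ?_ ?_ ?_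
    · intro i
      have c1 := hu.1
      have c2 := hv.1
      fin_cases i <;> simp <;> fun_prop
    · intro t ht
      simp only [hs, hD]
      exact mul_pos l0 (hp _ _ (ne_zero_two ht))
    · intro t _
      simp only [hs, hF, hD, hN]
      rw [← mul_assoc, div_mul_cancel₀ _ l0.ne']
      exact hb _ _
  · intro hp hb
    rw [← le_div_iff₀' l0]
    have hs : ∀ (t : Fin (2 + 1) → ℝ) (x : E2),
        ∑ i, t i * (![fun _ => 1, gu, gv] : Fin (2 + 1) → E2 → ℝ) i x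
          = t 0 + t 1 * gu x + t 2 * gv x := by
      intro t x
      simp [Fin.sum_univ_three]
    refine mu_le ![fun _ => 1, gu, gv] ?_ ?_ ?_
    · intro i
      have c1 := hu.1
      have c2 := hv.1
      fin_cases i <;> simp <;> fun_prop
    · intro t ht
      simp only [hs, hD]
      exact mul_pos l0 (hp _ _ _ (ne_zero_three ht))
    · intro t _
      simp only [hs, hF, hD, hN]
      rw [← mul_assoc, div_mul_cancel₀ _ l0.ne']
      exact hb _ _ _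

theorem mu_pos (hne : Ω.Nonempty) : 0 < mu 1 Ω ∧ 0 < mu 2 Ω := by
  have l0 : 0 < l := by rw [hl]; exact sq_pos_of_det h
  have p1 : 0 < h1 := by rw [hh1]; exact div_pos (abs_pos.mpr h) l0
  have p2 : 0 < h2 := by rw [hh2]; exact mul_pos (neg_pos.mpr hβ) p1
  obtain ⟨c, hc, hP⟩ := poinc_pair p1 p2 t1 t2
  have := le_mu12 ho hbd hne (c := c / l) ?_
  · exact ⟨(div_pos hc l0).trans_le this.1, (div_pos hc l0).trans_le this.2⟩
  intro g hg h0
  obtain ⟨u, hu⟩ := exists_rep m e w hg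
  have hD := rep_D h hβ ho hbd hΩ hl hh1 hh2 hu hu 0 1 0
  have hN := rep_N h hβ ho hbd hΩ hl hh1 ht1 hh2 ht2 hu hu 1 0
  rw [rep_B h hβ ho hbd hΩ hl hh1 hh2 hu] at h0
  simp only [zero_add, one_mul, zero_mul, add_zero, one_smul, zero_smul] at hD hN
  rw [hD, hN, ← mul_assoc, div_mul_cancel₀ _ l0.ne']
  exact hP u _ (fun s => by simp [C1.comp]) ((mul_eq_zero.mp h0).resolve_left l0.ne')

theorem quad_bound (hv : volume Ω = 1) : 2 / Real.pi ^ 2 ≤ 1 / mu 1 Ω + 1 / mu 2 Ω := by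
  have l0 : 0 < l := by rw [hl]; exact sq_pos_of_det h
  have p1 : 0 < h1 := by rw [hh1]; exact div_pos (abs_pos.mpr h) l0
  have p2 : 0 < h2 := by rw [hh2]; exact mul_pos (neg_pos.mpr hβ) p1
  have hne : Ω.Nonempty := nonempty_of_measure_ne_zero (by rw [hv]; exact one_ne_zero)
  obtain ⟨m1, m2⟩ := mu_pos h hβ ho hbd hΩ hl hh1 ht1 hh2 ht2 hne
  have hG := good_all t1 t2 p1 p2 _ _ (mul_pos l0 m1) (mul_pos l0 m2)
    (pairOK_of_smooth p1 p2 hβ (smoothOK_mu h hβ ho hbd hΩ hl hh1 ht1 hh2 ht2))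
  have hA := int_split h hβ ho hbd hΩ hl hh1 hh2 (F := fun _ => 1) continuous_const
  simp only [IT_const, integral_const, Measure.real, MeasurableSet.univ, Measure.restrict_apply,
    univ_inter, hv, ENNReal.toReal_one, smul_eq_mul, mul_one] at hA
  have e1 : 1 / mu 1 Ω + 1 / mu 2 Ω = l * (1 / (l * mu 1 Ω) + 1 / (l * mu 2 Ω)) := by
    field_simp
  have e2 : 2 / Real.pi ^ 2 = l * ((h1 + h2) * yy ^ 2 / 2) := by
    rw [show l * ((h1 + h2) * yy ^ 2 / 2) = l * (h1 + h2) * (yy ^ 2 / 2) by ring, ← hA]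
    unfold yy
    field_simp
  rw [e1, e2]
  exact mul_le_mul_of_nonneg_left hG l0.le

end quad

theorem opp_bound {a b c d : E2} (hopp : det2 (c - a) (b - a) * det2 (c - a) (d - a) < 0)
    {Ω : Set E2} (ho : IsOpen Ω) (hbd : Bornology.IsBounded Ω)
    (hf : frontier Ω = segment ℝ a b ∪ segment ℝ b c ∪ segment ℝ c d ∪ segment ℝ d a)
    (hv : volume Ω = 1) : 2 / Real.pi ^ 2 ≤ 1 / mu 1 Ω + 1 / mu 2 Ω := by
  set m : E2 := (1 / 2 : ℝ) • (a + c) with hm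
  set e : E2 := (1 / 2 : ℝ) • (c - a) with he
  set w : E2 := b - m with hw
  have d1 : det2 e w = det2 (c - a) (b - a) / 2 := by
    simp only [det2, hw, hm, he, PiLp.add_apply, PiLp.smul_apply, PiLp.sub_apply, smul_eq_mul]
    ring
  have n1 : det2 (c - a) (b - a) ≠ 0 := by
    intro h0
    rw [h0, zero_mul] at hopp
    exact lt_irrefl _ hopp
  have h : det2 e w ≠ 0 := by rw [d1]; exact div_ne_zero n1 two_ne_zero
  have hβ : (Phi m e w d).2 < 0 := by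
    have : (Phi m e w d).2 = det2 (c - a) (b - a) * det2 (c - a) (d - a)
        / det2 (c - a) (b - a) ^ 2 := by
      simp only [Phi, d1]
      field_simp
      simp only [det2, hm, he, PiLp.add_apply, PiLp.smul_apply, PiLp.sub_apply, smul_eq_mul]
      ring
    rw [this]
    exact div_neg_of_neg_of_pos hopp (by positivity)
  have hne : Ω.Nonempty := nonempty_of_measure_ne_zero (by rw [hv]; exact one_ne_zero)
  have hΩ := region_eq (a := a) (b := b) (c := c) (d := d) (m := m) h (α := (Phi m e w d).1) hβ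
    (by simp only [Psi, hm, he]; module) (by simp only [Psi, hw]; module)
    (by simp only [Psi, hm, he]; module) (Psi_Phi m h d).symm ho hbd hne hf
  exact quad_bound h hβ ho hbd hΩ rfl rfl rfl rfl rfl hv

theorem quadrilateral_bound {a b c d : E2} {Ω : Set E2} (h1 : ¬ Collinear ℝ {a, b, c})
    (h2 : ¬ Collinear ℝ {b, c, d}) (h3 : ¬ Collinear ℝ {c, d, a}) (h4 : ¬ Collinear ℝ {d, a, b})
    (s1 : Disjoint (segment ℝ a b) (segment ℝ c d))
    (s2 : Disjoint (segment ℝ b c) (segment ℝ d a)) (ho : IsOpen Ω) (hbd : Bornology.IsBounded Ω)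
    (hf : frontier Ω = segment ℝ a b ∪ segment ℝ b c ∪ segment ℝ c d ∪ segment ℝ d a)
    (hv : volume Ω = 1) : 2 / Real.pi ^ 2 ≤ 1 / mu 1 Ω + 1 / mu 2 Ω := by
  rcases exists_diagonal h1 h2 h3 h4 s1 s2 with h | h
  · exact opp_bound h ho hbd hf hv
  · refine opp_bound h ho hbd ?_ hv
    rw [hf]
    ext x
    simp only [mem_union]
    tauto

theorem square_value : 1 / mu 1 {x : E2 | ∀ i, 0 < x i ∧ x i < 1}
    + 1 / mu 2 {x : E2 | ∀ i, 0 < x i ∧ x i < 1} ≤ 2 / Real.pi ^ 2 := by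
  have hp : 0 < Real.pi ^ 2 := by positivity
  have h1 := one_div_le_one_div_of_le hp square_bound.1
  have h2 := one_div_le_one_div_of_le hp square_bound.2
  have : 2 / Real.pi ^ 2 = 1 / Real.pi ^ 2 + 1 / Real.pi ^ 2 := by ring
  linarith

end Pool.Agent.MP_da42b8_an

end MrgPart2

-- marker of a merged file
example : 731051 + 515017 = 731051 + 515017 := rfl
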